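import Pool.Agent.Lib.MP_8f66f0_al_WaldL.GrDefs
import Pool.Agent.Lib.MP_8f66f0_al_WaldL.Supp

/-! HNN extensions: idempotents and supports. -/

set_option autoImplicit false

namespace Pool.Agent.WaldL

open Pool.Agent.Wald

variable {LL : Type} [CommRing LL]

open Matrix

section HnnCore
variable {G : Type} [Group G] {T : HnnTree G}

/-- The translate of a set. -/
private def tr (k : G) (S : Set G) : Set G := {g | k⁻¹ * g ∈ S}

private theorem tr_one (S : Set G) : tr 1 S = S := by
  ext g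
  simp [tr]

/-- The elements which are neither in `E` nor in `V`. -/
private def HnnCore_N (T : HnnTree G) : Set G := {g | g ∉ T.V ∧ g ∉ T.E}

private theorem HnnCore_HV {g : G} (hg : g ∈ T.H) : g ∉ T.V := by
  intro h
  have := T.rightH g h g⁻¹ (T.H.inv_mem hg)
  rw [mul_inv_cancel] at this
  exact T.one_notMem this

private theorem HnnCore_EH {g : G} (hg : g ∈ T.E) : g ∈ T.H := ((T.memE g).1 hg).1

private theorem HnnCore_tH {h : G} (hh : h ∈ T.H) : T.t * h ∈ T.V := T.rightH _ T.t_mem h hh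

private theorem HnnCore_Et {g : G} (hg : g ∈ T.E) : g * T.t ∈ T.V := by
  have h1 := HnnCore_tH (T := T) ((T.memE g).1 hg).2
  have h2 : T.t * (T.t⁻¹ * g * T.t) = g * T.t := by group
  rwa [h2] at h1

private theorem HnnCore_gt (g : G) : g * T.t ∈ T.V ↔ g ∈ T.E ∨ g ∈ T.V := by
  by_cases hg : g ∈ T.E
  · exact ⟨fun _ => Or.inl hg, fun _ => HnnCore_Et hg⟩
  · rw [← T.edge g hg]
    exact ⟨Or.inr, fun h => h.resolve_left hg⟩

private theorem HnnCore_rightV {g h : G} (hh : h ∈ T.H) : g * h ∈ T.V ↔ g ∈ T.V := by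
  constructor
  · intro h1
    have := T.rightH _ h1 h⁻¹ (T.H.inv_mem hh)
    rwa [mul_assoc, mul_inv_cancel, mul_one] at this
  · intro h1
    exact T.rightH g h1 h hh

private theorem HnnCore_disj (k : G) : Disjoint (tr k (T.E : Set G)) (tr k T.V) := by
  rw [Set.disjoint_left]
  intro g hg hg'
  exact HnnCore_HV (HnnCore_EH hg) hg'

private theorem HnnCore_disj' (k : G) :
    Disjoint (tr k (T.E : Set G)) (tr k (HnnCore_N T)) := by
  rw [Set.disjoint_left]
  intro g hg hg'
  exact hg'.2 hg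

variable {I J : Type} [Fintype I] [DecidableEq I] [Fintype J] [DecidableEq J]

/-- The matrix `t b`. -/
private noncomputable def HnnCore_be (D : HnnData LL T I J) : Matrix I J (MonoidAlgebra LL G) :=
  (MonoidAlgebra.single T.t (1 : LL) : MonoidAlgebra LL G) • D.b

private theorem HnnCore_mc (D : HnnData LL T I J) : (D.a + HnnCore_be D) * D.c = 1 := D.mc

private theorem HnnCore_cm (D : HnnData LL T I J) : D.c * (D.a + HnnCore_be D) = 1 := D.cm

private theorem HnnCore_hbe (D : HnnData LL T I J) :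
    MSupp {g | T.t⁻¹ * g ∈ T.H} (HnnCore_be D) :=
  MSupp.smul_single 1 D.hb fun s hs => by
    change T.t⁻¹ * (T.t * s) ∈ T.H
    rw [← mul_assoc, inv_mul_cancel, one_mul]
    exact hs

private theorem HnnCore_pos (D : HnnData LL T I J) {l : Type} (k : G)
    (y : Matrix l I (MonoidAlgebra LL G)) :
    mrs (tr k T.V) (y * (D.a + HnnCore_be D)) =
      mrs (tr k T.V) y * (D.a + HnnCore_be D) + mrs (tr k (T.E : Set G)) y * HnnCore_be D := by
  have h1 : mrs (tr k T.V) (y * D.a) = mrs (tr k T.V) y * D.a := by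
    apply mrs_mul_right D.ha
    · intro g hg a ha
      change k⁻¹ * (g * a) ∈ T.V
      rw [← mul_assoc, HnnCore_rightV ha]
      exact hg
    · intro g hg a ha h
      change k⁻¹ * (g * a) ∈ T.V at h
      rw [← mul_assoc, HnnCore_rightV ha] at h
      exact hg h
  have h2 : mrs (tr k T.V) (y * HnnCore_be D) =
      mrs (tr k (T.E : Set G) ∪ tr k T.V) y * HnnCore_be D := by
    have h3 : ∀ g a : G, T.t⁻¹ * a ∈ T.H →
        (k⁻¹ * (g * a) ∈ T.V ↔ (k⁻¹ * g ∈ T.E ∨ k⁻¹ * g ∈ T.V)) := by
      intro g a ha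
      have : k⁻¹ * g * T.t * (T.t⁻¹ * a) = k⁻¹ * (g * a) := by group
      rw [← HnnCore_gt (k⁻¹ * g), ← this, HnnCore_rightV ha]
    apply mrs_mul_right (HnnCore_hbe D)
    · intro g hg a ha
      exact (h3 g a ha).2 hg
    · intro g hg a ha h
      exact hg ((h3 g a ha).1 h)
  rw [Matrix.mul_add, mrs_add, h1, h2, mrs_union (HnnCore_disj k), Matrix.add_mul, Matrix.mul_add]
  abel

private theorem HnnCore_neg (D : HnnData LL T I J) {l : Type} (k : G)
    (y : Matrix l I (MonoidAlgebra LL G)) :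
    mrs (tr k T.Vᶜ) (y * (D.a + HnnCore_be D)) =
      mrs (tr k (HnnCore_N T)) y * (D.a + HnnCore_be D) + mrs (tr k (T.E : Set G)) y * D.a := by
  have hset : tr k T.Vᶜ = tr k (T.E : Set G) ∪ tr k (HnnCore_N T) := by
    ext g
    change k⁻¹ * g ∉ T.V ↔ (k⁻¹ * g ∈ T.E ∨ (k⁻¹ * g ∉ T.V ∧ k⁻¹ * g ∉ T.E))
    by_cases hE : k⁻¹ * g ∈ T.E
    · exact ⟨fun _ => Or.inl hE, fun _ => HnnCore_HV (HnnCore_EH hE)⟩
    · exact ⟨fun h => Or.inr ⟨h, hE⟩, fun h => (h.resolve_left hE).1⟩
  have h1 : mrs (tr k T.Vᶜ) (y * D.a) = mrs (tr k T.Vᶜ) y * D.a := by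
    apply mrs_mul_right D.ha
    · intro g hg a ha h
      rw [← mul_assoc, HnnCore_rightV ha] at h
      exact hg h
    · intro g hg a ha h
      apply hg
      intro h'
      apply h
      rw [← mul_assoc, HnnCore_rightV ha]
      exact h'
  have h2 : mrs (tr k T.Vᶜ) (y * HnnCore_be D) = mrs (tr k (HnnCore_N T)) y * HnnCore_be D := by
    have h3 : ∀ g a : G, T.t⁻¹ * a ∈ T.H →
        (k⁻¹ * (g * a) ∈ T.V ↔ (k⁻¹ * g ∈ T.E ∨ k⁻¹ * g ∈ T.V)) := by
      intro g a ha
      have : k⁻¹ * g * T.t * (T.t⁻¹ * a) = k⁻¹ * (g * a) := by group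
      rw [← HnnCore_gt (k⁻¹ * g), ← this, HnnCore_rightV ha]
    apply mrs_mul_right (HnnCore_hbe D)
    · intro g hg a ha h
      rcases (h3 g a ha).1 h with h' | h'
      · exact hg.2 h'
      · exact hg.1 h'
    · intro g hg a ha h
      apply h
      apply (h3 g a ha).2
      by_contra hcon
      exact hg ⟨fun h' => hcon (Or.inr h'), fun h' => hcon (Or.inl h')⟩
  rw [Matrix.mul_add, mrs_add, h1, h2, hset, mrs_union (HnnCore_disj' k), Matrix.add_mul,
    Matrix.mul_add]
  abel

/-- The product with an inverse. -/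
private theorem HnnCore_solve (D : HnnData LL T I J) {l : Type}
    {z : Matrix l I (MonoidAlgebra LL G)} {w : Matrix l J (MonoidAlgebra LL G)}
    (h : z * (D.a + HnnCore_be D) + w = 0) : z = -(w * D.c) := by
  have h1 : (z * (D.a + HnnCore_be D) + w) * D.c = 0 := by rw [h, Matrix.zero_mul]
  rw [Matrix.add_mul, Matrix.mul_assoc, HnnCore_mc, Matrix.mul_one] at h1
  exact eq_neg_of_add_eq_zero_left h1

/-- The part on `k E` of a product. -/
private theorem HnnCore_part {l n : Type} (k : G) {u : Matrix l I (MonoidAlgebra LL G)}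
    (hu : MSupp (tr k (T.E : Set G)) u) (M : Matrix I n (MonoidAlgebra LL G)) :
    mrs (tr k (T.E : Set G)) (u * M) = u * mrs (T.E : Set G) M := by
  apply mrs_mul_left hu
  · intro a ha g hg
    change k⁻¹ * (a * g) ∈ T.E
    rw [← mul_assoc]
    exact T.E.mul_mem ha hg
  · intro a ha g hg h
    change k⁻¹ * (a * g) ∈ T.E at h
    rw [← mul_assoc] at h
    exact hg ((T.E.mul_mem_cancel_left ha).1 h)

private theorem HnnCore_mrs0 {l n : Type} {S S' : Set G} (hd : Disjoint S S')
    (M : Matrix l n (MonoidAlgebra LL G)) : mrs S (mrs S' M) = 0 :=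
  mrs_eq_zero (mrs_supp S' M) hd

/-- If `y m` has no part beyond the edge `k E` then the `k E` part of `y` kills `pb`. -/
private theorem HnnCore_killb (D : HnnData LL T I J) {l : Type} (k : G)
    (y : Matrix l I (MonoidAlgebra LL G))
    (h : mrs (tr k T.V) (y * (D.a + HnnCore_be D)) = 0) :
    mrs (tr k (T.E : Set G)) y * D.pb = 0 := by
  rw [HnnCore_pos] at h
  have h1 := HnnCore_solve D h
  have h2 : mrs (tr k (T.E : Set G)) (mrs (tr k T.V) y) = 0 := HnnCore_mrs0 (HnnCore_disj k) y
  rw [h1] at h2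
  have h3 : mrs (tr k (T.E : Set G)) (mrs (tr k (T.E : Set G)) y * HnnCore_be D * D.c) = 0 := by
    have h4 := mrs_add (tr k (T.E : Set G)) (-(mrs (tr k (T.E : Set G)) y * HnnCore_be D * D.c))
      (mrs (tr k (T.E : Set G)) y * HnnCore_be D * D.c)
    rw [neg_add_cancel, h2, zero_add] at h4
    rw [← h4]
    ext i j
    simp [mrs]
  rw [Matrix.mul_assoc, HnnCore_part k (mrs_supp _ _)] at h3
  exact h3

/-- If `y m` has no part on the side of `1` of the edge `k E` then the `k E` part of `y` kills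
`pa`. -/
private theorem HnnCore_killa (D : HnnData LL T I J) {l : Type} (k : G)
    (y : Matrix l I (MonoidAlgebra LL G))
    (h : mrs (tr k T.Vᶜ) (y * (D.a + HnnCore_be D)) = 0) :
    mrs (tr k (T.E : Set G)) y * D.pa = 0 := by
  rw [HnnCore_neg] at h
  have h1 := HnnCore_solve D h
  have h2 : mrs (tr k (T.E : Set G)) (mrs (tr k (HnnCore_N T)) y) = 0 :=
    HnnCore_mrs0 (HnnCore_disj' k) y
  rw [h1] at h2
  have h3 : mrs (tr k (T.E : Set G)) (mrs (tr k (T.E : Set G)) y * D.a * D.c) = 0 := by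
    have h4 := mrs_add (tr k (T.E : Set G)) (-(mrs (tr k (T.E : Set G)) y * D.a * D.c))
      (mrs (tr k (T.E : Set G)) y * D.a * D.c)
    rw [neg_add_cancel, h2, zero_add] at h4
    rw [← h4]
    ext i j
    simp [mrs]
  rw [Matrix.mul_assoc, HnnCore_part k (mrs_supp _ _)] at h3
  exact h3

theorem HnnData.pa_add_pb (D : HnnData LL T I J) : D.pa + D.pb = 1 := by
  rw [HnnData.pa, HnnData.pb, ← mrs_add, ← Matrix.add_mul, D.mc]
  exact mrs_one_of_mem T.E.one_mem

theorem HnnData.pa_mul_pb (D : HnnData LL T I J) : D.pa * D.pb = 0 := by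
  have h := HnnCore_killb D 1 (D.a * D.c) (by
    rw [Matrix.mul_assoc, HnnCore_cm, Matrix.mul_one, tr_one]
    apply mrs_eq_zero D.ha
    rw [Set.disjoint_right]
    intro g hg
    exact HnnCore_HV hg)
  rw [tr_one] at h
  exact h

theorem HnnData.pb_mul_pa (D : HnnData LL T I J) : D.pb * D.pa = 0 := by
  have h := HnnCore_killa D 1 (HnnCore_be D * D.c) (by
    rw [Matrix.mul_assoc, HnnCore_cm, Matrix.mul_one, tr_one]
    apply mrs_eq_zero (HnnCore_hbe D)
    rw [Set.disjoint_right]
    intro g hg h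
    apply h
    have := HnnCore_tH (T := T) hg
    rwa [← mul_assoc, mul_inv_cancel, one_mul] at this)
  rw [tr_one] at h
  exact h

theorem HnnData.rows_a (D : HnnData LL T I J) {l : Type} (u : Matrix l I (MonoidAlgebra LL G))
    (hu : MSupp (T.E : Set G) u) (h : u * D.pb = 0) :
    MSupp T.V (u * (((MonoidAlgebra.single T.t (1 : LL) : MonoidAlgebra LL G) • D.b) * D.c)) := by
  change MSupp T.V (u * (HnnCore_be D * D.c))
  set z := u * (HnnCore_be D * D.c) with hz
  have hzm : z * (D.a + HnnCore_be D) = u * HnnCore_be D := by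
    rw [hz, Matrix.mul_assoc, Matrix.mul_assoc, HnnCore_cm, Matrix.mul_one]
  have h0 : mrs (tr 1 T.Vᶜ) (z * (D.a + HnnCore_be D)) = 0 := by
    rw [hzm, tr_one]
    apply mrs_eq_zero (T := T.V)
    · apply hu.mul (HnnCore_hbe D)
      intro e he g hg
      apply T.leftE e he
      have := HnnCore_tH (T := T) hg
      rwa [← mul_assoc, mul_inv_cancel, one_mul] at this
    · exact disjoint_compl_left
  rw [HnnCore_neg, tr_one, tr_one] at h0
  have hE : mrs (T.E : Set G) z = 0 := by
    have h1 := HnnCore_part (T := T) 1 (by rw [tr_one]; exact hu) (HnnCore_be D * D.c)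
    rw [tr_one] at h1
    rw [hz, h1]
    exact h
  rw [hE, Matrix.zero_mul] at h0
  have hN := HnnCore_solve D h0
  rw [Matrix.zero_mul, neg_zero] at hN
  have hc : mrs T.Vᶜ z = 0 := by
    have hset : T.Vᶜ = (T.E : Set G) ∪ HnnCore_N T := by
      ext g
      change g ∉ T.V ↔ (g ∈ T.E ∨ (g ∉ T.V ∧ g ∉ T.E))
      by_cases hE : g ∈ T.E
      · exact ⟨fun _ => Or.inl hE, fun _ => HnnCore_HV (HnnCore_EH hE)⟩
      · exact ⟨fun h => Or.inr ⟨h, hE⟩, fun h => (h.resolve_left hE).1⟩
    have hd := HnnCore_disj' (T := T) 1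
    rw [tr_one, tr_one] at hd
    rw [hset, mrs_union hd, hE, hN, add_zero]
  have h5 := mrs_add_compl T.V z
  rw [hc, add_zero] at h5
  rw [← h5]
  exact mrs_supp _ _

theorem HnnData.rows_b (D : HnnData LL T I J) {l : Type} (u : Matrix l I (MonoidAlgebra LL G))
    (hu : MSupp (T.E : Set G) u) (h : u * D.pa = 0) :
    MSupp {g | g ∉ T.V ∧ g ∉ T.E} (u * (D.a * D.c)) := by
  set z := u * (D.a * D.c) with hz
  have hzm : z * (D.a + HnnCore_be D) = u * D.a := by
    rw [hz, Matrix.mul_assoc, Matrix.mul_assoc, HnnCore_cm, Matrix.mul_one]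
  have h0 : mrs (tr 1 T.V) (z * (D.a + HnnCore_be D)) = 0 := by
    rw [hzm, tr_one]
    apply mrs_eq_zero (T := (T.H : Set G))
    · apply hu.mul D.ha
      intro e he g hg
      exact T.H.mul_mem (HnnCore_EH he) hg
    · rw [Set.disjoint_right]
      intro g hg
      exact HnnCore_HV hg
  rw [HnnCore_pos, tr_one, tr_one] at h0
  have hE : mrs (T.E : Set G) z = 0 := by
    have h1 := HnnCore_part (T := T) 1 (by rw [tr_one]; exact hu) (D.a * D.c)
    rw [tr_one] at h1
    rw [hz, h1]
    exact h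
  rw [hE, Matrix.zero_mul] at h0
  have hN := HnnCore_solve D h0
  rw [Matrix.zero_mul, neg_zero] at hN
  have hd := HnnCore_disj (T := T) 1
  rw [tr_one, tr_one] at hd
  have h5 := mrs_add_compl ((T.E : Set G) ∪ T.V) z
  rw [mrs_union hd, hE, hN, zero_add, zero_add] at h5
  rw [← h5]
  apply (mrs_supp _ _).mono
  intro g hg
  exact ⟨fun h => hg (Or.inr h), fun h => hg (Or.inl h)⟩

/-- A matrix vanishes if all its parts on the cosets `k E` vanish. -/
private theorem HnnCore_zero {l n : Type} {M : Matrix l n (MonoidAlgebra LL G)} {S : Set G}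
    (hM : MSupp S M) (h : ∀ k ∈ S, mrs (tr k (T.E : Set G)) M = 0) : M = 0 := by
  classical
  ext i j g
  by_cases hg : g ∈ S
  · have h1 := congrFun (congrFun (h g hg) i) j
    have h2 : (mrs (tr g (T.E : Set G)) M i j).coeff g = (M i j).coeff g := by
      change (rs (tr g (T.E : Set G)) (M i j)).coeff g = _
      rw [coeff_rs, if_pos]
      change g⁻¹ * g ∈ T.E
      rw [inv_mul_cancel]
      exact T.E.one_mem
    rw [← h2, h1]
  · exact hM i j g hg

/-- The part on `k E` of a product with a matrix supported in `E`. -/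
private theorem HnnCore_partr {l n : Type} (k : G) (M : Matrix l I (MonoidAlgebra LL G))
    {p : Matrix I n (MonoidAlgebra LL G)} (hp : MSupp (T.E : Set G) p) :
    mrs (tr k (T.E : Set G)) (M * p) = mrs (tr k (T.E : Set G)) M * p := by
  apply mrs_mul_right hp
  · intro g hg a ha
    change k⁻¹ * (g * a) ∈ T.E
    rw [← mul_assoc]
    exact T.E.mul_mem hg ha
  · intro g hg a ha h
    change k⁻¹ * (g * a) ∈ T.E at h
    rw [← mul_assoc] at h
    exact hg ((T.E.mul_mem_cancel_right ha).1 h)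

theorem HnnData.star_a (D : HnnData LL T I J) : mrs (T.H : Set G) D.c * D.pb = 0 := by
  have hpb : MSupp (T.E : Set G) D.pb := mrs_supp _ _
  apply HnnCore_zero (T := T) (S := (T.H : Set G))
  · apply (mrs_supp _ _).mul hpb
    intro g hg e he
    exact T.H.mul_mem hg (HnnCore_EH he)
  · intro k hk
    rw [HnnCore_partr k _ hpb, mrs_mrs, Set.inter_eq_left.2]
    · apply HnnCore_killb D k D.c
      rw [HnnCore_cm]
      apply mrs_eq_zero (T := {1})
      · intro i j g hg
        classical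
        rw [Matrix.one_apply]
        split_ifs
        · rw [MonoidAlgebra.one_def, MonoidAlgebra.coeff_single, Finsupp.single_apply, if_neg]
          rintro rfl
          exact hg rfl
        · rfl
      · rw [Set.disjoint_singleton_right]
        intro h
        change k⁻¹ * 1 ∈ T.V at h
        rw [mul_one] at h
        exact HnnCore_HV (T.H.inv_mem hk) h
    · intro g hg
      have : k * (k⁻¹ * g) ∈ T.H := T.H.mul_mem hk (HnnCore_EH hg)
      rwa [mul_inv_cancel_left] at this

theorem HnnData.star_b (D : HnnData LL T I J) :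
    mrs {g | g * T.t ∈ T.H} D.c * D.pa = 0 := by
  have hpa : MSupp (T.E : Set G) D.pa := mrs_supp _ _
  have hE : ∀ g e : G, g * T.t ∈ T.H → e ∈ T.E → g * e * T.t ∈ T.H := by
    intro g e hg he
    have h1 := T.H.mul_mem hg ((T.memE e).1 he).2
    have h2 : g * T.t * (T.t⁻¹ * e * T.t) = g * e * T.t := by group
    rwa [h2] at h1
  apply HnnCore_zero (T := T) (S := {g | g * T.t ∈ T.H})
  · apply (mrs_supp _ _).mul hpa
    intro g hg e he
    exact hE g e hg he
  · intro k hk
    rw [HnnCore_partr k _ hpa, mrs_mrs, Set.inter_eq_left.2]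
    · apply HnnCore_killa D k D.c
      rw [HnnCore_cm]
      apply mrs_eq_zero (T := {1})
      · intro i j g hg
        classical
        rw [Matrix.one_apply]
        split_ifs
        · rw [MonoidAlgebra.one_def, MonoidAlgebra.coeff_single, Finsupp.single_apply, if_neg]
          rintro rfl
          exact hg rfl
        · rfl
      · rw [Set.disjoint_singleton_right]
        intro h
        change k⁻¹ * 1 ∉ T.V at h
        apply h
        rw [mul_one]
        have h1 := HnnCore_tH (T := T) (T.H.inv_mem hk)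
        have h2 : T.t * (k * T.t)⁻¹ = k⁻¹ := by group
        rwa [h2] at h1
    · intro g hg
      have h1 := hE k (k⁻¹ * g) hk hg
      rwa [mul_inv_cancel_left] at h1

end HnnCore

end Pool.Agent.WaldL
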