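import Mathlib
import Pool.Agent.Lib.MP_8f66f0_al_Wald.Defs
import Pool.Agent.Lib.MP_8f66f0_al_Wald.GrDefs

/-! Group ring definitions: base change along an injective homomorphism, supports, trees. -/

set_option autoImplicit false

namespace Pool.Agent.WaldL

open Pool.Agent.Wald

variable {LL : Type} [CommRing LL]

open MonoidAlgebra

section Base

/-- The map of group rings induced by a homomorphism. -/
noncomputable abbrev inc {E G : Type} [Group E] [Group G] (φ : E →* G) :
    MonoidAlgebra LL E →+* MonoidAlgebra LL G :=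
  MonoidAlgebra.mapDomainRingHom LL φ

variable (LL) in
/-- The left module structure. -/
noncomputable abbrev modH {E G : Type} [Group E] [Group G] (φ : E →* G) :
    Module (MonoidAlgebra LL E) (MonoidAlgebra LL G) :=
  Module.compHom _ (inc φ)

variable (LL) in
theorem towerH {E G : Type} [Group E] [Group G] (φ : E →* G) :
    letI := modH LL φ
    IsScalarTower (MonoidAlgebra LL E) (MonoidAlgebra LL G) (MonoidAlgebra LL G) :=
  letI := modH LL φ
  ⟨fun x y z => mul_assoc (inc φ x) y z⟩

/-- The invariant kills the group elements and the invertible matrices over `L`. -/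
def KillsUnits {Γ : Type} [Group Γ] {K : Type} [CommGroup K]
    (κ : K1Fun (MonoidAlgebra LL Γ) K) : Prop :=
  (∀ g : Γ, κ.f (Matrix.of fun _ _ : Fin 1 => (MonoidAlgebra.single g (1 : LL))) = 1) ∧
    ∀ (n : Type) [Fintype n] [DecidableEq n] (A : Matrix n n LL), IsUnit A →
      κ.f (A.map (algebraMap LL (MonoidAlgebra LL Γ))) = 1

theorem KillsUnits.unit {Γ : Type} [Group Γ] {K : Type} [CommGroup K]
    {κ : K1Fun (MonoidAlgebra LL Γ) K} (hκ : KillsUnits κ) (g : Γ) (ε : LLˣ) :
    κ.f (Matrix.of fun _ _ : Fin 1 => (MonoidAlgebra.single g (ε : LL))) = 1 := by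
  have hu : ∀ (x : Γ) (u : LLˣ), IsUnit (Matrix.of fun _ _ : Fin 1 =>
      (MonoidAlgebra.single x (u : LL))) := by
    intro x u
    refine ⟨⟨Matrix.of fun _ _ : Fin 1 => (MonoidAlgebra.single x (u : LL)),
      Matrix.of fun _ _ : Fin 1 => (MonoidAlgebra.single x⁻¹ ((u⁻¹ : LLˣ) : LL)), ?_, ?_⟩, rfl⟩
    · refine Matrix.ext fun i j => ?_
      rw [Matrix.mul_apply, Fin.sum_univ_one, Matrix.of_apply, Matrix.of_apply,
        MonoidAlgebra.single_mul_single, mul_inv_cancel, Units.mul_inv, Subsingleton.elim i j,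
        Matrix.one_apply_eq, MonoidAlgebra.one_def]
    · refine Matrix.ext fun i j => ?_
      rw [Matrix.mul_apply, Fin.sum_univ_one, Matrix.of_apply, Matrix.of_apply,
        MonoidAlgebra.single_mul_single, inv_mul_cancel, Units.inv_mul, Subsingleton.elim i j,
        Matrix.one_apply_eq, MonoidAlgebra.one_def]
  have h1 : (Matrix.of fun _ _ : Fin 1 => (MonoidAlgebra.single g (ε : LL) :
      MonoidAlgebra LL Γ)) =
      (Matrix.of fun _ _ : Fin 1 => (MonoidAlgebra.single g (1 : LL))) *
        (Matrix.of fun _ _ : Fin 1 => (MonoidAlgebra.single 1 (ε : LL))) := by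
    refine Matrix.ext fun i j => ?_
    rw [Matrix.mul_apply, Fin.sum_univ_one, Matrix.of_apply, Matrix.of_apply, Matrix.of_apply,
      MonoidAlgebra.single_mul_single, mul_one, one_mul]
  have h2 := hκ.2 (Fin 1) (Matrix.of fun _ _ : Fin 1 => (ε : LL))
    ⟨⟨Matrix.of fun _ _ : Fin 1 => (ε : LL), Matrix.of fun _ _ : Fin 1 => ((ε⁻¹ : LLˣ) : LL), by
      refine Matrix.ext fun i j => ?_
      rw [Matrix.mul_apply, Fin.sum_univ_one, Matrix.of_apply, Matrix.of_apply, Units.mul_inv,
        Subsingleton.elim i j, Matrix.one_apply_eq], by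
      refine Matrix.ext fun i j => ?_
      rw [Matrix.mul_apply, Fin.sum_univ_one, Matrix.of_apply, Matrix.of_apply, Units.inv_mul,
        Subsingleton.elim i j, Matrix.one_apply_eq]⟩, rfl⟩
  have h3 : (Matrix.of fun _ _ : Fin 1 => (ε : LL)).map (algebraMap LL (MonoidAlgebra LL Γ)) =
      Matrix.of fun _ _ : Fin 1 => (MonoidAlgebra.single 1 (ε : LL)) := by
    refine Matrix.ext fun i j => ?_
    rfl
  rw [h1, κ.mul _ _ (by simpa using hu g 1) (hu 1 ε), hκ.1 g, ← h3, h2, one_mul]

variable (LL) in
/-- `K_1(LΓ)` is generated by `GL(L)` and `Γ`, in terms of `K_1`-like invariants. -/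
def WhT (Γ : Type) [Group Γ] : Prop :=
  ∀ (K : Type) [CommGroup K] (κ : K1Fun (MonoidAlgebra LL Γ) K), KillsUnits κ →
    ∀ (n : Type) [Fintype n] [DecidableEq n] (A : Matrix n n (MonoidAlgebra LL Γ)), IsUnit A →
      κ.f A = 1

end Base

section Supp

variable {G : Type} [Group G]

/-- The support of `x` is contained in `S`. -/
def SuppIn (S : Set G) (x : MonoidAlgebra LL G) : Prop := ∀ g, g ∉ S → x.coeff g = 0

open Classical in
/-- Restriction of `x` to the set `S`. -/
noncomputable def rs (S : Set G) : MonoidAlgebra LL G →+ MonoidAlgebra LL G where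
  toFun x := MonoidAlgebra.ofCoeff (x.coeff.filter (· ∈ S))
  map_zero' := by
    rw [MonoidAlgebra.coeff_zero, Finsupp.filter_zero, MonoidAlgebra.ofCoeff_zero]
  map_add' x y := by
    rw [MonoidAlgebra.coeff_add, Finsupp.filter_add, MonoidAlgebra.ofCoeff_add]

/-- All entries are supported in `S`. -/
def MSupp {m n : Type} (S : Set G) (M : Matrix m n (MonoidAlgebra LL G)) : Prop :=
  ∀ i j, SuppIn S (M i j)

/-- Entrywise restriction. -/
noncomputable def mrs {m n : Type} (S : Set G) (M : Matrix m n (MonoidAlgebra LL G)) :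
    Matrix m n (MonoidAlgebra LL G) := M.map (rs S)

/-- The invariant kills invertible matrices which are, with their inverses, supported in `S`. -/
def Kills {K : Type} [CommGroup K] (κ : K1Fun (MonoidAlgebra LL G) K) (S : Set G) : Prop :=
  ∀ (n : Type) [Fintype n] [DecidableEq n] (M M' : Matrix n n (MonoidAlgebra LL G)),
    MSupp S M → MSupp S M' → M * M' = 1 → M' * M = 1 → κ.f M = 1

end Supp

/-- An invertible matrix `[a | b]` over `LL G`, `a` over `LLA` and `b` over `LLB`, with rows indexed
by `I`, and its inverse with rows `a'`, `b'`. -/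
structure AmData (LL : Type) [CommRing LL] {G : Type} [Group G] (T : AmTree G) (I nA nB : Type) [Fintype I] [DecidableEq I]
    [Fintype nA] [DecidableEq nA] [Fintype nB] [DecidableEq nB] where
  a : Matrix I nA (MonoidAlgebra LL G)
  b : Matrix I nB (MonoidAlgebra LL G)
  a' : Matrix nA I (MonoidAlgebra LL G)
  b' : Matrix nB I (MonoidAlgebra LL G)
  ha : MSupp (T.A : Set G) a
  hb : MSupp (T.B : Set G) b
  sum : a * a' + b * b' = 1
  aa : a' * a = 1
  ab : a' * b = 0
  ba : b' * a = 0
  bb : b' * b = 1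

/-- The idempotent belonging to `A`. -/
noncomputable def AmData.pA {G : Type} [Group G] {T : AmTree G} {I nA nB : Type} [Fintype I]
    [DecidableEq I] [Fintype nA] [DecidableEq nA] [Fintype nB] [DecidableEq nB]
    (D : AmData LL T I nA nB) : Matrix I I (MonoidAlgebra LL G) :=
  mrs ((T.A ⊓ T.B : Subgroup G) : Set G) (D.a * D.a')

/-- The idempotent belonging to `B`. -/
noncomputable def AmData.pB {G : Type} [Group G] {T : AmTree G} {I nA nB : Type} [Fintype I]
    [DecidableEq I] [Fintype nA] [DecidableEq nA] [Fintype nB] [DecidableEq nB]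
    (D : AmData LL T I nA nB) : Matrix I I (MonoidAlgebra LL G) :=
  mrs ((T.A ⊓ T.B : Subgroup G) : Set G) (D.b * D.b')

/-- An invertible matrix `a + t b` over `LL G`, `a` and `b` over `LLH`, and its inverse `c`. -/
structure HnnData (LL : Type) [CommRing LL] {G : Type} [Group G] (T : HnnTree G) (I J : Type) [Fintype I] [DecidableEq I]
    [Fintype J] [DecidableEq J] where
  a : Matrix I J (MonoidAlgebra LL G)
  b : Matrix I J (MonoidAlgebra LL G)
  c : Matrix J I (MonoidAlgebra LL G)
  ha : MSupp (T.H : Set G) a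
  hb : MSupp (T.H : Set G) b
  mc : (a + (MonoidAlgebra.single T.t (1 : LL) : MonoidAlgebra LL G) • b) * c = 1
  cm : c * (a + (MonoidAlgebra.single T.t (1 : LL) : MonoidAlgebra LL G) • b) = 1

/-- The matrix `a + t b`. -/
noncomputable def HnnData.m {G : Type} [Group G] {T : HnnTree G} {I J : Type} [Fintype I]
    [DecidableEq I] [Fintype J] [DecidableEq J] (D : HnnData LL T I J) :
    Matrix I J (MonoidAlgebra LL G) :=
  D.a + (MonoidAlgebra.single T.t (1 : LL) : MonoidAlgebra LL G) • D.b

variable (LL) in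
/-- The matrix `diag(1, t⁻¹)`. -/
noncomputable def tInv {G : Type} [Group G] (T : HnnTree G) (p q : ℕ) :
    Matrix (Fin p ⊕ Fin q) (Fin p ⊕ Fin q) (MonoidAlgebra LL G) :=
  Matrix.fromBlocks 1 0 0 (Matrix.diagonal fun _ => MonoidAlgebra.single T.t⁻¹ (1 : LL))

/-- The idempotent belonging to `a`. -/
noncomputable def HnnData.pa {G : Type} [Group G] {T : HnnTree G} {I J : Type} [Fintype I]
    [DecidableEq I] [Fintype J] [DecidableEq J] (D : HnnData LL T I J) :
    Matrix I I (MonoidAlgebra LL G) :=
  mrs (T.E : Set G) (D.a * D.c)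

/-- The idempotent belonging to `t b`. -/
noncomputable def HnnData.pb {G : Type} [Group G] {T : HnnTree G} {I J : Type} [Fintype I]
    [DecidableEq I] [Fintype J] [DecidableEq J] (D : HnnData LL T I J) :
    Matrix I I (MonoidAlgebra LL G) :=
  mrs (T.E : Set G) (((MonoidAlgebra.single T.t (1 : LL) : MonoidAlgebra LL G) • D.b) * D.c)

end Pool.Agent.WaldL
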