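import Mathlib
import Pool.Agent.Lib.MP_8f66f0_al_WaldL.GrDefs
import Pool.Agent.Lib.MP_8f66f0_al_Wald.K1Lem
import Pool.Agent.Lib.MP_8f66f0_al_Wald.Higman
import Pool.Agent.Lib.MP_8f66f0_al_WaldL.Supp

/-! HNN extensions: reduction of an invertible matrix to one of the form `a + t b`. -/

set_option autoImplicit false

namespace Pool.Agent.WaldL

open Pool.Agent.Wald

variable {LL : Type} [CommRing LL]

open Matrix

section HnnRed

variable {G : Type} [Group G]

/-- the value at a diagonal matrix with a group element on the diagonal -/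
private theorem HnnRed_diag {K : Type} [CommGroup K] (κ : K1Fun (MonoidAlgebra LL G) K)
    (hκ : KillsUnits κ) (t : G) : ∀ N : ℕ, IsUnit (Matrix.diagonal
      (fun _ : Fin N => (MonoidAlgebra.single t (1 : LL) : MonoidAlgebra LL G))) ∧
      κ.f (Matrix.diagonal
      (fun _ : Fin N => (MonoidAlgebra.single t (1 : LL) : MonoidAlgebra LL G))) = 1 := by
  intro N
  have hu : ∀ (n : Type) [Fintype n] [DecidableEq n], IsUnit (Matrix.diagonal
      (fun _ : n => (MonoidAlgebra.single t (1 : LL) : MonoidAlgebra LL G))) := by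
    intro n _ _
    refine ⟨⟨Matrix.diagonal (fun _ => MonoidAlgebra.single t (1 : LL)),
      Matrix.diagonal (fun _ => MonoidAlgebra.single t⁻¹ (1 : LL)), ?_, ?_⟩, rfl⟩
    · rw [Matrix.diagonal_mul_diagonal]
      simp only [MonoidAlgebra.single_mul_single, mul_inv_cancel, mul_one]
      rw [← MonoidAlgebra.one_def]
      exact Matrix.diagonal_one
    · rw [Matrix.diagonal_mul_diagonal]
      simp only [MonoidAlgebra.single_mul_single, inv_mul_cancel, mul_one]
      rw [← MonoidAlgebra.one_def]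
      exact Matrix.diagonal_one
  refine ⟨hu (Fin N), ?_⟩
  induction N with
  | zero =>
    have : Matrix.diagonal
      (fun _ : Fin 0 => (MonoidAlgebra.single t (1 : LL) : MonoidAlgebra LL G)) = 1 := by
      ext i
      exact i.elim0
    rw [this, κ.f_one]
  | succ N ih =>
    have h1 := κ.reindex (finSumFinEquiv (m := N) (n := 1)).symm
      (Matrix.diagonal
      (fun _ : Fin (N + 1) => (MonoidAlgebra.single t (1 : LL) : MonoidAlgebra LL G))) (hu _)
    rw [← h1]
    have h2 : (Matrix.diagonal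
      (fun _ : Fin (N + 1) => (MonoidAlgebra.single t (1 : LL) : MonoidAlgebra LL G))).submatrix
        (finSumFinEquiv (m := N) (n := 1)).symm.symm (finSumFinEquiv (m := N) (n := 1)).symm.symm =
        fromBlocks (Matrix.diagonal
          (fun _ : Fin N => (MonoidAlgebra.single t (1 : LL) : MonoidAlgebra LL G))) 0 0
          (Matrix.diagonal
          (fun _ : Fin 1 => (MonoidAlgebra.single t (1 : LL) : MonoidAlgebra LL G))) := by
      rw [Matrix.submatrix_diagonal _ _ (Equiv.injective _)]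
      rw [Matrix.fromBlocks_diagonal]
      congr 1
      funext i
      rcases i with i | i <;> rfl
    rw [h2, κ.tri _ _ _ (hu _) (hu _), ih, one_mul]
    have h3 : (Matrix.diagonal
          (fun _ : Fin 1 => (MonoidAlgebra.single t (1 : LL) : MonoidAlgebra LL G))) =
          Matrix.of fun _ _ : Fin 1 => (MonoidAlgebra.single t (((1 : LLˣ) : LL))) := by
      ext1 i j
      rw [Subsingleton.elim i j, Matrix.diagonal_apply_eq]
      rfl
    rw [h3]
    exact hκ.unit t 1

variable (LL) in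
/-- the support condition -/
private def HnnRed_L (T : HnnTree G) : AddSubgroup (MonoidAlgebra LL G) where
  carrier := {x | SuppIn ((T.H : Set G) ∪ {T.t, T.t⁻¹}) x}
  zero_mem' := SuppIn.zero
  add_mem' := fun hx hy => SuppIn.add hx hy
  neg_mem' := fun hx => SuppIn.neg hx

private theorem HnnRed_gen (T : HnnTree G) :
    Subring.closure (HnnRed_L LL T : Set (MonoidAlgebra LL G)) = ⊤ := by
  have h0 : ∀ g : G, g ∈ (T.H : Set G) ∪ {T.t, T.t⁻¹} → MonoidAlgebra.single g (1 : LL) ∈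
      Subring.closure (HnnRed_L LL T : Set (MonoidAlgebra LL G)) := by
    intro g hg
    apply Subring.subset_closure
    exact SuppIn.single hg 1
  have h1 : ∀ g : G, MonoidAlgebra.single g (1 : LL) ∈
      Subring.closure (HnnRed_L LL T : Set (MonoidAlgebra LL G)) ∧ MonoidAlgebra.single g⁻¹ (1 : LL) ∈
      Subring.closure (HnnRed_L LL T : Set (MonoidAlgebra LL G)) := by
    intro g
    have hg : g ∈ Subgroup.closure ((T.H : Set G) ∪ {T.t}) := by
      rw [T.gen]
      trivial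
    refine Subgroup.closure_induction (p := fun g _ => MonoidAlgebra.single g (1 : LL) ∈
      Subring.closure (HnnRed_L LL T : Set (MonoidAlgebra LL G)) ∧ MonoidAlgebra.single g⁻¹ (1 : LL) ∈
      Subring.closure (HnnRed_L LL T : Set (MonoidAlgebra LL G))) ?_ ?_ ?_ ?_ hg
    · rintro x (hx | hx)
      · exact ⟨h0 _ (Or.inl hx), h0 _ (Or.inl (T.H.inv_mem hx))⟩
      · rw [Set.mem_singleton_iff] at hx
        subst hx
        exact ⟨h0 _ (Or.inr (Or.inl rfl)), h0 _ (Or.inr (Or.inr rfl))⟩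
    · rw [inv_one, ← MonoidAlgebra.one_def]
      exact ⟨one_mem _, one_mem _⟩
    · intro x y _ _ hx hy
      constructor
      · have := mul_mem hx.1 hy.1
        rwa [MonoidAlgebra.single_mul_single, mul_one] at this
      · have := mul_mem hy.2 hx.2
        rwa [MonoidAlgebra.single_mul_single, mul_one, ← _root_.mul_inv_rev] at this
    · intro x _ hx
      rw [inv_inv]
      exact ⟨hx.2, hx.1⟩
  rw [eq_top_iff]
  intro x _
  refine (suppIn_univ x).induction (p := fun x => x ∈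
    Subring.closure (HnnRed_L LL T : Set (MonoidAlgebra LL G))) (zero_mem _)
    (fun x y hx hy => add_mem hx hy) ?_
  intro g _ a
  have h2 : (MonoidAlgebra.single g a : MonoidAlgebra LL G) =
      MonoidAlgebra.single 1 a * MonoidAlgebra.single g (1 : LL) := by
    rw [MonoidAlgebra.single_mul_single, one_mul, mul_one]
  rw [h2]
  exact mul_mem (Subring.subset_closure (SuppIn.single (S := (T.H : Set G) ∪ {T.t, T.t⁻¹})
    (Or.inl T.H.one_mem) a)) (h1 g).1

private theorem HnnRed_t (T : HnnTree G) : T.t ∉ T.H ∧ T.t⁻¹ ∉ T.H := by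
  have h1 : T.t ∉ T.H := by
    intro h
    have h2 := T.rightH T.t T.t_mem T.t⁻¹ (T.H.inv_mem h)
    rw [mul_inv_cancel] at h2
    exact T.one_notMem h2
  refine ⟨h1, fun h => h1 ?_⟩
  have := T.H.inv_mem h
  rwa [inv_inv] at this

/-- decomposition of a matrix with entries in `L` -/
private theorem HnnRed_dec (T : HnnTree G) {m n : Type} (M : Matrix m n (MonoidAlgebra LL G))
    (hM : ∀ i j, M i j ∈ HnnRed_L LL T) : ∃ M0 M1 M2 : Matrix m n (MonoidAlgebra LL G),
      MSupp (T.H : Set G) M0 ∧ MSupp (T.H : Set G) M1 ∧ MSupp (T.H : Set G) M2 ∧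
      M = M0 + (MonoidAlgebra.single T.t (1 : LL) : MonoidAlgebra LL G) • M1 +
        (MonoidAlgebra.single T.t⁻¹ (1 : LL) : MonoidAlgebra LL G) • M2 := by
  obtain ⟨h1, h2⟩ := HnnRed_t T
  have hdis : Disjoint (T.H : Set G) ({T.t, T.t⁻¹} : Set G) := by
    rw [Set.disjoint_left]
    rintro x hx (rfl | rfl)
    · exact h1 hx
    · exact h2 hx
  have hdis2 : Disjoint ({T.t} : Set G) ({T.t, T.t⁻¹} \ {T.t} : Set G) :=
    Set.disjoint_sdiff_right
  have hM' : MSupp ((T.H : Set G) ∪ {T.t, T.t⁻¹}) M := hM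
  have e1 := mrs_eq_self hM'
  have e2 : ({T.t, T.t⁻¹} : Set G) = {T.t} ∪ ({T.t, T.t⁻¹} \ {T.t} : Set G) := by
    rw [Set.union_sdiff_cancel]
    intro x hx
    exact Or.inl hx
  rw [mrs_union hdis] at e1
  have e3 : mrs ({T.t, T.t⁻¹} : Set G) M = mrs {T.t} M + mrs ({T.t, T.t⁻¹} \ {T.t} : Set G) M := by
    conv_lhs => rw [e2]
    exact mrs_union hdis2 M
  rw [e3] at e1
  have hone : ∀ x : MonoidAlgebra LL G, (MonoidAlgebra.single (1 : G) (1 : LL)) * x = x := by
    intro x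
    rw [← MonoidAlgebra.one_def, one_mul]
  refine ⟨mrs (T.H : Set G) M,
    (MonoidAlgebra.single T.t⁻¹ (1 : LL) : MonoidAlgebra LL G) • mrs {T.t} M,
    (MonoidAlgebra.single T.t (1 : LL) : MonoidAlgebra LL G) • mrs ({T.t, T.t⁻¹} \ {T.t} : Set G) M,
    mrs_supp _ _, ?_, ?_, ?_⟩
  · refine MSupp.smul_single 1 (mrs_supp _ _) ?_
    rintro s rfl
    rw [inv_mul_cancel]
    exact T.H.one_mem
  · refine MSupp.smul_single 1 (mrs_supp _ _) ?_
    rintro s ⟨(rfl | rfl), hs⟩
    · exact absurd rfl hs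
    · rw [mul_inv_cancel]
      exact T.H.one_mem
  · rw [smul_smul, smul_smul, MonoidAlgebra.single_mul_single, MonoidAlgebra.single_mul_single,
      mul_inv_cancel, inv_mul_cancel, mul_one, ← MonoidAlgebra.one_def, one_smul, one_smul,
      add_assoc]
    exact e1.symm

theorem hnn_red {K : Type} [CommGroup K] (κ : K1Fun (MonoidAlgebra LL G) K) (hκ : KillsUnits κ)
    (T : HnnTree G) (n : Type) [Fintype n] [DecidableEq n]
    (M : Matrix n n (MonoidAlgebra LL G)) (hM : IsUnit M) :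
    ∃ (N : ℕ) (D : HnnData LL T (Fin N) (Fin N)), κ.f D.m = κ.f M := by
  have hM1 := K1Fun.isUnit_submatrix (Fintype.equivFin n) hM
  obtain ⟨N, M', hM', hL, hf⟩ := higman (HnnRed_L LL T) (SuppIn.one (Or.inl T.H.one_mem))
    (HnnRed_gen T) _ hM1
  obtain ⟨M0, M1, M2, hM0, hM1', hM2, hdec⟩ := HnnRed_dec T M' hL
  have hf' : κ.f M' = κ.f M := (hf K κ).trans (κ.reindex (Fintype.equivFin n) M hM)
  set τ : MonoidAlgebra LL G := MonoidAlgebra.single T.t (1 : LL) with hτ
  set τi : MonoidAlgebra LL G := MonoidAlgebra.single T.t⁻¹ (1 : LL) with hτi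
  have hττi : τ * τi = 1 := by
    rw [hτ, hτi, MonoidAlgebra.single_mul_single, mul_inv_cancel, mul_one, ← MonoidAlgebra.one_def]
  set Φ : Matrix (Fin N ⊕ Fin N) (Fin N ⊕ Fin N) (MonoidAlgebra LL G) :=
    fromBlocks (M0 + τ • M1) 1 (-(τi • M2)) 1 with hΦ
  have hlow : IsUnit (fromBlocks (1 : Matrix (Fin N) (Fin N) (MonoidAlgebra LL G)) 0 (τi • M2)
      (1 : Matrix (Fin N) (Fin N) (MonoidAlgebra LL G))) :=
    K1Fun.isUnit_lower _ isUnit_one isUnit_one
  have hup : IsUnit (fromBlocks M' (1 : Matrix (Fin N) (Fin N) (MonoidAlgebra LL G)) 0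
      (1 : Matrix (Fin N) (Fin N) (MonoidAlgebra LL G))) :=
    K1Fun.isUnit_tri _ hM' isUnit_one
  have e1 : Φ * fromBlocks (1 : Matrix (Fin N) (Fin N) (MonoidAlgebra LL G)) 0 (τi • M2)
      (1 : Matrix (Fin N) (Fin N) (MonoidAlgebra LL G)) = fromBlocks M' 1 0 1 := by
    rw [hΦ, fromBlocks_multiply]
    simp only [Matrix.mul_one, Matrix.one_mul, Matrix.mul_zero, zero_add, neg_add_cancel]
    rw [hdec]
  have hΦu : IsUnit Φ := by
    obtain ⟨u, hu⟩ := hlow
    have : Φ = fromBlocks M' 1 0 1 *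
        ((u⁻¹ : (Matrix (Fin N ⊕ Fin N) (Fin N ⊕ Fin N) (MonoidAlgebra LL G))ˣ) :
          Matrix (Fin N ⊕ Fin N) (Fin N ⊕ Fin N) (MonoidAlgebra LL G)) := by
      rw [← e1, ← hu, Matrix.mul_assoc, Units.mul_inv, Matrix.mul_one]
    rw [this]
    exact hup.mul (Units.isUnit _)
  have hΦf : κ.f Φ = κ.f M := by
    have h1 := κ.mul Φ _ hΦu hlow
    rw [e1, κ.tri _ _ _ hM' isUnit_one, κ.lower _ _ _ isUnit_one isUnit_one, κ.f_one, one_mul,
      mul_one, mul_one] at h1
    rw [← h1, hf']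
  obtain ⟨hdu, hdf⟩ := HnnRed_diag κ hκ T.t N
  set Δ : Matrix (Fin N ⊕ Fin N) (Fin N ⊕ Fin N) (MonoidAlgebra LL G) :=
    fromBlocks 1 0 0 (Matrix.diagonal (fun _ : Fin N => τ)) with hΔ
  have hΔu : IsUnit Δ := K1Fun.isUnit_tri _ isUnit_one hdu
  have hΔf : κ.f Δ = 1 := by
    rw [hΔ, κ.tri _ _ _ isUnit_one hdu, κ.f_one, hdf, one_mul]
  set a : Matrix (Fin N ⊕ Fin N) (Fin N ⊕ Fin N) (MonoidAlgebra LL G) :=
    fromBlocks M0 1 (-M2) 0 with ha
  set b : Matrix (Fin N ⊕ Fin N) (Fin N ⊕ Fin N) (MonoidAlgebra LL G) :=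
    fromBlocks M1 0 0 1 with hb
  have e2 : Δ * Φ = a + τ • b := by
    rw [hΔ, hΦ, ha, hb, fromBlocks_multiply, fromBlocks_smul, fromBlocks_add]
    simp only [Matrix.one_mul, Matrix.zero_mul, add_zero, zero_add, Matrix.mul_one, smul_zero]
    congr 1
    · rw [Matrix.mul_neg, ← Matrix.smul_eq_diagonal_mul, smul_smul, hττi, one_smul]
    · rw [Matrix.smul_one_eq_diagonal]
  have haH : MSupp (T.H : Set G) a :=
    MSupp.fromBlocks hM0 (MSupp.one T.H.one_mem) hM2.neg MSupp.zero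
  have hbH : MSupp (T.H : Set G) b :=
    MSupp.fromBlocks hM1' MSupp.zero MSupp.zero (MSupp.one T.H.one_mem)
  have hU : IsUnit (Δ * Φ) := hΔu.mul hΦu
  have hUf : κ.f (Δ * Φ) = κ.f M := by
    rw [κ.mul _ _ hΔu hΦu, hΔf, one_mul, hΦf]
  set e : Fin N ⊕ Fin N ≃ Fin (N + N) := finSumFinEquiv with he
  have hV := K1Fun.isUnit_submatrix e hU
  have hVf := κ.reindex e _ hU
  obtain ⟨w, hw⟩ := hV
  have e3 : a.submatrix e.symm e.symm + τ • b.submatrix e.symm e.symm = w := by
    rw [hw, e2]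
    rfl
  refine ⟨N + N, ⟨a.submatrix e.symm e.symm, b.submatrix e.symm e.symm,
    ((w⁻¹ : (Matrix (Fin (N + N)) (Fin (N + N)) (MonoidAlgebra LL G))ˣ) :
      Matrix (Fin (N + N)) (Fin (N + N)) (MonoidAlgebra LL G)), haH.submatrix _ _,
    hbH.submatrix _ _, ?_, ?_⟩, ?_⟩
  · rw [← hτ, e3]
    exact Units.mul_inv w
  · rw [← hτ, e3]
    exact Units.inv_mul w
  · show κ.f (a.submatrix e.symm e.symm + τ • b.submatrix e.symm e.symm) = κ.f M
    rw [e3, hw, hVf, hUf]

end HnnRed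

end Pool.Agent.WaldL
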