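import Mathlib
import Pool.Agent.Lib.MP_8f66f0_al_WaldL.GrDefs
import Pool.Agent.Lib.MP_8f66f0_al_Wald.K1Lem
import Pool.Agent.Lib.MP_8f66f0_al_WaldL.Supp

/-! Rank of invertible matrices over `LL G`; invertible matrices over a subgroup. -/

set_option autoImplicit false

namespace Pool.Agent.WaldL

open Pool.Agent.Wald

variable {LL : Type} [CommRing LL]

open Matrix

theorem card_eq_of_inv [Nontrivial LL] {G : Type} [Group G] {m n : Type} [Fintype m] [DecidableEq m] [Fintype n]
    [DecidableEq n] (A : Matrix m n (MonoidAlgebra LL G)) (B : Matrix n m (MonoidAlgebra LL G))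
    (h : A * B = 1) (h' : B * A = 1) : Fintype.card m = Fintype.card n := by
  set ε : MonoidAlgebra LL G →+* LL := (MonoidAlgebra.lift LL LL G 1).toRingHom with hε
  refine Matrix.square_of_invertible (A.map ε) (B.map ε) ?_ ?_
  · rw [← Matrix.map_mul, h, Matrix.map_one ε (map_zero ε) (map_one ε)]
  · rw [← Matrix.map_mul, h', Matrix.map_one ε (map_zero ε) (map_one ε)]

/-- The pullback of an invariant. -/
private noncomputable def IbnLift_pull {R S K : Type} [Ring R] [Ring S] [CommGroup K] (i : R →+* S)
    (κ : K1Fun S K) : K1Fun R K where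
  f A := κ.f (A.map i)
  mul A B hA hB := by
    rw [Matrix.map_mul]
    exact κ.mul _ _ (hA.map i.mapMatrix) (hB.map i.mapMatrix)
  reindex e A hA := by
    rw [← Matrix.submatrix_map]
    exact κ.reindex e _ (hA.map i.mapMatrix)
  tri A B D hA hD := by
    rw [Matrix.fromBlocks_map, show (0 : Matrix _ _ R).map i = 0 from Matrix.map_zero i (map_zero i)]
    exact κ.tri _ _ _ (hA.map i.mapMatrix) (hD.map i.mapMatrix)

theorem kills_range {H G : Type} [Group H] [Group G] (φ : H →* G) (hφ : Function.Injective φ)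
    (hH : WhT LL H) {K : Type} [CommGroup K] (κ : K1Fun (MonoidAlgebra LL G) K) (hκ : KillsUnits κ) :
    Kills κ (φ.range : Set G) := by
  intro n _ _ M M' hM hM' h h'
  obtain ⟨N, rfl⟩ := (msupp_range φ hφ M).1 hM
  obtain ⟨N', rfl⟩ := (msupp_range φ hφ M').1 hM'
  have hi := inc_injective (LL := LL) φ hφ
  have h0 : N * N' = 1 := by
    apply Matrix.map_injective hi
    dsimp only
    rw [Matrix.map_mul, h, Matrix.map_one _ (map_zero _) (map_one _)]
  have h0' : N' * N = 1 := by
    apply Matrix.map_injective hi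
    dsimp only
    rw [Matrix.map_mul, h', Matrix.map_one _ (map_zero _) (map_one _)]
  refine hH K (IbnLift_pull (inc φ) κ) ?_ n N ⟨⟨N, N', h0, h0'⟩, rfl⟩
  constructor
  · intro g
    have h1 : (Matrix.of fun _ _ : Fin 1 => (MonoidAlgebra.single g (1 : LL) :
        MonoidAlgebra LL H)).map (inc φ) =
        Matrix.of fun _ _ : Fin 1 => (MonoidAlgebra.single (φ g) (1 : LL) : MonoidAlgebra LL G) := by
      refine Matrix.ext fun i j => ?_
      rw [Matrix.map_apply, Matrix.of_apply, Matrix.of_apply, inc,
        MonoidAlgebra.mapDomainRingHom_apply, MonoidAlgebra.mapDomain_single]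
    change κ.f (Matrix.map _ (inc φ)) = 1
    rw [h1]
    exact hκ.1 (φ g)
  · intro n _ _ A hA
    have h1 : (A.map (algebraMap LL (MonoidAlgebra LL H))).map (inc φ) =
        A.map (algebraMap LL (MonoidAlgebra LL G)) := by
      refine Matrix.ext fun i j => ?_
      rw [Matrix.map_apply, Matrix.map_apply, Matrix.map_apply]
      change inc φ (MonoidAlgebra.single 1 (A i j)) = MonoidAlgebra.single 1 (A i j)
      rw [inc_single, map_one]
    change κ.f (Matrix.map _ (inc φ)) = 1
    rw [h1]
    exact hκ.2 n A hA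

end Pool.Agent.WaldL
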