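import Pool.Agent.Lib.MP_8f66f0_al_WaldL.NilGr
import Pool.Agent.Lib.MP_8f66f0_al_WaldL.NilGrLoc

/-! The property of a group `E` that Theorem N holds over `LL E`. -/

set_option autoImplicit false

namespace Pool.Agent.WaldL

open Pool.Agent.Wald

variable {LL : Type} [CommRing LL]

open Matrix

variable (LL) in
/-- Theorem N holds over `LL E`: for every tensor-nilpotent matrix `ν` over the group ring of a
group `G` containing `E`, all `K_1`-like invariants are trivial at `1 - ν`. -/
def NilV (E : Type) [Group E] : Prop :=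
  ∀ (G : Type) [Group G] (φ : E →* G), Function.Injective φ → ∀ (n : ℕ)
    (ν : Matrix (Fin n) (Fin n) (MonoidAlgebra LL G)) (m : ℕ) (B : ℕ → ℕ)
    (h : ∀ i, Matrix (Fin n) (Fin (B i)) (MonoidAlgebra LL E)),
    (∀ x : Fin n → MonoidAlgebra LL E, vecMul x (h 0) = 0 → x = 0) → h m = 0 →
    (∀ i (x : Fin n → MonoidAlgebra LL E), vecMul x (h (i + 1)) = 0 →
      vecMul (vecMul (fun a => inc φ (x a)) ν) ((h i).map (inc φ)) = 0) →
    IsUnit (1 - ν) →
    ∀ (K : Type) [CommGroup K] (κ : K1Fun (MonoidAlgebra LL G) K), κ.f (1 - ν) = 1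

theorem nilV_of_c1 {E : Type} [Group E] (hC : C1 (MonoidAlgebra LL E))
    (hP : PD1 (MonoidAlgebra LL E)) : NilV LL E := by
  intro G _ φ hφ n ν m B h h0 hm hh hu K _ κ
  exact nilVanish_gr φ hφ hC hP ν m B h h0 hm hh hu κ

/-- The property passes from the finitely generated subgroups to the group. -/
theorem nilV_local {E : Type} [Group E] (hE : ∀ E' : Subgroup E, E'.FG → NilV LL E') : NilV LL E := by
  intro G _ φ hφ n ν m B h h0 hm hh hu K _ κ
  obtain ⟨E', h', hfg, h0', hm', hh'⟩ := nilGrLoc_restrict φ ν m B h h0 hm hh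
  exact hE E' hfg G (φ.comp E'.subtype) (hφ.comp E'.subtype_injective) n ν m B h' h0' hm' hh' hu
    K κ

end Pool.Agent.WaldL
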