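import Pool.Agent.Lib.MP_8f66f0_al_WaldL.AmFinalN
import Pool.Agent.Lib.MP_8f66f0_al_WaldL.HnnFinalN
import Pool.Agent.Lib.MP_8f66f0_al_WaldL.IbnLift
import Pool.Agent.Lib.MP_8f66f0_al_WaldL.NilV
import Pool.Agent.Lib.MP_8f66f0_al_Wald.AmPush
import Pool.Agent.Lib.MP_8f66f0_al_Wald.HnnExt

/-! Theorem W over a coefficient ring: amalgams, HNN extensions, isomorphisms, directed unions. -/

set_option autoImplicit false

namespace Pool.Agent.WaldL

open Pool.Agent.Wald

variable {LL : Type} [CommRing LL]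

open Matrix

theorem whT_pushout [Nontrivial LL] (G : Bool → Type) [∀ i, Group (G i)] (E : Type) [Group E]
    (φ : ∀ i, E →* G i) (hφ : ∀ i, Function.Injective (φ i)) (hG : ∀ i, WhT LL (G i))
    (hN : NilV LL E) (hS : ProjSF (MonoidAlgebra LL E)) : WhT LL (Monoid.PushoutI φ) := by
  intro K _ κ hκ n _ _ M hM
  obtain ⟨T, hTA, hTB, hTE⟩ := amTree_pushout G E φ hφ
  have hb : Function.Injective (Monoid.PushoutI.base φ) := by
    rw [← Monoid.PushoutI.of_comp_eq_base (φ := φ) true]
    exact (Monoid.PushoutI.of_injective hφ true).comp (hφ true)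
  have hkill : ∀ i, Kills κ ((Monoid.PushoutI.of (φ := φ) i).range : Set (Monoid.PushoutI φ)) :=
    fun i => kills_range _ (Monoid.PushoutI.of_injective hφ i) (hG i) κ hκ
  refine am_final_n T (Monoid.PushoutI.base φ) hb hTE.symm hN hS κ hκ ?_ ?_ n M hM
  · rw [hTA]
    exact hkill true
  · rw [hTB]
    exact hkill false

theorem whT_hnn [Nontrivial LL] (G : Type) [Group G] (A B : Subgroup G) (φ : A ≃* B)
    (hG : WhT LL G) (hA : NilV LL A) (hS : ProjSF (MonoidAlgebra LL A)) :
    WhT LL (HNNExtension G A B φ) := by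
  intro K _ κ hκ n _ _ M hM
  obtain ⟨T, hTH, hTt, hTE⟩ := hnnTree_ext G A B φ
  have hinj : Function.Injective (((HNNExtension.of (φ := φ)).comp B.subtype).comp
      φ.toMonoidHom) := by
    intro x y h
    exact φ.injective (Subtype.val_injective (HNNExtension.of_injective φ h))
  have hran : (((HNNExtension.of (φ := φ)).comp B.subtype).comp φ.toMonoidHom).range = T.E := by
    rw [hTE]
    ext g
    constructor
    · rintro ⟨x, hx⟩
      exact ⟨φ x, hx⟩
    · rintro ⟨y, hy⟩
      refine ⟨φ.symm y, ?_⟩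
      rw [← hy]
      change HNNExtension.of ((φ (φ.symm y) : B) : G) = HNNExtension.of (y : G)
      rw [φ.apply_symm_apply]
  refine hnn_final_n T _ hinj hran hA hS κ hκ ?_ n M hM
  rw [hTH]
  exact kills_range _ (HNNExtension.of_injective φ) hG κ hκ

theorem whT_iso {G G' : Type} [Group G] [Group G'] (e : G ≃* G') (h : WhT LL G) :
    WhT LL G' := by
  intro K _ κ hκ n _ _ A hA
  obtain ⟨u, rfl⟩ := hA
  have hk := kills_range e.toMonoidHom e.injective h κ hκ
  have htop : ∀ g : G', g ∈ (e.toMonoidHom.range : Set G') := fun g => ⟨e.symm g, by simp⟩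
  exact hk n _ (u⁻¹ : (Matrix n n (MonoidAlgebra LL G'))ˣ) (fun i j g hg => absurd (htop g) hg)
    (fun i j g hg => absurd (htop g) hg) u.mul_inv u.inv_mul

theorem whT_directed {G : Type} [Group G] (S : Set (Subgroup G)) (hne : S.Nonempty)
    (hd : DirectedOn (· ≤ ·) S) (hS : ∀ g : G, ∃ K ∈ S, g ∈ K)
    (h : ∀ K ∈ S, WhT LL K) : WhT LL G := by
  classical
  intro K _ κ hκ n _ _ A hA
  obtain ⟨u, rfl⟩ := hA
  -- a subgroup in `S` which contains a given finite set
  have hfin : ∀ F : Finset G, ∃ L ∈ S, ∀ g ∈ F, g ∈ L := by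
    intro F
    induction F using Finset.induction_on with
    | empty =>
      obtain ⟨L, hL⟩ := hne
      exact ⟨L, hL, by simp⟩
    | insert g F _ ih =>
      obtain ⟨L, hL, hF⟩ := ih
      obtain ⟨L', hL', hg⟩ := hS g
      obtain ⟨L'', hL'', h1, h2⟩ := hd L hL L' hL'
      refine ⟨L'', hL'', fun x hx => ?_⟩
      rcases Finset.mem_insert.1 hx with rfl | hx
      · exact h2 hg
      · exact h1 (hF x hx)
  let F : Finset G := (Finset.univ.biUnion fun i => Finset.univ.biUnion fun j =>
    ((u : Matrix n n (MonoidAlgebra LL G)) i j).coeff.support) ∪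
    (Finset.univ.biUnion fun i => Finset.univ.biUnion fun j =>
      (((u⁻¹ : (Matrix n n (MonoidAlgebra LL G))ˣ) : Matrix n n (MonoidAlgebra LL G))
        i j).coeff.support)
  obtain ⟨L, hL, hF⟩ := hfin F
  have hk := kills_range L.subtype L.subtype_injective (h L hL) κ hκ
  have hr : ∀ g, g ∈ L → g ∈ (L.subtype.range : Set G) := fun g hg => by simpa using hg
  refine hk n _ (u⁻¹ : (Matrix n n (MonoidAlgebra LL G))ˣ) (fun i j g hg => ?_)
    (fun i j g hg => ?_) u.mul_inv u.inv_mul
  · by_contra hne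
    refine hg (hr g (hF g ?_))
    simp only [F, Finset.mem_union, Finset.mem_biUnion, Finset.mem_univ, true_and]
    exact Or.inl ⟨i, j, Finsupp.mem_support_iff.2 hne⟩
  · by_contra hne
    refine hg (hr g (hF g ?_))
    simp only [F, Finset.mem_union, Finset.mem_biUnion, Finset.mem_univ, true_and]
    exact Or.inr ⟨i, j, Finsupp.mem_support_iff.2 hne⟩

end Pool.Agent.WaldL
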