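import Pool.Agent.Lib.MP_8f66f0_al_Wald.IntSub
import Pool.Agent.Lib.MP_8f66f0_al_Wald.DiagDefs
import Pool.Agent.Lib.MP_8f66f0_al_WaldL.NilV

/-! Statements (as definitions) of the remaining pieces of Theorem W over a principal ideal
domain. -/

set_option autoImplicit false

namespace Pool.Agent.WaldL

open Pool.Agent.Wald

/-- Task SubPid. Copy of `Wald/IntSub.lean` with `LL` for `ℤ` and `FractionRing LL` for `ℚ`
(if the field causes trouble: any field `Q` with `IsFractionRing LL Q`). The only new
point: a module `X` over a principal ideal domain such that `a • ·` is surjective on `X` for all `a ≠ 0`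
satisfies `Module.Baer LL X`: an ideal is `span {a}`; for `a = 0` take the zero map; for `a ≠ 0` and
`f : span {a} → X` choose `x` with `a • x = f a` and take `b ↦ b • x`. (Check first whether
`Module.Baer.of_divisible` or another Mathlib lemma has it for principal ideal domains.) -/
def S_SubPid : Prop :=
  ∀ (LL : Type) [CommRing LL] [IsDomain LL] [IsPrincipalIdealRing LL] (J : Type)
    (N : Submodule LL (J →₀ LL)), Module.Projective LL N

/-- Task C1PL. Copy of `Wald/C1Int.lean` (363 lines) with `LL` for `ℤ`, `FractionRing LL` for `ℚ`,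
`LL ⧸ Ideal.span {p}` (`p` prime in `LL`) for `ZMod p`, and nonzero elements `N : LL` (acting by `•`)
for positive natural numbers. `C1Int_St h k N` for `N : LL`; start: some `N ≠ 0`; step: `St (p * N)` implies
`St N` for `p` prime and `N ≠ 0`; end: if `N` is a unit then `St N` implies `St 1` (multiply `z` by the
inverse). Induction: `UniqueFactorizationMonoid.induction_on_prime` or
`WfDvdMonoid.induction_on_irreducible` for the claim: for all `N ≠ 0`, `St N → St 1`. -/
def S_C1PL : Prop :=
  ∀ (LL : Type) [CommRing LL] [IsDomain LL] [IsPrincipalIdealRing LL] (E : Type) [Group E],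
    GProp (MonoidAlgebra (FractionRing LL) E) →
    (∀ p : LL, Prime p → GProp (MonoidAlgebra (LL ⧸ Ideal.span {p}) E)) →
    C1 (MonoidAlgebra LL E)

/-- Task KerPL. From `SubPid`, copy of the theorem `pd1_of_cd` at the end of `Wald/KerP.lean` with `LL`
for `ℤ` (the theorem `reso` of `Wald/Reso.lean` is already for an arbitrary commutative ring `k`), and
`c1_of_cd` from `S_C1PL`, `kerProj_of_cd` (arbitrary field) and `gprop_of_kerProj`. -/
def S_KerPL : Prop :=
  ∀ (LL : Type) [CommRing LL] [IsDomain LL] [IsPrincipalIdealRing LL] (E : Type) [Group E],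
    CdLE2 E → C1 (MonoidAlgebra LL E) ∧ PD1 (MonoidAlgebra LL E)

end Pool.Agent.WaldL
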