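import Pool.Agent.Lib.MP_8f66f0_al_WaldL.Bridge
import Pool.Agent.Lib.MP_8f66f0_al_WaldL.FinalL
import Pool.Agent.Lib.MP_8f66f0_al_WaldL.Spec
import Pool.Agent.Lib.MP_8f66f0_al_Ind.Euc

/-! Groups for which `K_1(LG)` is generated by units and group elements for all Euclidean
domains `L`: closure properties without a hypothesis on `K_0`. -/

set_option autoImplicit false

namespace Pool.Agent.WaldL

open Pool.Agent.Wald Pool.Agent.Ind

/-- For every Euclidean domain `L`, `K_1(LG)` is generated by the units of `L` and the elements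
of `G`. -/
def KK (G : Type) [Group G] : Prop :=
  ∀ (L : Type) [CommRing L] [IsDomain L], IsEuc L → WhTL L G

/-- The index theorem (see `Ind/LaurPSF`). -/
def S_PSF : Prop :=
  ∀ (L G : Type) [CommRing L] [IsDomain L] [Group G], WhTL (LaurentSeries L) G →
    ProjSF (MonoidAlgebra L G)

/-- The base case (see `Ind/One`). -/
def S_One : Prop :=
  ∀ (L : Type) [CommRing L] [IsDomain L], IsEuc L → ∀ (G : Type) [Group G] [Subsingleton G],
    WhTL L G

theorem kk_projSF (h1 : S_PSF) {G : Type} [Group G] (h : KK G) (L : Type) [CommRing L]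
    [IsDomain L] (hL : IsEuc L) : ProjSF (MonoidAlgebra L G) :=
  h1 L G (h (LaurentSeries L) (isEuc_laurent hL))

theorem kk_pushout (h1 : S_PSF) (h2 : S_One) (G : Bool → Type) [∀ i, Group (G i)] (E : Type)
    [Group E] (φ : ∀ i, E →* G i) (hφ : ∀ i, Function.Injective (φ i)) (hG : ∀ i, KK (G i))
    (hE : KK E) (hN : ∀ (L : Type) [CommRing L] [IsDomain L], IsEuc L → NilV L E) :
    KK (Monoid.PushoutI φ) := fun L _ _ hL =>
  whTL_of_whT (h2 L hL _) (whT_pushout G E φ hφ (fun i => whT_of_whTL (hG i L hL)) (hN L hL)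
    (kk_projSF h1 hE L hL))

theorem kk_hnn (h1 : S_PSF) (h2 : S_One) (G : Type) [Group G] (A B : Subgroup G) (φ : A ≃* B)
    (hG : KK G) (hA : KK A) (hN : ∀ (L : Type) [CommRing L] [IsDomain L], IsEuc L → NilV L A) :
    KK (HNNExtension G A B φ) := fun L _ _ hL =>
  whTL_of_whT (h2 L hL _) (whT_hnn G A B φ (whT_of_whTL (hG L hL)) (hN L hL)
    (kk_projSF h1 hA L hL))

theorem kk_iso (h2 : S_One) {G G' : Type} [Group G] [Group G'] (e : G ≃* G') (h : KK G) : KK G' :=
  fun L _ _ hL => whTL_of_whT (h2 L hL _) (whT_iso e (whT_of_whTL (h L hL)))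

theorem kk_directed (h2 : S_One) {G : Type} [Group G] (S : Set (Subgroup G)) (hne : S.Nonempty)
    (hd : DirectedOn (· ≤ ·) S) (hS : ∀ g : G, ∃ K ∈ S, g ∈ K) (h : ∀ K ∈ S, KK K) : KK G :=
  fun L _ _ hL => whTL_of_whT (h2 L hL _)
    (whT_directed S hne hd hS fun K hK => whT_of_whTL (h K hK L hL))

end Pool.Agent.WaldL
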