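import Pool.Agent.Lib.MP_8f66f0_al_WaldL.CdTree

/-! The Cayley tree of a free group, and the cohomological dimension of `F × G`. -/

set_option autoImplicit false

namespace Pool.Agent.WaldL

open CategoryTheory Pool.Agent.Wald Pool.Agent.WaldT Finsupp

section Fox

variable (X : Type)

/-- Chains on the edges of the Cayley graph. -/
abbrev EdC : Type := (FreeGroup X × X) →₀ ℤ

/-- The action on edges. -/
noncomputable def foxAct (w : FreeGroup X) : EdC X →+ EdC X :=
  Finsupp.mapDomain.addMonoidHom fun e => (w * e.1, e.2)

variable {X}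

theorem foxAct_single (w v : FreeGroup X) (x : X) (n : ℤ) :
    foxAct X w (single (v, x) n) = single (w * v, x) n := Finsupp.mapDomain_single

theorem foxAct_one (m : EdC X) : foxAct X 1 m = m := by
  change Finsupp.mapDomain _ m = m
  have h : (fun e : FreeGroup X × X => ((1 : FreeGroup X) * e.1, e.2)) = id := by
    funext e
    rw [one_mul]
    rfl
  rw [h, Finsupp.mapDomain_id]

theorem foxAct_mul (v w : FreeGroup X) (m : EdC X) :
    foxAct X (v * w) m = foxAct X v (foxAct X w m) := by
  change Finsupp.mapDomain _ m = Finsupp.mapDomain _ (Finsupp.mapDomain _ m)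
  rw [← Finsupp.mapDomain_comp]
  congr 1
  funext e
  change (v * w * e.1, e.2) = (v * (w * e.1), e.2)
  rw [mul_assoc]

/-- The affine map of a generator. -/
noncomputable def foxGen (x : X) : Equiv.Perm (EdC X) where
  toFun m := single (1, x) 1 + foxAct X (FreeGroup.of x) m
  invFun m := foxAct X (FreeGroup.of x)⁻¹ (m - single (1, x) 1)
  left_inv m := by
    dsimp only
    rw [add_sub_cancel_left, ← foxAct_mul, inv_mul_cancel, foxAct_one]
  right_inv m := by
    dsimp only
    rw [← foxAct_mul, mul_inv_cancel, foxAct_one]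
    abel

/-- The affine action. -/
noncomputable def foxAff : FreeGroup X →* Equiv.Perm (EdC X) := FreeGroup.lift foxGen

/-- The total Fox derivative. -/
noncomputable def fox (w : FreeGroup X) : EdC X := foxAff w 0

theorem foxAff_eq (w : FreeGroup X) (m : EdC X) : foxAff w m = fox w + foxAct X w m := by
  unfold fox
  induction w using FreeGroup.induction_on generalizing m with
  | C1 => rw [map_one, foxAct_one, Equiv.Perm.one_apply, Equiv.Perm.one_apply, zero_add]
  | of x =>
    unfold foxAff
    rw [FreeGroup.lift_apply_of]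
    change single (1, x) 1 + foxAct X (FreeGroup.of x) m = single (1, x) 1 +
      foxAct X (FreeGroup.of x) 0 + foxAct X (FreeGroup.of x) m
    rw [map_zero, add_zero]
  | inv_of x h =>
    unfold foxAff
    rw [map_inv, FreeGroup.lift_apply_of]
    change foxAct X (FreeGroup.of x)⁻¹ (m - single (1, x) 1) =
      foxAct X (FreeGroup.of x)⁻¹ (0 - single (1, x) 1) + foxAct X (FreeGroup.of x)⁻¹ m
    rw [← map_add]
    congr 1
    abel
  | mul x y hx hy =>
    rw [map_mul, Equiv.Perm.mul_apply, Equiv.Perm.mul_apply, hx, hy, hx (foxAff y 0), foxAct_mul,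
      map_add, add_assoc]

theorem fox_one : fox (1 : FreeGroup X) = 0 := by
  unfold fox
  rw [map_one, Equiv.Perm.one_apply]

theorem fox_of (x : X) : fox (FreeGroup.of x) = single (1, x) 1 := by
  unfold fox foxAff
  rw [FreeGroup.lift_apply_of]
  change single (1, x) 1 + foxAct X (FreeGroup.of x) 0 = single (1, x) 1
  rw [map_zero, add_zero]

theorem fox_mul (v w : FreeGroup X) : fox (v * w) = fox v + foxAct X v (fox w) := by
  rw [← foxAff_eq]
  unfold fox
  rw [map_mul, Equiv.Perm.mul_apply]

theorem fox_inv (v : FreeGroup X) : fox v⁻¹ = - foxAct X v⁻¹ (fox v) := by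
  have h := fox_mul v⁻¹ v
  rw [inv_mul_cancel, fox_one] at h
  exact eq_neg_of_add_eq_zero_left h.symm

/-- The boundary. -/
noncomputable def foxBd : EdC X →+ (FreeGroup X →₀ ℤ) :=
  Finsupp.mapDomain.addMonoidHom (fun e => e.1 * FreeGroup.of e.2) -
    Finsupp.mapDomain.addMonoidHom (fun e => e.1)

theorem foxBd_apply (m : EdC X) : foxBd m = m.mapDomain (fun e => e.1 * FreeGroup.of e.2) -
    m.mapDomain (fun e => e.1) := rfl

theorem foxBd_act (w : FreeGroup X) (m : EdC X) :
    foxBd (foxAct X w m) = (foxBd m).mapDomain (w * ·) := by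
  induction m using Finsupp.induction_linear with
  | zero => rw [map_zero, map_zero, Finsupp.mapDomain_zero]
  | add m n hm hn => rw [map_add, map_add, map_add, Finsupp.mapDomain_add, hm, hn]
  | single e n =>
    obtain ⟨v, x⟩ := e
    rw [foxAct_single, foxBd_apply, foxBd_apply, Finsupp.mapDomain_single,
      Finsupp.mapDomain_single, Finsupp.mapDomain_single, Finsupp.mapDomain_single]
    have h := map_sub (Finsupp.mapDomain.addMonoidHom (M := ℤ) (w * ·))
      (single (v * FreeGroup.of x) n) (single v n)
    change Finsupp.mapDomain _ _ = Finsupp.mapDomain _ _ - Finsupp.mapDomain _ _ at h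
    rw [h, Finsupp.mapDomain_single, Finsupp.mapDomain_single, mul_assoc]

theorem foxBd_fox (w : FreeGroup X) : foxBd (fox w) = single w 1 - single 1 1 := by
  have hsub : ∀ (w a b : FreeGroup X), (single a (1 : ℤ) - single b 1).mapDomain (w * ·) =
      single (w * a) 1 - single (w * b) 1 := by
    intro w a b
    have h := map_sub (Finsupp.mapDomain.addMonoidHom (M := ℤ) (w * ·)) (single a 1) (single b 1)
    change Finsupp.mapDomain _ _ = Finsupp.mapDomain _ _ - Finsupp.mapDomain _ _ at h
    rw [h, Finsupp.mapDomain_single, Finsupp.mapDomain_single]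
  have hof : ∀ x : X, foxBd (fox (FreeGroup.of x)) = single (FreeGroup.of x) 1 - single 1 1 := by
    intro x
    rw [fox_of, foxBd_apply, Finsupp.mapDomain_single, Finsupp.mapDomain_single, one_mul]
  induction w using FreeGroup.induction_on with
  | C1 => rw [fox_one, map_zero, sub_self]
  | of x => exact hof x
  | inv_of x h =>
    rw [fox_inv, map_neg, foxBd_act, hof, hsub, inv_mul_cancel, mul_one, neg_sub]
  | mul x y hx hy =>
    rw [fox_mul, map_add, foxBd_act, hx, hy, hsub, mul_one]
    abel

/-- The retraction of the boundary. -/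
noncomputable def foxRet : (FreeGroup X →₀ ℤ) →+ EdC X :=
  Finsupp.liftAddHom fun w => zmultiplesHom (EdC X) (fox w)

theorem foxRet_single (w : FreeGroup X) (n : ℤ) : foxRet (single w n) = n • fox w := by
  unfold foxRet
  rw [Finsupp.liftAddHom_apply_single]
  rfl

theorem foxRet_bd (m : EdC X) : foxRet (foxBd m) = m := by
  induction m using Finsupp.induction_linear with
  | zero => rw [map_zero, map_zero]
  | add m n hm hn => rw [map_add, map_add, hm, hn]
  | single e n =>
    obtain ⟨v, x⟩ := e
    rw [foxBd_apply, Finsupp.mapDomain_single, Finsupp.mapDomain_single, map_sub, foxRet_single,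
      foxRet_single, ← smul_sub, fox_mul, add_sub_cancel_left, fox_of, foxAct_single, mul_one,
      Finsupp.smul_single, smul_eq_mul, mul_one]

end Fox

/-- The Cayley tree of the free group, with the action of `F × G` through the first factor. -/
noncomputable def cayTree (X G : Type) [Group G] : TreeAct (FreeGroup X × G) where
  V := FreeGroup X
  Ed := FreeGroup X × X
  actV :=
    { smul := fun p v => p.1 * v
      one_smul := fun v => one_mul v
      mul_smul := fun p q v => mul_assoc p.1 q.1 v }
  actE :=
    { smul := fun p e => (p.1 * e.1, e.2)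
      one_smul := fun e => Prod.ext (one_mul e.1) rfl
      mul_smul := fun p q e => Prod.ext (mul_assoc p.1 q.1 e.1) rfl }
  o e := e.1
  t e := e.1 * FreeGroup.of e.2
  o_smul _ _ := rfl
  t_smul p e := mul_assoc p.1 e.1 (FreeGroup.of e.2)
  root := 1
  acyc c hc := by
    have h : foxBd c = 0 := by
      rw [foxBd_apply, sub_eq_zero]
      exact hc
    rw [← foxRet_bd c, h, map_zero]
  conn v := ⟨fox v, foxBd_fox v⟩

/-- The cohomological dimension of `F × G`. -/
theorem cdLE_prod_free {G : Type} [Group G] {n : ℕ} (h : Wald.CdLE n G) (X : Type) :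
    Wald.CdLE (n + 1) (FreeGroup X × G) := by
  have hs : ∀ (H : Subgroup (FreeGroup X × G)), (∀ p ∈ H, p.1 = 1) → Wald.CdLE n H := by
    intro H hH
    refine cdLE_sub ((MonoidHom.snd (FreeGroup X) G).comp H.subtype) ?_ h
    rintro ⟨p, hp⟩ ⟨q, hq⟩ hpq
    refine Subtype.ext (Prod.ext ?_ hpq)
    rw [hH p hp, hH q hq]
  refine cdLE_tree (cayTree X G) n (fun v => Wald.cdLE_succ (hs _ fun p hp => ?_))
    (fun e => hs _ fun p hp => ?_)
  · let v' : FreeGroup X := v
    have h1 : p.1 * v' = v' := hp
    exact mul_eq_right.1 h1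
  · let e' : FreeGroup X × X := e
    have h1 : (p.1 * e'.1, e'.2) = e' := hp
    exact mul_eq_right.1 (Prod.ext_iff.1 h1).1

/-- The trivial group. -/
theorem cdLE_trivial {G : Type} [Group G] [Subsingleton G] : Wald.CdLE 0 G := by
  have h : Module.Projective (MonoidAlgebra ℤ G) (Tv G) := by
    have hg : ∀ g : G, g = 1 := fun g => Subsingleton.elim g 1
    have haug : ∀ r : MonoidAlgebra ℤ G, r = MonoidAlgebra.single 1 (r.coeff 1) := by
      intro r
      induction r using MonoidAlgebra.induction_linear with
      | zero => rw [MonoidAlgebra.coeff_zero, Finsupp.zero_apply, MonoidAlgebra.single_zero]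
      | add x y hx hy =>
        rw [MonoidAlgebra.coeff_add, Finsupp.add_apply, MonoidAlgebra.single_add, ← hx, ← hy]
      | single g a =>
        rw [hg g, MonoidAlgebra.coeff_single, Finsupp.single_eq_same]
    obtain ⟨F, hF⟩ := DiagMap.exists_lin (k := ℤ) (Representation.trivial ℤ G ℤ)
      (N := MonoidAlgebra ℤ G)
      { toFun := fun a => MonoidAlgebra.single 1 a
        map_add' := fun a b => MonoidAlgebra.single_add _ _ _
        map_smul' := fun a b => by
          rw [RingHom.id_apply, MonoidAlgebra.smul_single] } (by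
        intro g v
        rw [hg g]
        change MonoidAlgebra.single 1 v = MonoidAlgebra.single 1 1 * MonoidAlgebra.single 1 v
        rw [MonoidAlgebra.single_mul_single, one_mul, one_mul])
    refine Module.Projective.of_equiv (LinearEquiv.ofBijective F ⟨?_, ?_⟩).symm
    · intro a b hab
      obtain ⟨a, rfl⟩ := (Representation.trivial ℤ G ℤ).asModuleEquiv.symm.surjective a
      obtain ⟨b, rfl⟩ := (Representation.trivial ℤ G ℤ).asModuleEquiv.symm.surjective b
      rw [hF, hF] at hab
      have h1 := congrArg (fun r : MonoidAlgebra ℤ G => r.coeff 1) hab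
      change (MonoidAlgebra.single (1 : G) a).coeff 1 = (MonoidAlgebra.single (1 : G) b).coeff 1 at h1
      rw [MonoidAlgebra.coeff_single, MonoidAlgebra.coeff_single, Finsupp.single_eq_same,
        Finsupp.single_eq_same] at h1
      rw [h1]
    · intro r
      refine ⟨(Representation.trivial ℤ G ℤ).asModuleEquiv.symm (r.coeff 1), ?_⟩
      rw [hF]
      exact (haug r).symm
  exact pdLT_one.2 h

/-- Free groups have cohomological dimension at most one. -/
theorem cdLE_free (X : Type) : Wald.CdLE 1 (FreeGroup X) := by
  have h := cdLE_prod_free (cdLE_trivial (G := FreeGroup Empty)) X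
  refine cdLE_sub (MonoidHom.inl (FreeGroup X) (FreeGroup Empty)) ?_ h
  intro a b hab
  exact (Prod.ext_iff.1 hab).1

/-- Products of two free groups have cohomological dimension at most two. -/
theorem cdLE2_free_free (X Y : Type) : CdLE2 (FreeGroup X × FreeGroup Y) :=
  Wald.cdLE_two.1 (cdLE_prod_free (cdLE_free Y) X)

end Pool.Agent.WaldL
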