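import Mathlib
import Pool.Agent.Lib.MP_8f66f0_al_WaldL.GrDefs
import Pool.Agent.Lib.MP_8f66f0_al_WaldL.Supp

/-! Amalgams: stabilization and base change. -/

set_option autoImplicit false

namespace Pool.Agent.WaldL

open Pool.Agent.Wald

variable {LL : Type} [CommRing LL]

open Matrix

section Am
variable {G : Type} [Group G] {T : AmTree G}
variable {I nA nB : Type} [Fintype I] [DecidableEq I] [Fintype nA] [DecidableEq nA] [Fintype nB]
  [DecidableEq nB]

omit [Group G] in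
private theorem AmOps_rows {S : Set G} {m n l : Type} {M : Matrix m l (MonoidAlgebra LL G)}
    {N : Matrix n l (MonoidAlgebra LL G)} (hM : MSupp S M) (hN : MSupp S N) :
    MSupp S (fromRows M N) := by
  rintro (i | i) j
  · exact hM i j
  · exact hN i j

omit [Group G] in
private theorem AmOps_blocks {S : Set G} {m n l o : Type} (A : Matrix m n (MonoidAlgebra LL G))
    (B : Matrix m o (MonoidAlgebra LL G)) (C : Matrix l n (MonoidAlgebra LL G))
    (D : Matrix l o (MonoidAlgebra LL G)) :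
    mrs S (fromBlocks A B C D) = fromBlocks (mrs S A) (mrs S B) (mrs S C) (mrs S D) :=
  Matrix.fromBlocks_map A B C D (rs S)

theorem AmData.exists_stab (D : AmData LL T I nA nB) (k l : ℕ) :
    ∃ D' : AmData LL T (I ⊕ (Fin k ⊕ Fin l)) (nA ⊕ Fin k) (nB ⊕ Fin l),
      D'.a = fromBlocks D.a 0 0 (fromRows 1 0) ∧ D'.b = fromBlocks D.b 0 0 (fromRows 0 1) ∧
      D'.pA = fromBlocks D.pA 0 0 (fromBlocks 1 0 0 0) := by
  have e1 : (fromRows 1 0 : Matrix (Fin k ⊕ Fin l) (Fin k) (MonoidAlgebra LL G)) *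
      (fromCols 1 0 : Matrix (Fin k) (Fin k ⊕ Fin l) (MonoidAlgebra LL G)) =
      fromBlocks 1 0 0 0 := by
    rw [fromRows_mul_fromCols, Matrix.one_mul, Matrix.one_mul, Matrix.zero_mul, Matrix.zero_mul]
  have e2 : (fromRows 0 1 : Matrix (Fin k ⊕ Fin l) (Fin l) (MonoidAlgebra LL G)) *
      (fromCols 0 1 : Matrix (Fin l) (Fin k ⊕ Fin l) (MonoidAlgebra LL G)) =
      fromBlocks 0 0 0 1 := by
    rw [fromRows_mul_fromCols, Matrix.one_mul, Matrix.one_mul, Matrix.zero_mul, Matrix.zero_mul]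
  refine ⟨⟨fromBlocks D.a 0 0 (fromRows 1 0), fromBlocks D.b 0 0 (fromRows 0 1),
    fromBlocks D.a' 0 0 (fromCols 1 0), fromBlocks D.b' 0 0 (fromCols 0 1), ?_, ?_, ?_, ?_, ?_,
    ?_, ?_⟩, rfl, rfl, ?_⟩
  · exact MSupp.fromBlocks D.ha MSupp.zero MSupp.zero
      (AmOps_rows (MSupp.one T.A.one_mem) MSupp.zero)
  · exact MSupp.fromBlocks D.hb MSupp.zero MSupp.zero
      (AmOps_rows MSupp.zero (MSupp.one T.B.one_mem))
  · rw [fromBlocks_multiply, fromBlocks_multiply, e1, e2, fromBlocks_add]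
    simp only [Matrix.mul_zero, Matrix.zero_mul, add_zero, zero_add, D.sum, fromBlocks_add,
      fromBlocks_one]
  · rw [fromBlocks_multiply, fromCols_mul_fromRows]
    simp only [Matrix.mul_zero, Matrix.zero_mul, add_zero, zero_add, D.aa, Matrix.one_mul,
      fromBlocks_one]
  · rw [fromBlocks_multiply, fromCols_mul_fromRows]
    simp only [Matrix.mul_zero, Matrix.zero_mul, add_zero, D.ab, fromBlocks_zero]
  · rw [fromBlocks_multiply, fromCols_mul_fromRows]
    simp only [Matrix.mul_zero, Matrix.zero_mul, add_zero, D.ba, fromBlocks_zero]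
  · rw [fromBlocks_multiply, fromCols_mul_fromRows]
    simp only [Matrix.mul_zero, Matrix.zero_mul, add_zero, zero_add, D.bb, Matrix.one_mul,
      fromBlocks_one]
  · unfold AmData.pA
    dsimp only
    rw [fromBlocks_multiply, e1]
    simp only [Matrix.mul_zero, Matrix.zero_mul, add_zero, zero_add, AmOps_blocks, mrs_zero]
    rw [mrs_one_of_mem (T.A ⊓ T.B).one_mem]

theorem AmData.exists_base (D : AmData LL T I nA nB) {I' : Type} [Fintype I'] [DecidableEq I']
    (U : Matrix I' I (MonoidAlgebra LL G)) (V : Matrix I I' (MonoidAlgebra LL G))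
    (hU : MSupp ((T.A ⊓ T.B : Subgroup G) : Set G) U)
    (hV : MSupp ((T.A ⊓ T.B : Subgroup G) : Set G) V) (hUV : U * V = 1) (hVU : V * U = 1) :
    ∃ D' : AmData LL T I' nA nB, D'.a = U * D.a ∧ D'.b = U * D.b ∧ D'.pA = U * D.pA * V := by
  have e1 : ∀ {n n' : Type} (A : Matrix n I (MonoidAlgebra LL G))
      (B : Matrix I n' (MonoidAlgebra LL G)), A * V * (U * B) = A * B := by
    intro n n' A B
    rw [← Matrix.mul_assoc, Matrix.mul_assoc A V U, hVU, Matrix.mul_one]
  refine ⟨⟨U * D.a, U * D.b, D.a' * V, D.b' * V, ?_, ?_, ?_, ?_, ?_, ?_, ?_⟩, rfl, rfl, ?_⟩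
  · exact (hU.mono (T := (T.A : Set G)) fun g hg => hg.1).mul D.ha
      fun s hs t ht => T.A.mul_mem hs ht
  · exact (hU.mono (T := (T.B : Set G)) fun g hg => hg.2).mul D.hb
      fun s hs t ht => T.B.mul_mem hs ht
  · have h1 : U * D.a * (D.a' * V) + U * D.b * (D.b' * V) =
        U * (D.a * D.a' + D.b * D.b') * V := by
      simp only [Matrix.mul_add, Matrix.add_mul, Matrix.mul_assoc]
    rw [h1, D.sum, Matrix.mul_one, hUV]
  · rw [e1, D.aa]
  · rw [e1, D.ab]
  · rw [e1, D.ba]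
  · rw [e1, D.bb]
  · unfold AmData.pA
    dsimp only
    rw [show U * D.a * (D.a' * V) = U * (D.a * D.a') * V by simp only [Matrix.mul_assoc]]
    have hr : ∀ g ∉ ((T.A ⊓ T.B : Subgroup G) : Set G), ∀ a ∈ ((T.A ⊓ T.B : Subgroup G) : Set G),
        g * a ∉ ((T.A ⊓ T.B : Subgroup G) : Set G) := by
      intro g hg a ha h
      exact hg (by simpa using (T.A ⊓ T.B).mul_mem h ((T.A ⊓ T.B).inv_mem ha))
    have hl : ∀ a ∈ ((T.A ⊓ T.B : Subgroup G) : Set G), ∀ g ∉ ((T.A ⊓ T.B : Subgroup G) : Set G),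
        a * g ∉ ((T.A ⊓ T.B : Subgroup G) : Set G) := by
      intro a ha g hg h
      exact hg (by simpa using (T.A ⊓ T.B).mul_mem ((T.A ⊓ T.B).inv_mem ha) h)
    rw [mrs_mul_right hV (fun g hg a ha => (T.A ⊓ T.B).mul_mem hg ha) hr,
      mrs_mul_left hU (fun a ha g hg => (T.A ⊓ T.B).mul_mem ha hg) hl]

end Am

end Pool.Agent.WaldL
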