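import Mathlib
import Pool.Agent.Lib.MP_8f66f0_al_WaldL.GrDefs
import Pool.Agent.Lib.MP_8f66f0_al_Wald.K1Lem
import Pool.Agent.Lib.MP_8f66f0_al_Wald.Higman
import Pool.Agent.Lib.MP_8f66f0_al_WaldL.Supp

/-! Amalgamated products: reduction of an invertible matrix to one of the form `[a | b]`. -/

set_option autoImplicit false

namespace Pool.Agent.WaldL

open Pool.Agent.Wald

variable {LL : Type} [CommRing LL]

open Matrix

section AmRed

variable {G : Type} [Group G]

private theorem AmRed_neg {K : Type} [CommGroup K] (κ : K1Fun (MonoidAlgebra LL G) K)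
    (hκ : KillsUnits κ) : ∀ N : ℕ, κ.f (-1 : Matrix (Fin N) (Fin N) (MonoidAlgebra LL G)) = 1 := by
  intro N
  have hu : ∀ (n : Type) [Fintype n] [DecidableEq n],
      IsUnit (-1 : Matrix n n (MonoidAlgebra LL G)) := fun n _ _ => isUnit_one.neg
  induction N with
  | zero =>
    have : (-1 : Matrix (Fin 0) (Fin 0) (MonoidAlgebra LL G)) = 1 := by
      ext i
      exact i.elim0
    rw [this, κ.f_one]
  | succ N ih =>
    have h1 := κ.reindex (finSumFinEquiv (m := N) (n := 1)).symm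
      (-1 : Matrix (Fin (N + 1)) (Fin (N + 1)) (MonoidAlgebra LL G)) (hu _)
    rw [← h1]
    have h2 : (-1 : Matrix (Fin (N + 1)) (Fin (N + 1)) (MonoidAlgebra LL G)).submatrix
        (finSumFinEquiv (m := N) (n := 1)).symm.symm (finSumFinEquiv (m := N) (n := 1)).symm.symm =
        fromBlocks (-1 : Matrix (Fin N) (Fin N) (MonoidAlgebra LL G)) 0 0
          (-1 : Matrix (Fin 1) (Fin 1) (MonoidAlgebra LL G)) := by
      rw [Matrix.submatrix_neg, Pi.neg_apply, Pi.neg_apply, Matrix.submatrix_one_equiv,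
        ← fromBlocks_one, fromBlocks_neg, neg_zero, neg_zero]
    rw [h2, κ.tri _ _ _ (hu _) (hu _), ih, one_mul]
    have h3 : (-1 : Matrix (Fin 1) (Fin 1) (MonoidAlgebra LL G)) =
          Matrix.of fun _ _ : Fin 1 => (MonoidAlgebra.single (1 : G) (((-1 : LLˣ) : LL))) := by
      ext1 i j
      rw [Subsingleton.elim i j, Matrix.neg_apply, Matrix.one_apply_eq, Matrix.of_apply,
        MonoidAlgebra.one_def, ← MonoidAlgebra.single_neg]
      rfl
    rw [h3]
    exact hκ.unit 1 (-1)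

variable (LL) in
/-- the support condition -/
private def AmRed_L (T : AmTree G) : AddSubgroup (MonoidAlgebra LL G) where
  carrier := {x | SuppIn ((T.A : Set G) ∪ T.B) x}
  zero_mem' := SuppIn.zero
  add_mem' := fun hx hy => SuppIn.add hx hy
  neg_mem' := fun hx => SuppIn.neg hx

private theorem AmRed_gen (T : AmTree G) :
    Subring.closure (AmRed_L LL T : Set (MonoidAlgebra LL G)) = ⊤ := by
  have h0 : ∀ g : G, g ∈ (T.A : Set G) ∪ T.B → MonoidAlgebra.single g (1 : LL) ∈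
      Subring.closure (AmRed_L LL T : Set (MonoidAlgebra LL G)) := by
    intro g hg
    apply Subring.subset_closure
    exact SuppIn.single hg 1
  have h1 : ∀ g : G, MonoidAlgebra.single g (1 : LL) ∈
      Subring.closure (AmRed_L LL T : Set (MonoidAlgebra LL G)) ∧ MonoidAlgebra.single g⁻¹ (1 : LL) ∈
      Subring.closure (AmRed_L LL T : Set (MonoidAlgebra LL G)) := by
    intro g
    have hg : g ∈ Subgroup.closure ((T.A : Set G) ∪ T.B) := by
      rw [T.gen]
      trivial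
    refine Subgroup.closure_induction (p := fun g _ => MonoidAlgebra.single g (1 : LL) ∈
      Subring.closure (AmRed_L LL T : Set (MonoidAlgebra LL G)) ∧ MonoidAlgebra.single g⁻¹ (1 : LL) ∈
      Subring.closure (AmRed_L LL T : Set (MonoidAlgebra LL G))) ?_ ?_ ?_ ?_ hg
    · rintro x (hx | hx)
      · exact ⟨h0 _ (Or.inl hx), h0 _ (Or.inl (T.A.inv_mem hx))⟩
      · exact ⟨h0 _ (Or.inr hx), h0 _ (Or.inr (T.B.inv_mem hx))⟩
    · rw [inv_one, ← MonoidAlgebra.one_def]
      exact ⟨one_mem _, one_mem _⟩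
    · intro x y _ _ hx hy
      constructor
      · have := mul_mem hx.1 hy.1
        rwa [MonoidAlgebra.single_mul_single, mul_one] at this
      · have := mul_mem hy.2 hx.2
        rwa [MonoidAlgebra.single_mul_single, mul_one, ← _root_.mul_inv_rev] at this
    · intro x _ hx
      rw [inv_inv]
      exact ⟨hx.2, hx.1⟩
  rw [eq_top_iff]
  intro x _
  refine (suppIn_univ x).induction (p := fun x => x ∈
    Subring.closure (AmRed_L LL T : Set (MonoidAlgebra LL G))) (zero_mem _)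
    (fun x y hx hy => add_mem hx hy) ?_
  intro g _ a
  have h2 : (MonoidAlgebra.single g a : MonoidAlgebra LL G) =
      MonoidAlgebra.single 1 a * MonoidAlgebra.single g (1 : LL) := by
    rw [MonoidAlgebra.single_mul_single, one_mul, mul_one]
  rw [h2]
  exact mul_mem (Subring.subset_closure (SuppIn.single (S := (T.A : Set G) ∪ T.B)
    (Or.inl T.A.one_mem) a)) (h1 g).1

/-- decomposition of a matrix with entries in `L` -/
private theorem AmRed_dec (T : AmTree G) {m n : Type} (M : Matrix m n (MonoidAlgebra LL G))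
    (hM : ∀ i j, M i j ∈ AmRed_L LL T) : ∃ MA MB : Matrix m n (MonoidAlgebra LL G),
      MSupp (T.A : Set G) MA ∧ MSupp (T.B : Set G) MB ∧ M = MA + MB := by
  refine ⟨mrs (T.A : Set G) M, mrs (T.A : Set G)ᶜ M, mrs_supp _ _, ?_, (mrs_add_compl _ _).symm⟩
  intro i j g hg
  rw [mrs_apply]
  by_cases hA : g ∈ (T.A : Set G)
  · exact coeff_rs_notMem (S := (T.A : Set G)ᶜ) _ fun h => h hA
  · rw [coeff_rs_mem (S := (T.A : Set G)ᶜ) _ hA]
    exact hM i j g fun h => h.elim hA hg

theorem am_red {K : Type} [CommGroup K] (κ : K1Fun (MonoidAlgebra LL G) K) (hκ : KillsUnits κ)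
    (T : AmTree G) (n : Type) [Fintype n] [DecidableEq n]
    (M : Matrix n n (MonoidAlgebra LL G)) (hM : IsUnit M) :
    ∃ (N : ℕ) (D : AmData LL T (Fin N ⊕ Fin N) (Fin N) (Fin N)), κ.f (fromCols D.a D.b) = κ.f M := by
  have hM1 := K1Fun.isUnit_submatrix (Fintype.equivFin n) hM
  obtain ⟨N, M', hM', hL, hf⟩ := higman (AmRed_L LL T) (SuppIn.one (Or.inl T.A.one_mem))
    (AmRed_gen T) _ hM1
  obtain ⟨MA, MB, hMA, hMB, hdec⟩ := AmRed_dec T M' hL
  have hf' : κ.f M' = κ.f M := (hf K κ).trans (κ.reindex (Fintype.equivFin n) M hM)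
  have hlow : IsUnit (fromBlocks (1 : Matrix (Fin N) (Fin N) (MonoidAlgebra LL G)) 0 1
      (1 : Matrix (Fin N) (Fin N) (MonoidAlgebra LL G))) :=
    K1Fun.isUnit_lower _ isUnit_one isUnit_one
  have hneg : IsUnit (-1 : Matrix (Fin N) (Fin N) (MonoidAlgebra LL G)) := isUnit_one.neg
  have hup : IsUnit (fromBlocks M' MB 0 (-1 : Matrix (Fin N) (Fin N) (MonoidAlgebra LL G))) :=
    K1Fun.isUnit_tri _ hM' hneg
  set Φ : Matrix (Fin N ⊕ Fin N) (Fin N ⊕ Fin N) (MonoidAlgebra LL G) :=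
    fromBlocks MA MB 1 (-1) with hΦ
  have e1 : Φ * fromBlocks (1 : Matrix (Fin N) (Fin N) (MonoidAlgebra LL G)) 0 1
      (1 : Matrix (Fin N) (Fin N) (MonoidAlgebra LL G)) = fromBlocks M' MB 0 (-1) := by
    rw [hΦ, fromBlocks_multiply]
    simp only [Matrix.mul_one, Matrix.mul_zero, zero_add, add_neg_cancel]
    rw [hdec]
  have hΦu : IsUnit Φ := by
    obtain ⟨u, hu⟩ := hlow
    have : Φ = fromBlocks M' MB 0 (-1) *
        ((u⁻¹ : (Matrix (Fin N ⊕ Fin N) (Fin N ⊕ Fin N) (MonoidAlgebra LL G))ˣ) :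
          Matrix (Fin N ⊕ Fin N) (Fin N ⊕ Fin N) (MonoidAlgebra LL G)) := by
      rw [← e1, ← hu, Matrix.mul_assoc, Units.mul_inv, Matrix.mul_one]
    rw [this]
    exact hup.mul (Units.isUnit _)
  have hΦf : κ.f Φ = κ.f M := by
    have h1 := κ.mul Φ _ hΦu hlow
    rw [e1, κ.tri _ _ _ hM' hneg, κ.lower _ _ _ isUnit_one isUnit_one, κ.f_one, AmRed_neg κ hκ,
      mul_one, mul_one, mul_one] at h1
    rw [← h1, hf']
  obtain ⟨w, hw⟩ := hΦu
  set W : Matrix (Fin N ⊕ Fin N) (Fin N ⊕ Fin N) (MonoidAlgebra LL G) :=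
    ((w⁻¹ : (Matrix (Fin N ⊕ Fin N) (Fin N ⊕ Fin N) (MonoidAlgebra LL G))ˣ) :
      Matrix (Fin N ⊕ Fin N) (Fin N ⊕ Fin N) (MonoidAlgebra LL G)) with hW
  have hc : fromCols (fromRows MA 1) (fromRows MB (-1)) = Φ := by
    rw [fromCols_fromRows_eq_fromBlocks]
  have h1 : Φ * fromRows W.toRows₁ W.toRows₂ = 1 := by
    rw [fromRows_toRows, ← hw, hW, Units.mul_inv]
  have h2 : fromRows W.toRows₁ W.toRows₂ * Φ = 1 := by
    rw [fromRows_toRows, ← hw, hW, Units.inv_mul]
  rw [← hc, fromCols_mul_fromRows] at h1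
  rw [← hc, fromRows_mul_fromCols, ← fromBlocks_one, fromBlocks_inj] at h2
  refine ⟨N, ⟨fromRows MA 1, fromRows MB (-1), W.toRows₁, W.toRows₂, ?_, ?_, h1, h2.1, h2.2.1,
    h2.2.2.1, h2.2.2.2⟩, ?_⟩
  · rintro (i | i) j
    · exact hMA i j
    · exact MSupp.one T.A.one_mem i j
  · rintro (i | i) j
    · exact hMB i j
    · exact (MSupp.one T.B.one_mem).neg i j
  · change κ.f (fromCols (fromRows MA 1) (fromRows MB (-1))) = κ.f M
    rw [hc, hΦf]

end AmRed

end Pool.Agent.WaldL
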