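import Pool.Agent.Lib.MP_8f66f0_al_WaldL.AmNormal
import Pool.Agent.Lib.MP_8f66f0_al_WaldL.AmOps
import Pool.Agent.Lib.MP_8f66f0_al_WaldL.AmRed
import Pool.Agent.Lib.MP_8f66f0_al_WaldL.PathVanN
import Pool.Agent.Lib.MP_8f66f0_al_WaldL.AmCore
import Pool.Agent.Lib.MP_8f66f0_al_Wald.AmPath
import Pool.Agent.Lib.MP_8f66f0_al_Wald.K1Lem
import Pool.Agent.Lib.MP_8f66f0_al_Wald.StabIdem
import Pool.Agent.Lib.MP_8f66f0_al_WaldL.IbnLift
import Pool.Agent.Lib.MP_8f66f0_al_WaldL.Supp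

/-! # MP_8f66f0_al, Theorem W: the case of an amalgam over a group with the property `NilV` -/

set_option autoImplicit false

namespace Pool.Agent.WaldL

open Pool.Agent.Wald

variable {LL : Type} [CommRing LL]

open Matrix

private theorem amFinalN_unit {Λ : Type} [Ring Λ] {n : Type} [Fintype n] [DecidableEq n]
    {A B : Matrix n n Λ} (h : A * B = 1) (h' : B * A = 1) : IsUnit A := ⟨⟨A, B, h, h'⟩, rfl⟩

private theorem amFinalN_inv {Λ : Type} [Ring Λ] {m n l : Type} [Fintype m] [DecidableEq m]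
    [Fintype n] [DecidableEq n] [Fintype l] [DecidableEq l] {A : Matrix m n Λ}
    {B : Matrix n m Λ} (h : A * B = 1) (h' : B * A = 1) (e : l ≃ m) (f : l ≃ n) :
    A.submatrix e f * B.submatrix f e = 1 ∧ B.submatrix f e * A.submatrix e f = 1 := by
  constructor
  · rw [submatrix_mul_equiv, h, submatrix_one_equiv]
  · rw [submatrix_mul_equiv, h', submatrix_one_equiv]

/-- The comparison of the matrices before and after the base change. -/
private theorem amFinalN_prod {Λ : Type} [Ring Λ] {I I' nA nB p q J : Type} [Fintype I]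
    [DecidableEq I] [Fintype nA] [DecidableEq nA] [Fintype nB] [DecidableEq nB] [Fintype p]
    [DecidableEq p] [Fintype q] [DecidableEq q] [Fintype J] [DecidableEq J]
    (U : Matrix I' I Λ) (a : Matrix I nA Λ) (b : Matrix I nB Λ) (X : Matrix nA p Λ)
    (Z : Matrix nB q Λ) (e : p ⊕ q → I') (σ : J ≃ I) :
    (fromCols (U * a * X) (U * b * Z)).submatrix e id =
      U.submatrix e σ * (fromCols a b).submatrix σ id * fromBlocks X 0 0 Z := by
  rw [submatrix_mul_equiv]
  have h1 : (fromCols (U * a * X) (U * b * Z)) = U * fromCols a b * fromBlocks X 0 0 Z := by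
    rw [mul_fromCols, fromCols_mul_fromBlocks, Matrix.mul_zero, Matrix.mul_zero, add_zero,
      zero_add]
  rw [h1]
  rfl

theorem am_final_n [Nontrivial LL] {G : Type} [Group G] (T : AmTree G) {E : Type} [Group E] (φ : E →* G)
    (hφ : Function.Injective φ) (hE : φ.range = T.A ⊓ T.B) (hN : NilV LL E)
    (hS : ProjSF (MonoidAlgebra LL E)) {K : Type} [CommGroup K]
    (κ : K1Fun (MonoidAlgebra LL G) K) (hκ : KillsUnits κ) (hA : Kills κ (T.A : Set G))
    (hB : Kills κ (T.B : Set G)) (n : Type) [Fintype n] [DecidableEq n]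
    (M : Matrix n n (MonoidAlgebra LL G)) (hM : IsUnit M) : κ.f M = 1 := by
  classical
  obtain ⟨N, D, hD⟩ := am_red κ hκ T n M hM
  rw [← hD]
  -- the idempotent over `LL E`
  have hEA : ((T.A ⊓ T.B : Subgroup G) : Set G) ⊆ (T.A : Set G) := fun g hg => hg.1
  have hpAS : MSupp (φ.range : Set G) D.pA := by
    rw [hE]
    exact mrs_supp _ _
  obtain ⟨p0, hp0⟩ := (msupp_range φ hφ D.pA).1 hpAS
  have hinj : Function.Injective (inc (LL := LL) φ) := inc_injective φ hφ
  have hidem : D.pA * D.pA = D.pA := by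
    have h1 : D.pA * (D.pA + D.pB) = D.pA := by rw [D.pA_add_pB, Matrix.mul_one]
    rw [Matrix.mul_add, D.pA_mul_pB, add_zero] at h1
    exact h1
  have hp0i : p0 * p0 = p0 := by
    apply Matrix.map_injective hinj
    show (p0 * p0).map (inc φ) = p0.map (inc φ)
    rw [Matrix.map_mul, hp0, hidem]
  obtain ⟨k, l, a, b, U0, V0, hUV0, hVU0, hU0⟩ := stab_idem hS p0 hp0i
  obtain ⟨D1, hD1a, hD1b, hD1p⟩ := D.exists_stab k l
  have hmap1 : ∀ (m : Type) [Fintype m] [DecidableEq m],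
      (1 : Matrix m m (MonoidAlgebra LL E)).map (inc φ) = 1 := fun m _ _ =>
    Matrix.map_one _ (map_zero _) (map_one _)
  have hUV : U0.map (inc φ) * V0.map (inc φ) = 1 := by
    rw [← Matrix.map_mul, hUV0, hmap1]
  have hVU : V0.map (inc φ) * U0.map (inc φ) = 1 := by
    rw [← Matrix.map_mul, hVU0, hmap1]
  have hUs : MSupp ((T.A ⊓ T.B : Subgroup G) : Set G) (U0.map (inc φ)) := by
    rw [← hE]
    exact msupp_map_inc φ _
  have hVs : MSupp ((T.A ⊓ T.B : Subgroup G) : Set G) (V0.map (inc φ)) := by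
    rw [← hE]
    exact msupp_map_inc φ _
  obtain ⟨D2, hD2a, hD2b, hD2p⟩ :=
    D1.exists_base (U0.map (inc φ)) (V0.map (inc φ)) hUs hVs hUV hVU
  have hp2 : D2.pA = fromBlocks 1 0 0 0 := by
    have hU0' : U0 * (fromBlocks p0 0 0 (fromBlocks 1 0 0 0) :
        Matrix ((Fin N ⊕ Fin N) ⊕ (Fin k ⊕ Fin l)) ((Fin N ⊕ Fin N) ⊕ (Fin k ⊕ Fin l))
          (MonoidAlgebra LL E)) =
        (fromBlocks 1 0 0 0 : Matrix (Fin a ⊕ Fin b) (Fin a ⊕ Fin b) (MonoidAlgebra LL E)) * U0 :=
      hU0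
    have h1 := congrArg (fun X : Matrix (Fin a ⊕ Fin b) ((Fin N ⊕ Fin N) ⊕ (Fin k ⊕ Fin l))
      (MonoidAlgebra LL E) => X.map (inc φ)) hU0'
    have h0 : ∀ (m m' : Type), (0 : Matrix m m' (MonoidAlgebra LL E)).map (inc φ) = 0 :=
      fun m m' => Matrix.map_zero _ (map_zero _)
    rw [Matrix.map_mul, Matrix.map_mul, fromBlocks_map, fromBlocks_map, fromBlocks_map, hp0,
      hmap1, hmap1, h0, h0, h0, h0, h0, h0, h0, h0] at h1
    rw [hD2p, hD1p, h1, Matrix.mul_assoc, hUV, Matrix.mul_one]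
  obtain ⟨X, Z, c, hXs, hZs, hX1, hX2, hZ1, hZ2, hXX, hYY, hc1, hc2⟩ := D2.normal hp2
  set W := fromCols (D2.a * X) (D2.b * Z) with hW
  -- vanishing
  have hWu : IsUnit W := amFinalN_unit hc2 hc1
  have hW1 : κ.f W = 1 := by
    obtain ⟨P, hPX, hPY⟩ := T.exists_path
    have key : ∀ (S : Subgroup G) (hS : φ.range = S) (P : PathData G S Bool), P.X = T.X →
        P.Y = T.Y → κ.f W = 1 := by
      intro S hS P hPX hPY
      subst hS
      have h := path_vanish_n φ hφ hN P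
        (fun i : Fin (a + b) => Sum.isLeft (finSumFinEquiv.symm i))
        ((1 - W).submatrix finSumFinEquiv.symm finSumFinEquiv.symm)
        (c.submatrix finSumFinEquiv.symm finSumFinEquiv.symm)
        (fun i j => by rw [hPX]; exact hXX _ _) (fun i j => by rw [hPY]; exact hYY _ _)
      have h1 : (1 : Matrix (Fin (a + b)) (Fin (a + b)) (MonoidAlgebra LL G)) -
          (1 - W).submatrix finSumFinEquiv.symm finSumFinEquiv.symm =
          W.submatrix finSumFinEquiv.symm finSumFinEquiv.symm := by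
        have h2 : (1 : Matrix (Fin (a + b)) (Fin (a + b)) (MonoidAlgebra LL G)) =
            (1 : Matrix (Fin a ⊕ Fin b) (Fin a ⊕ Fin b) (MonoidAlgebra LL G)).submatrix
            finSumFinEquiv.symm finSumFinEquiv.symm := by
          rw [submatrix_one_equiv]
        rw [h2]
        ext i j
        rw [Matrix.sub_apply, submatrix_apply, submatrix_apply, submatrix_apply,
          Matrix.sub_apply, sub_sub_cancel]
      rw [h1] at h
      rw [← κ.reindex finSumFinEquiv W hWu]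
      refine h ?_ ?_ κ
      · rw [submatrix_mul_equiv, hc1, submatrix_one_equiv]
      · rw [submatrix_mul_equiv, hc2, submatrix_one_equiv]
    exact key (T.A ⊓ T.B) hE P hPX hPY
  -- the bijections
  let eA : Fin a ≃ Fin N ⊕ Fin k := Fintype.equivOfCardEq (card_eq_of_inv _ _ hX1 hX2)
  let eB : Fin b ≃ Fin N ⊕ Fin l := Fintype.equivOfCardEq (card_eq_of_inv _ _ hZ1 hZ2)
  let e : Fin a ⊕ Fin b ≃ (Fin N ⊕ Fin k) ⊕ (Fin N ⊕ Fin l) := Equiv.sumCongr eA eB
  let σ : (Fin N ⊕ Fin N) ⊕ (Fin k ⊕ Fin l) ≃ (Fin N ⊕ Fin k) ⊕ (Fin N ⊕ Fin l) :=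
    Equiv.sumSumSumComm (Fin N) (Fin N) (Fin k) (Fin l)
  set U := U0.map (inc φ) with hUdef
  set V := V0.map (inc φ) with hVdef
  -- the matrix of `D1`
  have hP1 : fromCols D1.a D1.b * fromRows D1.a' D1.b' = 1 := by
    rw [fromCols_mul_fromRows]
    exact D1.sum
  have hP2 : fromRows D1.a' D1.b' * fromCols D1.a D1.b = 1 := by
    rw [fromRows_mul_fromCols, D1.aa, D1.ab, D1.ba, D1.bb, fromBlocks_one]
  have hPu : IsUnit ((fromCols D1.a D1.b).submatrix σ.symm id) := by
    obtain ⟨h1, h2⟩ := amFinalN_inv hP1 hP2 σ.symm (Equiv.refl _)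
    exact amFinalN_unit h1 h2
  have hUi := amFinalN_inv hUV hVU e.symm σ.symm
  have hUu : IsUnit (U.submatrix e.symm σ.symm) := amFinalN_unit hUi.1 hUi.2
  have hUf : κ.f (U.submatrix e.symm σ.symm) = 1 :=
    hA _ _ _ (fun i j => (hUs _ _).mono hEA) (fun i j => (hVs _ _).mono hEA) hUi.1 hUi.2
  have hXi := amFinalN_inv hX2 hX1 (Equiv.refl _) eA.symm
  have hZi := amFinalN_inv hZ2 hZ1 (Equiv.refl _) eB.symm
  have hXf : κ.f (X.submatrix (Equiv.refl _) eA.symm) = 1 :=
    hA _ _ _ (fun i j => hXs _ _) (fun i j => D2.ha _ _) hXi.1 hXi.2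
  have hZf : κ.f (Z.submatrix (Equiv.refl _) eB.symm) = 1 :=
    hB _ _ _ (fun i j => hZs _ _) (fun i j => D2.hb _ _) hZi.1 hZi.2
  have hXu : IsUnit (X.submatrix (Equiv.refl _) eA.symm) := amFinalN_unit hXi.1 hXi.2
  have hZu : IsUnit (Z.submatrix (Equiv.refl _) eB.symm) := amFinalN_unit hZi.1 hZi.2
  have hprod : W.submatrix e.symm e.symm = U.submatrix e.symm σ.symm *
      (fromCols D1.a D1.b).submatrix σ.symm id *
      fromBlocks (X.submatrix (Equiv.refl _) eA.symm) 0 0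
        (Z.submatrix (Equiv.refl _) eB.symm) := by
    have h1 := amFinalN_prod U D1.a D1.b (X.submatrix (Equiv.refl _) eA.symm)
      (Z.submatrix (Equiv.refl _) eB.symm) e.symm σ.symm
    rw [← h1, hW, hD2a, hD2b]
    ext i j
    rcases j with j | j
    · rfl
    · rfl
  have hDu : IsUnit (fromCols D.a D.b) := by
    refine amFinalN_unit (B := fromRows D.a' D.b') ?_ ?_
    · rw [fromCols_mul_fromRows]
      exact D.sum
    · rw [fromRows_mul_fromCols, D.aa, D.ab, D.ba, D.bb, fromBlocks_one]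
  have hcmp : (fromCols D1.a D1.b).submatrix σ.symm id =
      (fromBlocks (fromCols D.a D.b) 0 0 1).submatrix σ.symm σ.symm := by
    have h1 : ∀ r c, fromCols D1.a D1.b r (σ c) = fromBlocks (fromCols D.a D.b) 0 0 1 r c := by
      rw [hD1a, hD1b]
      rintro (r | (r | r)) ((c | c) | (c | c)) <;> 
        simp [σ, Equiv.sumSumSumComm, Matrix.one_apply]
    ext i j
    rw [submatrix_apply, submatrix_apply, ← h1, Equiv.apply_symm_apply]
    rfl
  have h1 : κ.f (W.submatrix e.symm e.symm) = 1 := by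
    rw [κ.reindex e W hWu, hW1]
  rw [hprod, κ.mul _ _ (hUu.mul hPu) (K1Fun.isUnit_tri 0 hXu hZu), κ.mul _ _ hUu hPu, hUf,
    κ.diag _ _ hXu hZu, hXf, hZf, one_mul, mul_one, mul_one, hcmp,
    κ.reindex σ _ (K1Fun.isUnit_tri 0 hDu isUnit_one), κ.diag _ _ hDu isUnit_one, κ.f_one,
    mul_one] at h1
  exact h1

end Pool.Agent.WaldL
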