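import Mathlib
import Pool.Agent.Lib.MP_8f66f0_al_WaldL.GrDefs
import Pool.Agent.Lib.MP_8f66f0_al_WaldL.Supp
import Pool.Agent.Lib.MP_8f66f0_al_WaldL.AmCore

/-! Amalgams: the normal form. -/

set_option autoImplicit false

namespace Pool.Agent.WaldL

open Pool.Agent.Wald

variable {LL : Type} [CommRing LL]

open Matrix

section AmNormal

variable {G : Type} [Group G]

/-- one side -/
private theorem amN_half {E A : Subgroup G} (hEA : E ≤ A) {SB : Set G}
    (hdis : Disjoint (A : Set G) SB) {I nA l : Type} [Fintype I] [DecidableEq I]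
    [Fintype nA] [DecidableEq nA] [Fintype l] [DecidableEq l]
    (a : Matrix I nA (MonoidAlgebra LL G)) (a' : Matrix nA I (MonoidAlgebra LL G))
    (bb pA pB : Matrix I I (MonoidAlgebra LL G)) (ha : MSupp (A : Set G) a)
    (hsum : a * a' + bb = 1) (haa : a' * a = 1) (hpA : pA = mrs (E : Set G) (a * a'))
    (hp : pA + pB = 1) (hstar : mrs (A : Set G) a' * pB = 0)
    (u : Matrix l I (MonoidAlgebra LL G)) (v : Matrix I l (MonoidAlgebra LL G))
    (hu : MSupp (E : Set G) u) (hv : MSupp (E : Set G) v) (huv : u * v = 1) (hvu : v * u = pA)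
    (hrows : u * pB = 0 → MSupp SB (u * bb)) :
    (u * a) * (mrs (A : Set G) a' * v) = 1 ∧ (mrs (A : Set G) a' * v) * (u * a) = 1 ∧
      MSupp (A : Set G) (mrs (A : Set G) a' * v) ∧
      mrs (E : Set G) (a * (mrs (A : Set G) a' * v)) = v ∧
      MSupp (A : Set G) (a * (mrs (A : Set G) a' * v)) ∧ MSupp SB (u * bb) := by
  set Y := mrs (A : Set G) a' with hY
  have hYA : MSupp (A : Set G) Y := mrs_supp _ _
  have huA : MSupp (A : Set G) u := hu.mono hEA
  have hvA : MSupp (A : Set G) v := hv.mono hEA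
  have hAA : ∀ s ∈ (A : Set G), ∀ t ∈ (A : Set G), s * t ∈ (A : Set G) :=
    fun s hs t ht => A.mul_mem hs ht
  have hA1 : ∀ g ∉ (A : Set G), ∀ t ∈ (A : Set G), g * t ∉ (A : Set G) := by
    intro g hg t ht hc
    apply hg
    have := A.mul_mem hc (A.inv_mem ht)
    rwa [mul_inv_cancel_right] at this
  have hA2 : ∀ t ∈ (A : Set G), ∀ g ∉ (A : Set G), t * g ∉ (A : Set G) := by
    intro t ht g hg hc
    apply hg
    have := A.mul_mem (A.inv_mem ht) hc
    rwa [inv_mul_cancel_left] at this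
  have hE1 : ∀ g ∉ (E : Set G), ∀ t ∈ (E : Set G), g * t ∉ (E : Set G) := by
    intro g hg t ht hc
    apply hg
    have := E.mul_mem hc (E.inv_mem ht)
    rwa [mul_inv_cancel_right] at this
  have hYp : Y * v * u = Y := by
    rw [Matrix.mul_assoc, hvu]
    have : Y * (pA + pB) = Y := by rw [hp, Matrix.mul_one]
    rwa [Matrix.mul_add, hstar, add_zero] at this
  have hYa : Y * a = 1 := by
    have h1 := mrs_mul_right (S := (A : Set G)) (S' := (A : Set G)) (M := a') ha hAA hA1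
    rw [haa] at h1
    rw [← hY] at h1
    rw [← h1]
    exact mrs_one_of_mem A.one_mem
  have hup : u * pB = 0 := by
    have h1 : u * (pA + pB) = u := by rw [hp, Matrix.mul_one]
    rw [Matrix.mul_add, ← hvu, ← Matrix.mul_assoc, huv, Matrix.one_mul] at h1
    exact left_eq_add.1 h1.symm
  have hrow := hrows hup
  have huY : (u * a) * Y = u := by
    have h1 := mrs_mul_left (S := (A : Set G)) (S' := (A : Set G)) (N := a')
      (MSupp.mul huA ha hAA) hAA hA2
    rw [← hY] at h1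
    rw [← h1, Matrix.mul_assoc]
    have h2 : u * (a * a') = u - u * bb := by
      rw [eq_sub_iff_add_eq, ← Matrix.mul_add, hsum, Matrix.mul_one]
    rw [h2, mrs_sub, mrs_eq_self huA, mrs_eq_zero hrow hdis, sub_zero]
  refine ⟨?_, ?_, MSupp.mul hYA hvA hAA, ?_, ?_, hrow⟩
  · rw [← Matrix.mul_assoc, huY, huv]
  · rw [← Matrix.mul_assoc, hYp, hYa]
  · have h1 : mrs (E : Set G) (a * Y) = pA := by
      rw [hY, ← mrs_mul_left (S := (A : Set G)) (S' := (A : Set G)) (N := a') ha hAA hA2, mrs_mrs,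
        Set.inter_eq_left.2 hEA, hpA]
    rw [← Matrix.mul_assoc, mrs_mul_right (S := (E : Set G)) (S' := (E : Set G)) hv
      (fun s hs t ht => E.mul_mem hs ht) hE1, h1, ← hvu, Matrix.mul_assoc, huv, Matrix.mul_one]
  · exact MSupp.mul ha (MSupp.mul hYA hvA hAA) hAA

private theorem amN_supp {E A B : Subgroup G} (hE : ∀ g, g ∈ A → g ∈ B → g ∈ E)
    {x : MonoidAlgebra LL G} (h1 : SuppIn (A : Set G) x) (h2 : rs (E : Set G) x = 0) :
    SuppIn {g | g ∈ A ∧ g ∉ B} x := by
  intro g hg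
  by_cases hA : g ∈ A
  · by_cases hB : g ∈ B
    · rw [← coeff_rs_mem (S := (E : Set G)) x (hE g hA hB), h2]
      rfl
    · exact absurd ⟨hA, hB⟩ hg
  · exact h1 g hA

variable {T : AmTree G} {nA nB : Type} [Fintype nA] [DecidableEq nA] [Fintype nB]
  [DecidableEq nB]

theorem AmData.normal {p q : ℕ} (D : AmData LL T (Fin p ⊕ Fin q) nA nB)
    (hp : D.pA = fromBlocks 1 0 0 0) :
    ∃ (X : Matrix nA (Fin p) (MonoidAlgebra LL G)) (Z : Matrix nB (Fin q) (MonoidAlgebra LL G))
      (c : Matrix (Fin p ⊕ Fin q) (Fin p ⊕ Fin q) (MonoidAlgebra LL G)),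
      MSupp (T.A : Set G) X ∧ MSupp (T.B : Set G) Z ∧
      D.a.toRows₁ * X = 1 ∧ X * D.a.toRows₁ = 1 ∧ D.b.toRows₂ * Z = 1 ∧ Z * D.b.toRows₂ = 1 ∧
      (∀ i j, SuppIn (T.X (Sum.isLeft i) (Sum.isLeft j))
        ((1 - fromCols (D.a * X) (D.b * Z)) i j)) ∧
      (∀ i j, SuppIn (T.Y (Sum.isLeft i)) (c i j)) ∧
      c * fromCols (D.a * X) (D.b * Z) = 1 ∧ fromCols (D.a * X) (D.b * Z) * c = 1 := by
  have h1A : (1 : G) ∉ T.SA := fun h => T.disjA 1 h (one_mem _)
  have h1B : (1 : G) ∉ T.SB := fun h => T.disjB 1 h (one_mem _)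
  have hdisA : Disjoint (T.A : Set G) T.SB := by
    rw [Set.disjoint_left]
    intro g hg hg'
    by_cases hB : g ∈ T.B
    · exact T.disjB g hg' ⟨hg, hB⟩
    · have := (T.leftA g hg hB 1 h1A).1
      rw [mul_one] at this
      exact T.disj g this hg'
  have hdisB : Disjoint (T.B : Set G) T.SA := by
    rw [Set.disjoint_left]
    intro g hg hg'
    by_cases hA : g ∈ T.A
    · exact T.disjA g hg' ⟨hA, hg⟩
    · have := (T.leftB g hg hA 1 h1B).1
      rw [mul_one] at this
      exact T.disj g hg' this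
  have hsum := D.pA_add_pB
  have hpB : D.pB = fromBlocks 0 0 0 1 := by
    have h1 : D.pA + fromBlocks 0 0 0 1 = 1 := by
      rw [hp, fromBlocks_add, add_zero, add_zero, add_zero, zero_add, fromBlocks_one]
    exact add_left_cancel (hsum.trans h1.symm)
  have h1E : (1 : G) ∈ ((T.A ⊓ T.B : Subgroup G) : Set G) := one_mem _
  set uA : Matrix (Fin p) (Fin p ⊕ Fin q) (MonoidAlgebra LL G) := fromCols 1 0 with huA
  set vA : Matrix (Fin p ⊕ Fin q) (Fin p) (MonoidAlgebra LL G) := fromRows 1 0 with hvA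
  set uB : Matrix (Fin q) (Fin p ⊕ Fin q) (MonoidAlgebra LL G) := fromCols 0 1 with huB
  set vB : Matrix (Fin p ⊕ Fin q) (Fin q) (MonoidAlgebra LL G) := fromRows 0 1 with hvB
  have suA : MSupp ((T.A ⊓ T.B : Subgroup G) : Set G) uA := by
    rintro i (j | j)
    · exact MSupp.one h1E i j
    · exact SuppIn.zero
  have svA : MSupp ((T.A ⊓ T.B : Subgroup G) : Set G) vA := by
    rintro (i | i) j
    · exact MSupp.one h1E i j
    · exact SuppIn.zero
  have suB : MSupp ((T.A ⊓ T.B : Subgroup G) : Set G) uB := by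
    rintro i (j | j)
    · exact SuppIn.zero
    · exact MSupp.one h1E i j
  have svB : MSupp ((T.A ⊓ T.B : Subgroup G) : Set G) vB := by
    rintro (i | i) j
    · exact SuppIn.zero
    · exact MSupp.one h1E i j
  have uvA : uA * vA = 1 := by
    rw [huA, hvA, fromCols_mul_fromRows, Matrix.one_mul, Matrix.zero_mul, add_zero]
  have uvB : uB * vB = 1 := by
    rw [huB, hvB, fromCols_mul_fromRows, Matrix.one_mul, Matrix.zero_mul, zero_add]
  have vuA : vA * uA = D.pA := by
    rw [huA, hvA, fromRows_mul_fromCols, hp]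
    simp
  have vuB : vB * uB = D.pB := by
    rw [huB, hvB, fromRows_mul_fromCols, hpB]
    simp
  obtain ⟨a1, a2, a3, a4, a5, a6⟩ := amN_half (E := T.A ⊓ T.B) (A := T.A) inf_le_left hdisA D.a
    D.a' (D.b * D.b') D.pA D.pB D.ha D.sum D.aa rfl hsum D.starA uA vA suA svA uvA vuA
    (fun h => D.rowsA uA suA h)
  obtain ⟨b1, b2, b3, b4, b5, b6⟩ := amN_half (E := T.A ⊓ T.B) (A := T.B) inf_le_right hdisB D.b
    D.b' (D.a * D.a') D.pB D.pA D.hb (by rw [add_comm]; exact D.sum) D.bb rfl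
    (by rw [add_comm]; exact hsum) D.starB uB vB suB svB uvB vuB
    (fun h => D.rowsB uB suB h)
  set X := mrs (T.A : Set G) D.a' * vA with hX
  set Z := mrs (T.B : Set G) D.b' * vB with hZ
  have eA : uA * D.a = D.a.toRows₁ := by
    have h1 := fromCols_mul_fromRows (1 : Matrix (Fin p) (Fin p) (MonoidAlgebra LL G))
      (0 : Matrix (Fin p) (Fin q) (MonoidAlgebra LL G)) D.a.toRows₁ D.a.toRows₂
    rwa [fromRows_toRows, Matrix.one_mul, Matrix.zero_mul, add_zero] at h1
  have eB : uB * D.b = D.b.toRows₂ := by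
    have h1 := fromCols_mul_fromRows (0 : Matrix (Fin q) (Fin p) (MonoidAlgebra LL G))
      (1 : Matrix (Fin q) (Fin q) (MonoidAlgebra LL G)) D.b.toRows₁ D.b.toRows₂
    rwa [fromRows_toRows, Matrix.one_mul, Matrix.zero_mul, zero_add] at h1
  have eAX : uA * (D.a * X) = (D.a * X).toRows₁ := by
    have h1 := fromCols_mul_fromRows (1 : Matrix (Fin p) (Fin p) (MonoidAlgebra LL G))
      (0 : Matrix (Fin p) (Fin q) (MonoidAlgebra LL G)) (D.a * X).toRows₁ (D.a * X).toRows₂
    rwa [fromRows_toRows, Matrix.one_mul, Matrix.zero_mul, add_zero] at h1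
  have eBZ : uB * (D.b * Z) = (D.b * Z).toRows₂ := by
    have h1 := fromCols_mul_fromRows (0 : Matrix (Fin q) (Fin p) (MonoidAlgebra LL G))
      (1 : Matrix (Fin q) (Fin q) (MonoidAlgebra LL G)) (D.b * Z).toRows₁ (D.b * Z).toRows₂
    rwa [fromRows_toRows, Matrix.one_mul, Matrix.zero_mul, zero_add] at h1
  have hAX1 : (D.a * X).toRows₁ = 1 := by rw [← eAX, ← Matrix.mul_assoc, a1]
  have hBZ2 : (D.b * Z).toRows₂ = 1 := by rw [← eBZ, ← Matrix.mul_assoc, b1]
  refine ⟨X, Z, fromRows (uA * (D.a * D.a')) (uB * (D.b * D.b')), a3, b3, ?_, ?_, ?_, ?_, ?_, ?_,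
    ?_, ?_⟩
  · rw [← eA, a1]
  · rw [← eA, a2]
  · rw [← eB, b1]
  · rw [← eB, b2]
  · rintro (i | i) (j | j)
    · have h1 : (1 - fromCols (D.a * X) (D.b * Z)) (Sum.inl i) (Sum.inl j) = 0 := by
        have h2 := congrFun (congrFun hAX1 i) j
        rw [Matrix.sub_apply, fromCols_apply_inl]
        rw [toRows₁_apply] at h2
        rw [h2, Matrix.one_apply, Matrix.one_apply]
        simp
      rw [h1]
      exact SuppIn.zero
    · have h1 : (1 - fromCols (D.a * X) (D.b * Z)) (Sum.inl i) (Sum.inr j) =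
          -((D.b * Z) (Sum.inl i) j) := by
        rw [Matrix.sub_apply, fromCols_apply_inr, Matrix.one_apply, if_neg Sum.inl_ne_inr, zero_sub]
      rw [h1]
      refine SuppIn.neg (amN_supp (E := T.A ⊓ T.B) (A := T.B) (B := T.A)
        (fun g h h' => ⟨h', h⟩) (b5 _ _) ?_)
      exact congrFun (congrFun b4 (Sum.inl i)) j
    · have h1 : (1 - fromCols (D.a * X) (D.b * Z)) (Sum.inr i) (Sum.inl j) =
          -((D.a * X) (Sum.inr i) j) := by
        rw [Matrix.sub_apply, fromCols_apply_inl, Matrix.one_apply, if_neg Sum.inr_ne_inl, zero_sub]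
      rw [h1]
      refine SuppIn.neg (amN_supp (E := T.A ⊓ T.B) (A := T.A) (B := T.B)
        (fun g h h' => ⟨h, h'⟩) (a5 _ _) ?_)
      exact congrFun (congrFun a4 (Sum.inr i)) j
    · have h1 : (1 - fromCols (D.a * X) (D.b * Z)) (Sum.inr i) (Sum.inr j) = 0 := by
        have h2 := congrFun (congrFun hBZ2 i) j
        rw [Matrix.sub_apply, fromCols_apply_inr]
        rw [toRows₂_apply] at h2
        rw [h2, Matrix.one_apply, Matrix.one_apply]
        simp
      rw [h1]
      exact SuppIn.zero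
  · rintro (i | i) j
    · have h1 : uA * (D.a * D.a') = uA - uA * (D.b * D.b') := by
        rw [eq_sub_iff_add_eq, ← Matrix.mul_add, D.sum, Matrix.mul_one]
      rw [fromRows_apply_inl, h1, Matrix.sub_apply]
      refine SuppIn.sub ((suA i j).mono ?_) ((a6 i j).mono ?_)
      · exact fun g hg hg' => T.disjA g hg' hg
      · exact fun g hg hg' => T.disj g hg' hg
    · have h1 : uB * (D.b * D.b') = uB - uB * (D.a * D.a') := by
        rw [eq_sub_iff_add_eq, ← Matrix.mul_add, add_comm, D.sum, Matrix.mul_one]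
      rw [fromRows_apply_inr, h1, Matrix.sub_apply]
      refine SuppIn.sub ((suB i j).mono ?_) ((b6 i j).mono ?_)
      · exact fun g hg hg' => T.disjB g hg' hg
      · exact fun g hg hg' => T.disj g hg hg'
  · rw [fromRows_mul_fromCols]
    have c1 : uA * (D.a * D.a') * (D.a * X) = 1 := by
      rw [Matrix.mul_assoc, Matrix.mul_assoc D.a, ← Matrix.mul_assoc D.a' D.a, D.aa,
        Matrix.one_mul, ← Matrix.mul_assoc, a1]
    have c2 : uA * (D.a * D.a') * (D.b * Z) = 0 := by
      rw [Matrix.mul_assoc, Matrix.mul_assoc D.a, ← Matrix.mul_assoc D.a' D.b, D.ab,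
        Matrix.zero_mul, Matrix.mul_zero, Matrix.mul_zero]
    have c3 : uB * (D.b * D.b') * (D.a * X) = 0 := by
      rw [Matrix.mul_assoc, Matrix.mul_assoc D.b, ← Matrix.mul_assoc D.b' D.a, D.ba,
        Matrix.zero_mul, Matrix.mul_zero, Matrix.mul_zero]
    have c4 : uB * (D.b * D.b') * (D.b * Z) = 1 := by
      rw [Matrix.mul_assoc, Matrix.mul_assoc D.b, ← Matrix.mul_assoc D.b' D.b, D.bb,
        Matrix.one_mul, ← Matrix.mul_assoc, b1]
    rw [c1, c2, c3, c4, fromBlocks_one]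
  · rw [fromCols_mul_fromRows]
    have c1 : D.a * X * (uA * (D.a * D.a')) = D.a * D.a' := by
      rw [Matrix.mul_assoc, ← Matrix.mul_assoc uA, ← Matrix.mul_assoc X, a2, Matrix.one_mul]
    have c2 : D.b * Z * (uB * (D.b * D.b')) = D.b * D.b' := by
      rw [Matrix.mul_assoc, ← Matrix.mul_assoc uB, ← Matrix.mul_assoc Z, b2, Matrix.one_mul]
    rw [c1, c2, D.sum]

end AmNormal

end Pool.Agent.WaldL
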