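import Pool.Agent.Lib.MP_8f66f0_al_WaldL.GrDefs
import Pool.Agent.Lib.MP_8f66f0_al_WaldL.Supp
import Pool.Agent.Lib.MP_8f66f0_al_Ind.Defs

/-! The two forms of the statement that `K_1(LG)` is generated by units and group elements. -/

set_option autoImplicit false

namespace Pool.Agent.WaldL

open Pool.Agent.Wald Pool.Agent.Ind

/-- The pullback of an invariant. -/
noncomputable def pullK {R S K : Type} [Ring R] [Ring S] [CommGroup K] (i : R →+* S)
    (κ : K1Fun S K) : K1Fun R K where
  f A := κ.f (A.map i)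
  mul A B hA hB := by
    rw [Matrix.map_mul]
    exact κ.mul _ _ (hA.map i.mapMatrix) (hB.map i.mapMatrix)
  reindex e A hA := by
    rw [← Matrix.submatrix_map]
    exact κ.reindex e _ (hA.map i.mapMatrix)
  tri A B D hA hD := by
    rw [Matrix.fromBlocks_map, show (0 : Matrix _ _ R).map i = 0 from Matrix.map_zero i (map_zero i)]
    exact κ.tri _ _ _ (hA.map i.mapMatrix) (hD.map i.mapMatrix)

variable {LL : Type} [CommRing LL]

theorem whT_of_whTL {G : Type} [Group G] (h : WhTL LL G) : WhT LL G := by
  intro K _ κ hκ n _ _ A hA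
  exact h K κ (fun g u => hκ.unit g u) n A hA

theorem whTL_of_whT (h1 : WhTL LL (Multiplicative PUnit.{1})) {G : Type} [Group G]
    (h : WhT LL G) : WhTL LL G := by
  intro K _ κ hκ n _ _ A hA
  refine h K κ ⟨fun g => hκ g 1, ?_⟩ n A hA
  intro m _ _ B hB
  have h2 := h1 K (pullK (inc (LL := LL) (1 : Multiplicative PUnit.{1} →* G)) κ) ?_ m
    (B.map (algebraMap LL (MonoidAlgebra LL (Multiplicative PUnit.{1}))))
    (hB.map (algebraMap LL (MonoidAlgebra LL (Multiplicative PUnit.{1}))).mapMatrix)
  · change κ.f (Matrix.map (B.map _) _) = 1 at h2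
    rw [← h2]
    congr 1
    refine Matrix.ext fun i j => ?_
    rw [Matrix.map_apply, Matrix.map_apply, Matrix.map_apply]
    change MonoidAlgebra.single 1 (B i j) = inc _ (MonoidAlgebra.single 1 (B i j))
    rw [inc_single, map_one]
  · intro g u
    change κ.f (Matrix.map _ _) = 1
    rw [← hκ 1 u]
    congr 1
    refine Matrix.ext fun i j => ?_
    rw [Matrix.map_apply, Matrix.of_apply, Matrix.of_apply, inc_single]
    rfl

end Pool.Agent.WaldL
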