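import Pool.Agent.Lib.MP_8f66f0_al_WaldL.Spec

/-! Condition (C1) for a group ring over a principal ideal domain, from `GProp` for the group rings
over the fraction field and the residue fields. -/

set_option autoImplicit false

namespace Pool.Agent.WaldL

open Matrix Pool.Agent.Wald

/-- `GProp` with arbitrary finite index types. -/
private theorem C1PL_gprop {S : Type} [Ring S] (hS : GProp S) (A B I : Type) [Fintype A]
    [Fintype B] [Fintype I] (h : Matrix A B S) (k : Matrix I A S) (hk : k * h = 0) :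
    ∃ (L : Type) (_ : Fintype L) (r : Matrix I L S) (k' : Matrix L A S), k = r * k' ∧
      k' * h = 0 ∧ ∀ c : I → S, vecMul c k = 0 → vecMul c r = 0 := by
  classical
  obtain ⟨l, r, k', h1, h2, h3⟩ := hS (Fintype.card A) (Fintype.card B) (Fintype.card I)
    (h.submatrix (Fintype.equivFin A).symm (Fintype.equivFin B).symm)
    (k.submatrix (Fintype.equivFin I).symm (Fintype.equivFin A).symm) (by
      rw [Matrix.submatrix_mul_equiv, hk]; rfl)
  refine ⟨Fin l, inferInstance, r.submatrix (Fintype.equivFin I) id,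
    k'.submatrix id (Fintype.equivFin A), ?_, ?_, ?_⟩
  · have h4 := congrArg (fun M : Matrix _ _ S =>
      M.submatrix (Fintype.equivFin I) (Fintype.equivFin A)) h1
    simp only [Matrix.submatrix_submatrix] at h4
    have h5 : (k.submatrix ((Fintype.equivFin I).symm ∘ (Fintype.equivFin I))
        ((Fintype.equivFin A).symm ∘ (Fintype.equivFin A))) = k := by
      ext i j; simp
    rw [h5] at h4
    rw [h4]
    ext i j
    simp [Matrix.mul_apply]
  · have h4 := congrArg (fun M : Matrix _ _ S =>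
      M.submatrix id (Fintype.equivFin B)) h2
    ext i j
    have h5 := congrFun (congrFun h4 i) j
    simp only [Matrix.submatrix_apply, Matrix.mul_apply, id_eq, Equiv.symm_apply_apply,
      Matrix.zero_apply] at h5
    rw [Matrix.mul_apply]
    simp only [Matrix.submatrix_apply, id_eq, Matrix.zero_apply]
    rw [← h5]
    exact (Equiv.sum_comp (Fintype.equivFin A).symm
      (fun a => k' i ((Fintype.equivFin A) a) * h a j)).symm.trans
      (Finset.sum_congr rfl fun a _ => by rw [Equiv.apply_symm_apply])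
  · intro c hc
    have h4 : vecMul (c ∘ (Fintype.equivFin I).symm)
        (k.submatrix (Fintype.equivFin I).symm (Fintype.equivFin A).symm) = 0 := by
      funext j
      have h5 := congrFun hc ((Fintype.equivFin A).symm j)
      rw [Pi.zero_apply] at h5
      rw [Pi.zero_apply, ← h5]
      exact Equiv.sum_comp (Fintype.equivFin I).symm (fun i => c i * k i _)
    have h6 := h3 _ h4
    funext j
    have h7 := congrFun h6 j
    rw [Pi.zero_apply] at h7
    rw [Pi.zero_apply, ← h7]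
    exact (Equiv.sum_comp (Fintype.equivFin I).symm
      (fun i => c i * r ((Fintype.equivFin I) i) j)).symm.trans
      (Finset.sum_congr rfl fun a _ => by
        change c _ * r ((Fintype.equivFin I) ((Fintype.equivFin I).symm a)) j = c _ * r a j
        rw [Equiv.apply_symm_apply])

section

variable {E : Type} [Group E] {Λ : Type} [CommRing Λ]

/-- The reduction. -/
private noncomputable abbrev C1PL_π (E : Type) [Group E] (Λ : Type) [CommRing Λ] (F : Type)
    [CommRing F] [Algebra Λ F] : MonoidAlgebra Λ E →+* MonoidAlgebra F E :=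
  MonoidAlgebra.mapRingHom E (algebraMap Λ F)

private theorem C1PL_smul (F : Type) [CommRing F] [Algebra Λ F] (a : Λ)
    (x : MonoidAlgebra Λ E) : C1PL_π E Λ F (a • x) = a • C1PL_π E Λ F x := by
  ext g
  rw [MonoidAlgebra.coeff_mapRingHom, MonoidAlgebra.coeff_smul, Finsupp.smul_apply,
    MonoidAlgebra.coeff_smul, Finsupp.smul_apply, MonoidAlgebra.coeff_mapRingHom, smul_eq_mul,
    map_mul, Algebra.smul_def]

private theorem C1PL_surj (p : Λ) :
    Function.Surjective (C1PL_π E Λ (Λ ⧸ Ideal.span {p})) := by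
  intro x
  obtain ⟨y, hy⟩ := Finsupp.mapRange_surjective (α := E) (algebraMap Λ (Λ ⧸ Ideal.span {p}))
    (map_zero _) Ideal.Quotient.mk_surjective x.coeff
  refine ⟨MonoidAlgebra.ofCoeff y, ?_⟩
  ext g
  rw [MonoidAlgebra.coeff_mapRingHom, MonoidAlgebra.coeff_ofCoeff, ← hy, Finsupp.mapRange_apply]

private theorem C1PL_kerp (p : Λ) (x : MonoidAlgebra Λ E)
    (hx : C1PL_π E Λ (Λ ⧸ Ideal.span {p}) x = 0) : ∃ y : MonoidAlgebra Λ E, x = p • y := by
  classical
  have h0 : ∀ g, ∃ b : Λ, x.coeff g = p * b ∧ (x.coeff g = 0 → b = 0) := by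
    intro g
    by_cases hg : x.coeff g = 0
    · exact ⟨0, by rw [hg, mul_zero], fun _ => rfl⟩
    · have h1 : algebraMap Λ (Λ ⧸ Ideal.span {p}) (x.coeff g) = 0 := by
        rw [← MonoidAlgebra.coeff_mapRingHom, hx]; rfl
      have h2 : x.coeff g ∈ Ideal.span {p} := Ideal.Quotient.eq_zero_iff_mem.1 h1
      obtain ⟨b, hb⟩ := Ideal.mem_span_singleton.1 h2
      exact ⟨b, hb, fun h => absurd h hg⟩
  choose b hb hb' using h0
  refine ⟨MonoidAlgebra.ofCoeff (Finsupp.onFinset x.coeff.support b fun g hg => ?_), ?_⟩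
  · rw [Finsupp.mem_support_iff]
    exact fun h => hg (hb' g h)
  · ext g
    refine (hb g).trans ?_
    rw [MonoidAlgebra.coeff_smul, Finsupp.smul_apply, MonoidAlgebra.coeff_ofCoeff,
      Finsupp.onFinset_apply, smul_eq_mul]

private theorem C1PL_smulp (p : Λ) (y : MonoidAlgebra Λ E) :
    C1PL_π E Λ (Λ ⧸ Ideal.span {p}) (p • y) = 0 := by
  ext g
  rw [MonoidAlgebra.coeff_mapRingHom, MonoidAlgebra.coeff_smul, Finsupp.smul_apply, smul_eq_mul]
  exact Ideal.Quotient.eq_zero_iff_mem.2 (Ideal.mul_mem_right _ _ (Ideal.mem_span_singleton_self p))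

variable [IsDomain Λ]

private theorem C1PL_tf (N : Λ) (hN : N ≠ 0) (x : MonoidAlgebra Λ E) (hx : N • x = 0) :
    x = 0 := by
  ext g
  have h1 : (N • x).coeff g = 0 := by rw [hx]; rfl
  rw [MonoidAlgebra.coeff_smul, Finsupp.smul_apply, smul_eq_mul] at h1
  exact (mul_eq_zero.mp h1).resolve_left hN

variable (F : Type) [Field F] [Algebra Λ F] [IsFractionRing Λ F]

omit [IsDomain Λ] in
private theorem C1PL_inj : Function.Injective (C1PL_π E Λ F) := by
  rw [injective_iff_map_eq_zero]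
  intro x hx
  ext g
  have h1 : (algebraMap Λ F) (x.coeff g) = 0 := by
    rw [← MonoidAlgebra.coeff_mapRingHom, hx]; rfl
  exact (IsFractionRing.injective Λ F) (h1.trans (map_zero _).symm)

private theorem C1PL_den (x : MonoidAlgebra F E) :
    ∃ N : Λ, N ≠ 0 ∧ ∃ y : MonoidAlgebra Λ E, N • x = C1PL_π E Λ F y := by
  classical
  obtain ⟨N, hN⟩ := IsLocalization.exist_integer_multiples (nonZeroDivisors Λ) x.coeff.support
    (fun g => x.coeff g)
  have h0 : ∀ g, ∃ b : Λ, algebraMap Λ F b = (N : Λ) • x.coeff g ∧ (x.coeff g = 0 → b = 0) := by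
    intro g
    by_cases hg : x.coeff g = 0
    · exact ⟨0, by rw [hg, smul_zero, map_zero], fun _ => rfl⟩
    · obtain ⟨b, hb⟩ := hN g (Finsupp.mem_support_iff.2 hg)
      exact ⟨b, hb, fun h => absurd h hg⟩
  choose b hb hb' using h0
  refine ⟨N, nonZeroDivisors.ne_zero N.2,
    MonoidAlgebra.ofCoeff (Finsupp.onFinset x.coeff.support b fun g hg => ?_), ?_⟩
  · rw [Finsupp.mem_support_iff]
    exact fun h => hg (hb' g h)
  · ext g
    rw [MonoidAlgebra.coeff_mapRingHom, MonoidAlgebra.coeff_ofCoeff, Finsupp.onFinset_apply,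
      MonoidAlgebra.coeff_smul, Finsupp.smul_apply, hb]

/-- Clearing denominators of a matrix. -/
private theorem C1PL_mden {I J : Type} [Fintype I] [Fintype J]
    (M : Matrix I J (MonoidAlgebra F E)) :
    ∃ N : Λ, N ≠ 0 ∧ ∃ M' : Matrix I J (MonoidAlgebra Λ E), N • M = M'.map (C1PL_π E Λ F) := by
  classical
  choose f hf g hg using fun ij : I × J => C1PL_den (Λ := Λ) F (M ij.1 ij.2)
  have h1 : ∀ ij : I × J, ∃ q : Λ, ∏ x, f x = f ij * q := fun ij =>
    Finset.dvd_prod_of_mem f (Finset.mem_univ ij)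
  choose q hq using h1
  refine ⟨∏ x, f x, Finset.prod_ne_zero_iff.2 fun x _ => hf x, fun i j => q (i, j) • g (i, j), ?_⟩
  ext1 i j
  change (∏ x, f x) • M i j = C1PL_π E Λ F (q (i, j) • g (i, j))
  rw [C1PL_smul, ← hg (i, j), smul_smul, hq (i, j), mul_comm]

omit [IsDomain Λ] in
private theorem C1PL_mlift {I J : Type} (p : Λ)
    (M : Matrix I J (MonoidAlgebra (Λ ⧸ Ideal.span {p}) E)) :
    ∃ M' : Matrix I J (MonoidAlgebra Λ E), M'.map (C1PL_π E Λ (Λ ⧸ Ideal.span {p})) = M := by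
  choose f hf using fun i j => C1PL_surj (E := E) p (M i j)
  exact ⟨f, by ext1 i j; exact hf i j⟩

omit [IsDomain Λ] in
private theorem C1PL_mker {I J : Type} (p : Λ) (M : Matrix I J (MonoidAlgebra Λ E))
    (hM : M.map (C1PL_π E Λ (Λ ⧸ Ideal.span {p})) = 0) :
    ∃ M' : Matrix I J (MonoidAlgebra Λ E), M = p • M' := by
  choose f hf using fun i j => C1PL_kerp (E := E) p (M i j)
    (congrFun (congrFun hM i) j)
  exact ⟨f, by ext1 i j; exact hf i j⟩

private theorem C1PL_mtf {I J : Type} (N : Λ) (hN : N ≠ 0) (M : Matrix I J (MonoidAlgebra Λ E))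
    (hM : N • M = 0) : M = 0 := by
  ext1 i j
  exact C1PL_tf N hN _ (congrFun (congrFun hM i) j)

omit [IsDomain Λ] in
private theorem C1PL_vmap {I J : Type} [Fintype I] (F : Type) [CommRing F] [Algebra Λ F]
    (c : I → MonoidAlgebra Λ E) (M : Matrix I J (MonoidAlgebra Λ E)) :
    vecMul (C1PL_π E Λ F ∘ c) (M.map (C1PL_π E Λ F)) = C1PL_π E Λ F ∘ vecMul c M := by
  funext j
  simp only [vecMul, dotProduct, Function.comp_apply, map_sum, map_mul, Matrix.map_apply]

/-- The inductive statement. -/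
private def C1PL_St {A B I : Type} [Fintype A] [Fintype I]
    (h : Matrix A B (MonoidAlgebra Λ E)) (k : Matrix I A (MonoidAlgebra Λ E)) (N : Λ) : Prop :=
  ∃ (J : Type) (_ : Fintype J) (T : Type) (_ : Fintype T)
    (kp : Matrix J A (MonoidAlgebra Λ E)) (P : Matrix I J (MonoidAlgebra Λ E))
    (ρ : Matrix T J (MonoidAlgebra Λ E)), P * kp = k ∧ kp * h = 0 ∧ ρ * kp = 0 ∧
    ∀ c : I → MonoidAlgebra Λ E, vecMul c k = 0 →
      ∃ z : T → MonoidAlgebra Λ E, vecMul z ρ = N • vecMul c P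

private theorem C1PL_start {A B I : Type} [Fintype A] [Fintype B] [Fintype I]
    (hQ : GProp (MonoidAlgebra F E))
    (h : Matrix A B (MonoidAlgebra Λ E)) (k : Matrix I A (MonoidAlgebra Λ E)) (hk : k * h = 0) :
    ∃ N : Λ, N ≠ 0 ∧ C1PL_St h k N := by
  classical
  obtain ⟨L, iL, r0, k0, e1, e2, e3⟩ := C1PL_gprop hQ A B I (h.map (C1PL_π E Λ F))
    (k.map (C1PL_π E Λ F)) (by rw [← Matrix.map_mul, hk]; exact Matrix.map_zero _ (map_zero _))
  obtain ⟨N0, hN0, k1, hk1⟩ := C1PL_mden (Λ := Λ) F k0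
  obtain ⟨N1, hN1, r1, hr1⟩ := C1PL_mden (Λ := Λ) F r0
  have f1 : (N1 * N0) • k = r1 * k1 := by
    apply Matrix.map_injective (C1PL_inj (E := E) (Λ := Λ) F)
    have g1 : ((N1 * N0) • k).map (C1PL_π E Λ F) = (N1 * N0) • k.map (C1PL_π E Λ F) := by
      ext1 i j
      rw [Matrix.map_apply, Matrix.smul_apply, Matrix.smul_apply, Matrix.map_apply, C1PL_smul]
    change ((N1 * N0) • k).map (C1PL_π E Λ F) = (r1 * k1).map (C1PL_π E Λ F)
    rw [g1, Matrix.map_mul, ← hk1, ← hr1, e1, Matrix.smul_mul, Matrix.mul_smul, smul_smul]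
  have f2 : k1 * h = 0 := by
    apply Matrix.map_injective (C1PL_inj (E := E) (Λ := Λ) F)
    change (k1 * h).map (C1PL_π E Λ F) = (0 : Matrix L B (MonoidAlgebra Λ E)).map (C1PL_π E Λ F)
    rw [Matrix.map_mul, ← hk1, Matrix.smul_mul, e2, smul_zero]
    exact (Matrix.map_zero _ (map_zero _)).symm
  have f3 : ∀ c : I → MonoidAlgebra Λ E, vecMul c k = 0 → vecMul c r1 = 0 := by
    intro c hc
    have g1 : vecMul (C1PL_π E Λ F ∘ c) (k.map (C1PL_π E Λ F)) = 0 := by
      rw [C1PL_vmap, hc]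
      funext j
      exact map_zero _
    have g2 := e3 _ g1
    have g3 : vecMul (C1PL_π E Λ F ∘ c) (r1.map (C1PL_π E Λ F)) = 0 := by
      rw [← hr1, Matrix.vecMul_smul, g2, smul_zero]
    rw [C1PL_vmap] at g3
    funext j
    exact C1PL_inj F ((congrFun g3 j).trans (map_zero _).symm)
  refine ⟨N1 * N0, mul_ne_zero hN1 hN0, I ⊕ L, inferInstance, I, inferInstance, fromRows k k1,
    fromCols 1 0, fromCols ((N1 * N0) • 1) (-r1), ?_, ?_, ?_, ?_⟩
  · rw [fromCols_mul_fromRows, Matrix.one_mul, Matrix.zero_mul, add_zero]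
  · rw [fromRows_mul, hk, f2, fromRows_zero]
  · rw [fromCols_mul_fromRows, Matrix.smul_mul, Matrix.one_mul, f1, Matrix.neg_mul,
      add_neg_cancel]
  · intro c hc
    refine ⟨c, ?_⟩
    rw [vecMul_fromCols, vecMul_fromCols, Matrix.vecMul_neg, f3 c hc, Matrix.vecMul_smul,
      Matrix.vecMul_one, Matrix.vecMul_zero, neg_zero]
    funext j
    rcases j with j | j
    · rfl
    · change (0 : MonoidAlgebra Λ E) = (N1 * N0) • (0 : MonoidAlgebra Λ E)
      rw [smul_zero]

private theorem C1PL_step {A B I : Type} [Fintype A] [Fintype B] [Fintype I]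
    (p : Λ) (hp : p ≠ 0) (hS : GProp (MonoidAlgebra (Λ ⧸ Ideal.span {p}) E)) (N : Λ)
    (h : Matrix A B (MonoidAlgebra Λ E)) (k : Matrix I A (MonoidAlgebra Λ E))
    (hN : C1PL_St h k (p * N)) : C1PL_St h k N := by
  classical
  obtain ⟨J, iJ, T, iT, kp, P, ρ, a1, a2, a3, a4⟩ := hN
  obtain ⟨L, iL, σ0, κ0, e1, e2, e3⟩ := C1PL_gprop hS J A T
    (kp.map (C1PL_π E Λ (Λ ⧸ Ideal.span {p}))) (ρ.map (C1PL_π E Λ (Λ ⧸ Ideal.span {p})))
    (by rw [← Matrix.map_mul, a3]; exact Matrix.map_zero _ (map_zero _))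
  obtain ⟨σ, hσ⟩ := C1PL_mlift p σ0
  obtain ⟨κ, hκ⟩ := C1PL_mlift p κ0
  obtain ⟨τ, hτ⟩ := C1PL_mker p (ρ - σ * κ) (by
    rw [Matrix.map_sub _ (map_sub _), Matrix.map_mul, hσ, hκ, e1, sub_self])
  obtain ⟨k2, hk2⟩ := C1PL_mker p (κ * kp) (by rw [Matrix.map_mul, hκ, e2])
  have f1 : k2 * h = 0 := by
    apply C1PL_mtf p hp
    rw [← Matrix.smul_mul, ← hk2, Matrix.mul_assoc, a2, Matrix.mul_zero]
  have f2 : τ * kp + σ * k2 = 0 := by
    apply C1PL_mtf p hp
    rw [smul_add, ← Matrix.smul_mul, ← Matrix.mul_smul, ← hτ, ← hk2, Matrix.sub_mul, a3,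
      Matrix.mul_assoc, zero_sub, neg_add_cancel]
  refine ⟨J ⊕ L, inferInstance, L ⊕ T, inferInstance, fromRows kp k2, fromCols P 0,
    fromBlocks κ (-(p • 1)) τ σ, ?_, ?_, ?_, ?_⟩
  · rw [fromCols_mul_fromRows, a1, Matrix.zero_mul, add_zero]
  · rw [fromRows_mul, a2, f1, fromRows_zero]
  · rw [fromBlocks_mul_fromRows, Matrix.neg_mul, Matrix.smul_mul, Matrix.one_mul, hk2,
      add_neg_cancel, f2, fromRows_zero]
  · intro c hc
    obtain ⟨z, hz⟩ := a4 c hc
    have g1 : vecMul (C1PL_π E Λ (Λ ⧸ Ideal.span {p}) ∘ z)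
        (ρ.map (C1PL_π E Λ (Λ ⧸ Ideal.span {p}))) = 0 := by
      rw [C1PL_vmap, hz]
      funext j
      change C1PL_π E Λ (Λ ⧸ Ideal.span {p}) ((p * N) • vecMul c P j) = 0
      rw [mul_smul, C1PL_smulp]
    have g2 := e3 _ g1
    rw [← hσ, C1PL_vmap] at g2
    choose ψ hψ using fun l => C1PL_kerp p (vecMul z σ l) (congrFun g2 l)
    have g3 : vecMul z σ = p • ψ := funext hψ
    have g4 : N • vecMul c P = vecMul ψ κ + vecMul z τ := by
      have g5 : ρ = σ * κ + p • τ := by rw [← hτ, add_sub_cancel]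
      have g6 : p • (N • vecMul c P) = p • (vecMul ψ κ + vecMul z τ) := by
        rw [smul_smul, ← hz, g5, Matrix.vecMul_add, ← Matrix.vecMul_vecMul, g3,
          Matrix.vecMul_smul, Matrix.smul_vecMul, smul_add]
      funext j
      have g7 := congrFun g6 j
      have g8 : p • ((N • vecMul c P) j - (vecMul ψ κ + vecMul z τ) j) = 0 := by
        rw [smul_sub]
        exact sub_eq_zero.mpr g7
      exact sub_eq_zero.mp (C1PL_tf p hp _ g8)
    refine ⟨Sum.elim ψ z, ?_⟩
    rw [vecMul_fromBlocks, vecMul_fromCols, Sum.elim_comp_inl, Sum.elim_comp_inr, ← g4,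
      Matrix.vecMul_neg, Matrix.vecMul_smul, Matrix.vecMul_one, g3, Matrix.vecMul_zero,
      neg_add_cancel]
    funext j
    rcases j with j | j
    · rfl
    · change (0 : MonoidAlgebra Λ E) = N • (0 : MonoidAlgebra Λ E)
      rw [smul_zero]

omit [IsDomain Λ] in
private theorem C1PL_unit {A B I : Type} [Fintype A] [Fintype B] [Fintype I]
    (N : Λ) (hN : IsUnit N)
    (h : Matrix A B (MonoidAlgebra Λ E)) (k : Matrix I A (MonoidAlgebra Λ E))
    (hs : C1PL_St h k N) : C1PL_St h k 1 := by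
  obtain ⟨J, iJ, T, iT, kp, P, ρ, a1, a2, a3, a4⟩ := hs
  obtain ⟨M, hM⟩ := hN.exists_left_inv
  refine ⟨J, iJ, T, iT, kp, P, ρ, a1, a2, a3, fun c hc => ?_⟩
  obtain ⟨z, hz⟩ := a4 c hc
  refine ⟨M • z, ?_⟩
  rw [Matrix.smul_vecMul, hz, smul_smul, hM]

private theorem C1PL_all [IsPrincipalIdealRing Λ] {A B I : Type} [Fintype A] [Fintype B]
    [Fintype I] (hQ : GProp (MonoidAlgebra F E))
    (hp : ∀ p : Λ, Prime p → GProp (MonoidAlgebra (Λ ⧸ Ideal.span {p}) E))
    (h : Matrix A B (MonoidAlgebra Λ E)) (k : Matrix I A (MonoidAlgebra Λ E)) (hk : k * h = 0) :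
    C1PL_St h k 1 := by
  obtain ⟨N, hN, hs⟩ := C1PL_start F hQ h k hk
  have key : ∀ N : Λ, N ≠ 0 → C1PL_St h k N → C1PL_St h k 1 := by
    intro N
    induction N using UniqueFactorizationMonoid.induction_on_prime with
    | h₁ => intro h0; exact absurd rfl h0
    | h₂ u hu => intro _ hs; exact C1PL_unit u hu h k hs
    | h₃ a p ha hpp ih =>
      intro _ hs
      exact ih ha (C1PL_step p hpp.ne_zero (hp p hpp) a h k hs)
  exact key N hN hs

end

private theorem C1PL_main {Λ : Type} [CommRing Λ] [IsDomain Λ] [IsPrincipalIdealRing Λ] {E : Type}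
    [Group E] (F : Type) [Field F] [Algebra Λ F] [IsFractionRing Λ F]
    (hQ : GProp (MonoidAlgebra F E))
    (hp : ∀ p : Λ, Prime p → GProp (MonoidAlgebra (Λ ⧸ Ideal.span {p}) E)) :
    C1 (MonoidAlgebra Λ E) := by
  classical
  intro a b s h k hk
  obtain ⟨J, iJ, T, iT, kp, P, ρ, a1, a2, a3, a4⟩ := C1PL_all F hQ hp h k hk
  let eJ := Fintype.equivFin J
  let eT : (Fin s ⊕ T) ≃ Fin (Fintype.card (Fin s ⊕ T)) := Fintype.equivFin (Fin s ⊕ T)
  let ρ1 : Matrix (Fin s ⊕ T) (Fin s) (MonoidAlgebra Λ E) := fromRows 1 0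
  let ρ2 : Matrix (Fin s ⊕ T) J (MonoidAlgebra Λ E) := fromRows (-P) ρ
  have b1 : ρ1 * k + ρ2 * kp = 0 := by
    change fromRows 1 0 * k + fromRows (-P) ρ * kp = 0
    rw [fromRows_mul, fromRows_mul, Matrix.one_mul, Matrix.zero_mul, Matrix.neg_mul, a1, a3]
    ext1 i j
    rcases i with i | i
    · change k i j + -(k i j) = 0
      rw [add_neg_cancel]
    · change (0 : MonoidAlgebra Λ E) + 0 = 0
      rw [add_zero]
  refine ⟨Fintype.card J, kp.submatrix eJ.symm id, Fintype.card (Fin s ⊕ T),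
    ρ1.submatrix eT.symm id, ρ2.submatrix eT.symm eJ.symm, ?_, ?_, ?_⟩
  · ext1 i j
    have h1 := congrFun (congrFun a2 (eJ.symm i)) j
    exact h1
  · ext1 i j
    have h1 := congrFun (congrFun b1 (eT.symm i)) j
    rw [Matrix.add_apply] at h1 ⊢
    have h2 : ((ρ2.submatrix eT.symm eJ.symm) * (kp.submatrix eJ.symm id)) i j =
        (ρ2 * kp) (eT.symm i) j := by
      rw [Matrix.submatrix_mul_equiv]; rfl
    rw [h2]
    exact h1
  · intro c hc
    obtain ⟨z, hz⟩ := a4 c hc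
    rw [one_smul] at hz
    have h3 : vecMul (Sum.elim c z) ρ1 = c := by
      change vecMul (Sum.elim c z) (fromRows 1 0) = c
      rw [sumElim_vecMul_fromRows, Matrix.vecMul_one, Matrix.vecMul_zero, add_zero]
    have h4 : vecMul (Sum.elim c z) ρ2 = 0 := by
      change vecMul (Sum.elim c z) (fromRows (-P) ρ) = 0
      rw [sumElim_vecMul_fromRows, Matrix.vecMul_neg, hz, neg_add_cancel]
    refine ⟨Sum.elim c z ∘ eT.symm, ?_, ?_⟩
    · refine Eq.trans ?_ h3
      funext j
      exact Equiv.sum_comp eT.symm (fun i => Sum.elim c z i * ρ1 i j)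
    · funext j
      have h5 := congrFun h4 (eJ.symm j)
      refine Eq.trans ?_ h5
      exact Equiv.sum_comp eT.symm (fun i => Sum.elim c z i * ρ2 i (eJ.symm j))

theorem c1_pl : S_C1PL := fun LL _ _ _ _ _ hQ hp =>
  C1PL_main (Λ := LL) (FractionRing LL) hQ hp

end Pool.Agent.WaldL
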