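import Pool.Agent.Lib.MP_8f66f0_al_WaldT.Defs
import Pool.Agent.Lib.MP_8f66f0_al_Wald.GrDefs

/-! The trees of amalgams and HNN extensions, with the actions of the groups. -/

set_option autoImplicit false

namespace Pool.Agent.WaldL

open Pool.Agent.Wald Pool.Agent.WaldT Finsupp

open Classical in
theorem act_map_sum {V Ed : Type} (f : Ed → V) (c : Ed →₀ ℤ) (v : V) :
    c.mapDomain f v = ∑ e ∈ c.support with f e = v, c e := by
  simp [mapDomain, sum, single_apply, Finset.sum_ite]

theorem act_map_zero {V Ed : Type} (f : Ed → V) (c : Ed →₀ ℤ) (v : V)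
    (h : ∀ e ∈ c.support, f e ≠ v) : c.mapDomain f v = 0 := by
  classical
  rw [act_map_sum]
  refine Finset.sum_eq_zero fun e he => ?_
  exact absurd (Finset.mem_filter.1 he).2 (h e (Finset.mem_filter.1 he).1)

theorem act_map_one {V Ed : Type} (f : Ed → V) (c : Ed →₀ ℤ) (v : V) (e₀ : Ed) (h0 : f e₀ = v)
    (h : ∀ e ∈ c.support, f e = v → e = e₀) : c.mapDomain f v = c e₀ := by
  classical
  rw [act_map_sum]
  by_cases hc : c e₀ = 0
  · rw [hc]
    refine Finset.sum_eq_zero fun e he => ?_
    rw [h e (Finset.mem_filter.1 he).1 (Finset.mem_filter.1 he).2, hc]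
  · refine Finset.sum_eq_single_of_mem e₀ ?_ ?_
    · exact Finset.mem_filter.2 ⟨Finsupp.mem_support_iff.2 hc, h0⟩
    · intro e he hne
      exact absurd (h e (Finset.mem_filter.1 he).1 (Finset.mem_filter.1 he).2) hne

/-- A graph with a length function on edges such that every edge has an end all of whose other
edges are longer has no circuits. -/
theorem act_acyc {V Ed : Type} (o t : Ed → V) (l : Ed → ℕ)
    (h : ∀ e, (o e ≠ t e ∧ ∀ e', e' ≠ e → (o e' = o e ∨ t e' = o e) → l e < l e') ∨
      (o e ≠ t e ∧ ∀ e', e' ≠ e → (o e' = t e ∨ t e' = t e) → l e < l e'))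
    (c : Ed →₀ ℤ) (hc : c.mapDomain t = c.mapDomain o) : c = 0 := by
  by_contra hne
  obtain ⟨e, he, hmax⟩ := Finset.exists_max_image c.support l (Finsupp.support_nonempty_iff.2 hne)
  refine Finsupp.mem_support_iff.1 he ?_
  rcases h e with ⟨hot, h1⟩ | ⟨hot, h1⟩
  · have h2 : c.mapDomain t (o e) = 0 := by
      refine act_map_zero t c _ fun e' he' h3 => ?_
      by_cases h4 : e' = e
      · rw [h4] at h3
        exact hot h3.symm
      · exact absurd (hmax e' he') (not_le.2 (h1 e' h4 (Or.inr h3)))
    have h5 : c.mapDomain o (o e) = c e := by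
      refine act_map_one o c _ e rfl fun e' he' h3 => ?_
      by_contra h4
      exact absurd (hmax e' he') (not_le.2 (h1 e' h4 (Or.inl h3)))
    rw [← h5, ← hc, h2]
  · have h2 : c.mapDomain o (t e) = 0 := by
      refine act_map_zero o c _ fun e' he' h3 => ?_
      by_cases h4 : e' = e
      · rw [h4] at h3
        exact hot h3
      · exact absurd (hmax e' he') (not_le.2 (h1 e' h4 (Or.inl h3)))
    have h5 : c.mapDomain t (t e) = c e := by
      refine act_map_one t c _ e rfl fun e' he' h3 => ?_
      by_contra h4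
      exact absurd (hmax e' he') (not_le.2 (h1 e' h4 (Or.inr h3)))
    rw [← h5, hc, h2]

/-- Connectedness of a graph with a group action, from generators. -/
theorem act_conn {G V Ed : Type} [Group G] [MulAction G V] [MulAction G Ed] (o t : Ed → V)
    (ho : ∀ (g : G) (e : Ed), o (g • e) = g • o e) (ht : ∀ (g : G) (e : Ed), t (g • e) = g • t e)
    (r : V) (S : Set G) (hS : Subgroup.closure S = ⊤)
    (h : ∀ g ∈ S, ∃ c : Ed →₀ ℤ, c.mapDomain t - c.mapDomain o = single (g • r) 1 - single r 1)
    (g : G) : ∃ c : Ed →₀ ℤ, c.mapDomain t - c.mapDomain o = single (g • r) 1 - single r 1 := by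
  -- translation of chains
  have hact : ∀ (g : G) (c : Ed →₀ ℤ) (a b : V),
      c.mapDomain t - c.mapDomain o = single a 1 - single b 1 →
      (c.mapDomain (g • ·)).mapDomain t - (c.mapDomain (g • ·)).mapDomain o =
        single (g • a) 1 - single (g • b) 1 := by
    intro g c a b hc
    have h1 : (c.mapDomain (g • ·)).mapDomain t = (c.mapDomain t).mapDomain (g • ·) := by
      rw [← Finsupp.mapDomain_comp, ← Finsupp.mapDomain_comp]
      congr 1
      funext e
      exact ht g e
    have h2 : (c.mapDomain (g • ·)).mapDomain o = (c.mapDomain o).mapDomain (g • ·) := by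
      rw [← Finsupp.mapDomain_comp, ← Finsupp.mapDomain_comp]
      congr 1
      funext e
      exact ho g e
    have h3 := congrArg (Finsupp.mapDomain.addMonoidHom (M := ℤ) (fun v : V => g • v)) hc
    rw [map_sub, map_sub] at h3
    change Finsupp.mapDomain _ _ - Finsupp.mapDomain _ _ = Finsupp.mapDomain _ _ -
      Finsupp.mapDomain _ _ at h3
    rw [Finsupp.mapDomain_single, Finsupp.mapDomain_single] at h3
    rw [h1, h2, h3]
  have hneg : ∀ (c : Ed →₀ ℤ) (f : Ed → V), (-c).mapDomain f = - c.mapDomain f := fun c f =>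
    map_neg (Finsupp.mapDomain.addMonoidHom (M := ℤ) f) c
  have hg : g ∈ Subgroup.closure S := by
    rw [hS]
    exact Subgroup.mem_top g
  induction hg using Subgroup.closure_induction with
  | mem x hx => exact h x hx
  | one =>
    refine ⟨0, ?_⟩
    rw [Finsupp.mapDomain_zero, Finsupp.mapDomain_zero, one_smul, sub_self, sub_self]
  | mul x y _ _ hx hy =>
    obtain ⟨c, hc⟩ := hx
    obtain ⟨d, hd⟩ := hy
    refine ⟨c + d.mapDomain (x • ·), ?_⟩
    rw [Finsupp.mapDomain_add, Finsupp.mapDomain_add, add_sub_add_comm, hc, hact x d _ _ hd,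
      mul_smul]
    abel
  | inv x _ hx =>
    obtain ⟨c, hc⟩ := hx
    refine ⟨-(c.mapDomain (x⁻¹ • ·)), ?_⟩
    have h4 := hact x⁻¹ c _ _ hc
    rw [inv_smul_smul] at h4
    rw [hneg, hneg, ← neg_sub', h4]
    abel

section Am

variable {G : Type} [Group G] (T : AmTree G)

theorem am_mk_A {g g' : G} : (QuotientGroup.mk g : G ⧸ T.A) = QuotientGroup.mk g' ↔
    g⁻¹ * g' ∈ T.A := QuotientGroup.eq

/-- The origin of an edge. -/
def amO : G ⧸ (T.A ⊓ T.B) → G ⧸ T.A :=
  Quotient.map' id fun a b h => by
    rw [QuotientGroup.leftRel_apply] at h ⊢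
    exact (Subgroup.mem_inf.1 h).1

/-- The end of an edge. -/
def amT : G ⧸ (T.A ⊓ T.B) → G ⧸ T.B :=
  Quotient.map' id fun a b h => by
    rw [QuotientGroup.leftRel_apply] at h ⊢
    exact (Subgroup.mem_inf.1 h).2

/-- The length of an edge. -/
def amL : G ⧸ (T.A ⊓ T.B) → ℕ :=
  Quotient.lift (fun g : G => T.len g⁻¹) fun a b h => by
    have h' : a⁻¹ * b ∈ T.A ⊓ T.B := QuotientGroup.leftRel_apply.1 h
    have h1 := T.lenE _ (inv_mem h') a⁻¹
    rw [mul_inv_rev, inv_inv, mul_assoc, mul_inv_cancel, mul_one] at h1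
    exact h1.symm

theorem am_acyc (c : (G ⧸ (T.A ⊓ T.B)) →₀ ℤ)
    (hc : c.mapDomain (fun e => (Sum.inr (amT T e) : (G ⧸ T.A) ⊕ (G ⧸ T.B))) =
      c.mapDomain (fun e => Sum.inl (amO T e))) : c = 0 := by
  refine act_acyc _ _ (amL T) ?_ c hc
  intro e
  induction e using QuotientGroup.induction_on with
  | H g =>
    by_cases hg : g⁻¹ ∈ T.SA
    · right
      refine ⟨Sum.inl_ne_inr, fun e' he' h => ?_⟩
      induction e' using QuotientGroup.induction_on with
      | H g' =>
        rcases h with h | h
        · exact absurd h Sum.inl_ne_inr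
        · have h1 : g'⁻¹ * g ∈ T.B := QuotientGroup.eq.1 (Sum.inr_injective h)
          have h2 : g'⁻¹ * g ∉ T.A := fun h2 => he' (QuotientGroup.eq.2 (Subgroup.mem_inf.2 ⟨h2, h1⟩))
          have h3 := (T.leftB _ h1 h2 g⁻¹ (T.disj _ hg)).2
          rw [mul_inv_cancel_right] at h3
          change T.len g⁻¹ < T.len g'⁻¹
          omega
    · left
      refine ⟨Sum.inl_ne_inr, fun e' he' h => ?_⟩
      induction e' using QuotientGroup.induction_on with
      | H g' =>
        rcases h with h | h
        · have h1 : g'⁻¹ * g ∈ T.A := QuotientGroup.eq.1 (Sum.inl_injective h)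
          have h2 : g'⁻¹ * g ∉ T.B := fun h2 => he' (QuotientGroup.eq.2 (Subgroup.mem_inf.2 ⟨h1, h2⟩))
          have h3 := (T.leftA _ h1 h2 g⁻¹ hg).2
          rw [mul_inv_cancel_right] at h3
          change T.len g⁻¹ < T.len g'⁻¹
          omega
        · exact absurd h.symm Sum.inl_ne_inr

/-- The Bass–Serre tree of an amalgam. -/
noncomputable def amAct : TreeAct G where
  V := (G ⧸ T.A) ⊕ (G ⧸ T.B)
  Ed := G ⧸ (T.A ⊓ T.B)
  actV := inferInstance
  actE := inferInstance
  o e := Sum.inl (amO T e)
  t e := Sum.inr (amT T e)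
  o_smul g e := by
    induction e using QuotientGroup.induction_on with
    | H x => rfl
  t_smul g e := by
    induction e using QuotientGroup.induction_on with
    | H x => rfl
  root := Sum.inl (QuotientGroup.mk 1)
  acyc := am_acyc T
  conn v := by
    have hP := act_conn (G := G) (V := (G ⧸ T.A) ⊕ (G ⧸ T.B)) (Ed := G ⧸ (T.A ⊓ T.B))
      (fun e => Sum.inl (amO T e)) (fun e => Sum.inr (amT T e))
      (fun g e => by
        induction e using QuotientGroup.induction_on with
        | H x => rfl)
      (fun g e => by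
        induction e using QuotientGroup.induction_on with
        | H x => rfl) (Sum.inl (QuotientGroup.mk 1)) _ T.gen (by
      intro g hg
      rcases hg with hg | hg
      · refine ⟨0, ?_⟩
        have h1 : g • (Sum.inl (QuotientGroup.mk 1) : (G ⧸ T.A) ⊕ (G ⧸ T.B)) =
            Sum.inl (QuotientGroup.mk 1) := by
          refine congrArg Sum.inl (QuotientGroup.eq.2 ?_)
          simpa using hg
        rw [Finsupp.mapDomain_zero, Finsupp.mapDomain_zero, h1, sub_self, sub_self]
      · refine ⟨single (QuotientGroup.mk 1) 1 - single (QuotientGroup.mk g) 1, ?_⟩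
        have h1 : (QuotientGroup.mk g : G ⧸ T.B) = QuotientGroup.mk 1 := by
          refine QuotientGroup.eq.2 ?_
          simpa using hg
        have h2 : ∀ f : G ⧸ (T.A ⊓ T.B) → (G ⧸ T.A) ⊕ (G ⧸ T.B), ∀ a b,
            (single a (1 : ℤ) - single b 1).mapDomain f = single (f a) 1 - single (f b) 1 := by
          intro f a b
          have h3 := map_sub (Finsupp.mapDomain.addMonoidHom (M := ℤ) f) (single a 1) (single b 1)
          change Finsupp.mapDomain _ _ = Finsupp.mapDomain _ _ - Finsupp.mapDomain _ _ at h3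
          rw [h3, Finsupp.mapDomain_single, Finsupp.mapDomain_single]
        rw [h2, h2]
        change single (Sum.inr (QuotientGroup.mk 1)) 1 - single (Sum.inr (QuotientGroup.mk g)) 1 -
          (single (Sum.inl (QuotientGroup.mk 1)) 1 - single (Sum.inl (QuotientGroup.mk g)) 1) =
          single (Sum.inl (QuotientGroup.mk (g * 1))) 1 - single (Sum.inl (QuotientGroup.mk 1)) 1
        rw [h1, mul_one]
        abel)
    have hmul : ∀ g : G, g • (Sum.inl (QuotientGroup.mk 1) : (G ⧸ T.A) ⊕ (G ⧸ T.B)) =
        Sum.inl (QuotientGroup.mk g) := fun g => by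
      change Sum.inl (QuotientGroup.mk (g * 1)) = _
      rw [mul_one]
    rcases v with v | v
    · induction v using QuotientGroup.induction_on with
      | H g =>
        obtain ⟨c, hc⟩ := hP g
        rw [hmul] at hc
        exact ⟨c, hc⟩
    · induction v using QuotientGroup.induction_on with
      | H g =>
        obtain ⟨c, hc⟩ := hP g
        rw [hmul] at hc
        refine ⟨c + single (QuotientGroup.mk g) 1, ?_⟩
        rw [Finsupp.mapDomain_add, Finsupp.mapDomain_add, add_sub_add_comm, hc,
          Finsupp.mapDomain_single, Finsupp.mapDomain_single]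
        change single (Sum.inl (QuotientGroup.mk g)) 1 - single (Sum.inl (QuotientGroup.mk 1)) 1 +
          (single (Sum.inr (QuotientGroup.mk g)) 1 - single (Sum.inl (QuotientGroup.mk g)) 1) = _
        abel

end Am

section Hnn

variable {G : Type} [Group G] (T : HnnTree G)

theorem hnn_E_le : T.E ≤ T.H := fun g hg => ((T.memE g).1 hg).1

/-- The origin of an edge. -/
def hnnO : G ⧸ T.E → G ⧸ T.H :=
  Quotient.map' id fun a b h => by
    rw [QuotientGroup.leftRel_apply] at h ⊢
    exact hnn_E_le T h

/-- The end of an edge. -/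
def hnnT : G ⧸ T.E → G ⧸ T.H :=
  Quotient.map' (· * T.t) fun a b h => by
    rw [QuotientGroup.leftRel_apply] at h ⊢
    have h1 := ((T.memE _).1 h).2
    change (a * T.t)⁻¹ * (b * T.t) ∈ T.H
    rw [mul_inv_rev]
    simpa only [mul_assoc] using h1

/-- The length of an edge. -/
def hnnL : G ⧸ T.E → ℕ :=
  Quotient.lift (fun g : G => T.len g⁻¹) fun a b h => by
    have h' : a⁻¹ * b ∈ T.E := QuotientGroup.leftRel_apply.1 h
    have h1 := T.lenE _ (inv_mem h') a⁻¹
    rw [mul_inv_rev, inv_inv, mul_assoc, mul_inv_cancel, mul_one] at h1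
    exact h1.symm

theorem hnn_ne (e : G ⧸ T.E) : hnnO T e ≠ hnnT T e := by
  induction e using QuotientGroup.induction_on with
  | H g =>
    intro h
    have h1 : g⁻¹ * (g * T.t) ∈ T.H := QuotientGroup.eq.1 h
    rw [inv_mul_cancel_left] at h1
    have h2 := T.rightH _ T.t_mem _ (inv_mem h1)
    rw [mul_inv_cancel] at h2
    exact T.one_notMem h2

theorem hnn_acyc (c : (G ⧸ T.E) →₀ ℤ)
    (hc : c.mapDomain (hnnT T) = c.mapDomain (hnnO T)) : c = 0 := by
  refine act_acyc _ _ (hnnL T) ?_ c hc
  intro e
  have hne := hnn_ne T e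
  induction e using QuotientGroup.induction_on with
  | H g =>
    by_cases hg : g⁻¹ ∈ T.E ∨ g⁻¹ ∈ T.V
    · left
      refine ⟨hne, fun e' he' h => ?_⟩
      induction e' using QuotientGroup.induction_on with
      | H g' =>
        change T.len g⁻¹ < T.len g'⁻¹
        rcases h with h | h
        · have h1 : g'⁻¹ * g ∈ T.H := QuotientGroup.eq.1 h
          have h2 : g'⁻¹ * g ∉ T.E := fun h2 => he' (QuotientGroup.eq.2 h2)
          have h3 := (T.mp _ h1 h2 g⁻¹ hg).2.2
          rw [mul_inv_cancel_right] at h3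
          omega
        · have h1 : (g' * T.t)⁻¹ * g ∈ T.H := QuotientGroup.eq.1 h
          have h3 := (T.pp _ h1 g⁻¹ hg).2
          have h4 : T.t * ((g' * T.t)⁻¹ * g) * g⁻¹ = g'⁻¹ := by group
          rw [h4] at h3
          omega
    · right
      refine ⟨hne, fun e' he' h => ?_⟩
      have hV : g⁻¹ ∉ T.V := fun h => hg (Or.inr h)
      induction e' using QuotientGroup.induction_on with
      | H g' =>
        change T.len g⁻¹ < T.len g'⁻¹
        rcases h with h | h
        · have h1 : g'⁻¹ * (g * T.t) ∈ T.H := QuotientGroup.eq.1 h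
          have h3 := (T.mm _ h1 g⁻¹ hV).2.2
          have h4 : g'⁻¹ * (g * T.t) * T.t⁻¹ * g⁻¹ = g'⁻¹ := by group
          rw [h4] at h3
          omega
        · have h1 : (g' * T.t)⁻¹ * (g * T.t) ∈ T.H := QuotientGroup.eq.1 h
          have h5 : T.t * ((g' * T.t)⁻¹ * (g * T.t)) * T.t⁻¹ = g'⁻¹ * g := by group
          have h2 : T.t * ((g' * T.t)⁻¹ * (g * T.t)) * T.t⁻¹ ∉ T.E := by
            rw [h5]
            exact fun h2 => he' (QuotientGroup.eq.2 h2)
          have h3 := (T.pm _ h1 h2 g⁻¹ hV).2
          rw [h5, mul_inv_cancel_right] at h3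
          omega

/-- The Bass–Serre tree of an HNN extension. -/
noncomputable def hnnAct : TreeAct G where
  V := G ⧸ T.H
  Ed := G ⧸ T.E
  actV := inferInstance
  actE := inferInstance
  o := hnnO T
  t := hnnT T
  o_smul g e := by
    induction e using QuotientGroup.induction_on with
    | H x => rfl
  t_smul g e := by
    induction e using QuotientGroup.induction_on with
    | H x =>
      change (QuotientGroup.mk (g * x * T.t) : G ⧸ T.H) = QuotientGroup.mk (g * (x * T.t))
      rw [mul_assoc]
  root := QuotientGroup.mk 1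
  acyc := hnn_acyc T
  conn v := by
    have hP := act_conn (G := G) (V := G ⧸ T.H) (Ed := G ⧸ T.E) (hnnO T) (hnnT T)
      (fun g e => by
        induction e using QuotientGroup.induction_on with
        | H x => rfl)
      (fun g e => by
        induction e using QuotientGroup.induction_on with
        | H x =>
          change (QuotientGroup.mk (g * x * T.t) : G ⧸ T.H) = QuotientGroup.mk (g * (x * T.t))
          rw [mul_assoc]) (QuotientGroup.mk 1) _ T.gen (by
      intro g hg
      rcases hg with hg | hg
      · refine ⟨0, ?_⟩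
        have h1 : g • (QuotientGroup.mk 1 : G ⧸ T.H) = QuotientGroup.mk 1 := by
          refine QuotientGroup.eq.2 ?_
          simpa using hg
        rw [Finsupp.mapDomain_zero, Finsupp.mapDomain_zero, h1, sub_self, sub_self]
      · have hg' : g = T.t := hg
        subst hg'
        refine ⟨single (QuotientGroup.mk 1) 1, ?_⟩
        rw [Finsupp.mapDomain_single, Finsupp.mapDomain_single]
        change single (QuotientGroup.mk (1 * T.t)) 1 - single (QuotientGroup.mk 1) 1 =
          single (QuotientGroup.mk (T.t * 1)) 1 - single (QuotientGroup.mk 1) 1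
        rw [one_mul, mul_one])
    induction v using QuotientGroup.induction_on with
    | H g =>
      obtain ⟨c, hc⟩ := hP g
      refine ⟨c, ?_⟩
      rw [hc]
      change single (QuotientGroup.mk (g * 1)) 1 - _ = _
      rw [mul_one]

end Hnn

end Pool.Agent.WaldL
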