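import Pool.Agent.Lib.MP_8f66f0_al_WaldL.CdTree
import Pool.Agent.Lib.MP_8f66f0_al_WaldL.CdAct
import Pool.Agent.Lib.MP_8f66f0_al_Wald.AmPush
import Pool.Agent.Lib.MP_8f66f0_al_Wald.HnnExt

/-! The cohomological dimension of amalgams and HNN extensions. -/

set_option autoImplicit false

namespace Pool.Agent.WaldL

open Pool.Agent.Wald Pool.Agent.WaldT

/-- The stabilizers of the action on cosets. -/
theorem stab_cd {G : Type} [Group G] (A : Subgroup G) {n : ℕ} (h : Wald.CdLE n A) (x : G ⧸ A) :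
    Wald.CdLE n (MulAction.stabilizer G x) := by
  induction x using QuotientGroup.induction_on with
  | H g =>
    have hm : ∀ s : MulAction.stabilizer G (QuotientGroup.mk g : G ⧸ A),
        g⁻¹ * (s : G) * g ∈ A := by
      rintro ⟨s, hs⟩
      have h1 : (QuotientGroup.mk (s * g) : G ⧸ A) = QuotientGroup.mk g := hs
      have h2 := QuotientGroup.eq.1 h1.symm
      rwa [← mul_assoc] at h2
    let f : MulAction.stabilizer G (QuotientGroup.mk g : G ⧸ A) →* A :=
      { toFun := fun s => ⟨g⁻¹ * (s : G) * g, hm s⟩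
        map_one' := Subtype.ext (by
          change g⁻¹ * 1 * g = 1
          rw [mul_one, inv_mul_cancel])
        map_mul' := fun s s' => Subtype.ext (by
          change g⁻¹ * (s * s') * g = g⁻¹ * s * g * (g⁻¹ * s' * g)
          group) }
    refine cdLE_sub f ?_ h
    rintro ⟨s, hs⟩ ⟨s', hs'⟩ hss
    have h3 : g⁻¹ * s * g = g⁻¹ * s' * g := congrArg Subtype.val hss
    exact Subtype.ext (mul_left_cancel (mul_right_cancel h3))

theorem cdLE_le {G : Type} [Group G] {A B : Subgroup G} (hAB : A ≤ B) {n : ℕ}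
    (h : Wald.CdLE n B) : Wald.CdLE n A :=
  cdLE_sub (Subgroup.inclusion hAB) (Subgroup.inclusion_injective hAB) h

theorem cdLE_am {G : Type} [Group G] (T : AmTree G) (n : ℕ) (hA : Wald.CdLE (n + 1) T.A)
    (hB : Wald.CdLE (n + 1) T.B) (hE : Wald.CdLE n (T.A ⊓ T.B : Subgroup G)) :
    Wald.CdLE (n + 1) G := by
  refine cdLE_tree (amAct T) n (fun v => ?_) (fun e => stab_cd _ hE e)
  let v' : (G ⧸ T.A) ⊕ (G ⧸ T.B) := v
  change Wald.CdLE (n + 1) (MulAction.stabilizer G v')
  rcases v' with x | x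
  · refine cdLE_le ?_ (stab_cd T.A hA x)
    intro g hg
    exact Sum.inl_injective (show Sum.inl (g • x) = Sum.inl x from hg)
  · refine cdLE_le ?_ (stab_cd T.B hB x)
    intro g hg
    exact Sum.inr_injective (show Sum.inr (g • x) = Sum.inr x from hg)

theorem cdLE_hn {G : Type} [Group G] (T : HnnTree G) (n : ℕ) (hH : Wald.CdLE (n + 1) T.H)
    (hE : Wald.CdLE n T.E) : Wald.CdLE (n + 1) G :=
  cdLE_tree (hnnAct T) n (fun v => stab_cd _ hH v) (fun e => stab_cd _ hE e)

/-- Amalgams. -/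
theorem cdLE_pushout (G : Bool → Type) [∀ i, Group (G i)] (E : Type) [Group E]
    (φ : ∀ i, E →* G i) (hφ : ∀ i, Function.Injective (φ i)) (n : ℕ)
    (hG : ∀ i, Wald.CdLE (n + 1) (G i)) (hE : Wald.CdLE n E) :
    Wald.CdLE (n + 1) (Monoid.PushoutI φ) := by
  obtain ⟨T, hTA, hTB, hTE⟩ := amTree_pushout G E φ hφ
  have hb : Function.Injective (Monoid.PushoutI.base φ) := by
    rw [← Monoid.PushoutI.of_comp_eq_base (φ := φ) true]
    exact (Monoid.PushoutI.of_injective hφ true).comp (hφ true)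
  refine cdLE_am T n ?_ ?_ ?_
  · rw [hTA]
    exact cdLE_equiv (MonoidHom.ofInjective (Monoid.PushoutI.of_injective hφ true)).symm (hG true)
  · rw [hTB]
    exact cdLE_equiv (MonoidHom.ofInjective (Monoid.PushoutI.of_injective hφ false)).symm (hG false)
  · rw [hTE]
    exact cdLE_equiv (MonoidHom.ofInjective hb).symm hE

/-- HNN extensions. -/
theorem cdLE_hnn (G : Type) [Group G] (A B : Subgroup G) (φ : A ≃* B) (n : ℕ)
    (hG : Wald.CdLE (n + 1) G) (hA : Wald.CdLE n A) :
    Wald.CdLE (n + 1) (HNNExtension G A B φ) := by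
  obtain ⟨T, hTH, hTt, hTE⟩ := hnnTree_ext G A B φ
  refine cdLE_hn T n ?_ ?_
  · rw [hTH]
    exact cdLE_equiv (MonoidHom.ofInjective (HNNExtension.of_injective φ)).symm hG
  · rw [hTE]
    have hinj : Function.Injective ((HNNExtension.of (φ := φ)).comp B.subtype) :=
      (HNNExtension.of_injective φ).comp Subtype.val_injective
    exact cdLE_equiv (MonoidHom.ofInjective hinj).symm (cdLE_equiv φ.symm hA)

end Pool.Agent.WaldL
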