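import Pool.Agent.Lib.MP_8f66f0_al_WaldL.CdRst

/-! Permutation modules: the projective dimension is bounded by that of the stabilizers. -/

set_option autoImplicit false

namespace Pool.Agent.WaldL

open CategoryTheory Pool.Agent.Wald

/-- Lifting along a surjection, equivariantly for a subgroup. -/
theorem per_lift {H E : Type} [Group H] [Group E] (φ : H →* E) {Z N Q : Type} [AddCommGroup Z]
    [Module (MonoidAlgebra ℤ E) Z] [AddCommGroup N] [Module (MonoidAlgebra ℤ E) N] [AddCommGroup Q]
    [Module (MonoidAlgebra ℤ E) Q] (hZ : Module.Projective (MonoidAlgebra ℤ H) (Rst (inc φ) Z))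
    (f : N →ₗ[MonoidAlgebra ℤ E] Q) (hf : Function.Surjective f) (g : Z →+ Q)
    (hg : ∀ (h : H) (z : Z), g ((MonoidAlgebra.single (φ h) (1 : ℤ) : MonoidAlgebra ℤ E) • z) =
      (MonoidAlgebra.single (φ h) (1 : ℤ) : MonoidAlgebra ℤ E) • g z) :
    ∃ s : Z →+ N, (∀ z, f (s z) = g z) ∧ ∀ (h : H) (z : Z),
      s ((MonoidAlgebra.single (φ h) (1 : ℤ) : MonoidAlgebra ℤ E) • z) =
        (MonoidAlgebra.single (φ h) (1 : ℤ) : MonoidAlgebra ℤ E) • s z := by
  have hinc : ∀ (h : H) (a : ℤ), inc φ (MonoidAlgebra.single h a) =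
      a • (MonoidAlgebra.single (φ h) (1 : ℤ) : MonoidAlgebra ℤ E) := by
    intro h a
    rw [MonoidAlgebra.mapDomainRingHom_apply, MonoidAlgebra.mapDomain_single,
      MonoidAlgebra.smul_single, smul_eq_mul, mul_one]
  have hg' : ∀ (r : MonoidAlgebra ℤ H) (z : Z), g (inc φ r • z) = inc φ r • g z := by
    intro r z
    induction r using MonoidAlgebra.induction_linear with
    | zero => rw [map_zero, zero_smul, zero_smul, map_zero]
    | add x y hx hy => rw [map_add, add_smul, add_smul, map_add, hx, hy]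
    | single h a => rw [hinc, smul_assoc, smul_assoc, map_zsmul, hg]
  let g' : Rst (inc φ) Z →ₗ[MonoidAlgebra ℤ H] Rst (inc φ) Q :=
    { toFun := g
      map_add' := g.map_add
      map_smul' := hg' }
  obtain ⟨s, hs⟩ := Module.projective_lifting_property (Rst.map (inc φ) f) g' hf
  have hs1 : ∀ (h : H) (z : Z), inc φ (MonoidAlgebra.single h (1 : ℤ)) • z =
      (MonoidAlgebra.single (φ h) (1 : ℤ) : MonoidAlgebra ℤ E) • z := by
    intro h z
    rw [hinc, one_smul]
  have hs2 : ∀ (h : H) (z : N), inc φ (MonoidAlgebra.single h (1 : ℤ)) • z =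
      (MonoidAlgebra.single (φ h) (1 : ℤ) : MonoidAlgebra ℤ E) • z := by
    intro h z
    rw [hinc, one_smul]
  refine ⟨s.toAddMonoidHom, fun z => LinearMap.congr_fun hs z, fun h z => ?_⟩
  rw [← hs1, ← hs2]
  exact s.map_smul (MonoidAlgebra.single h (1 : ℤ)) z

section Per

variable (E X : Type) [Group E] [MulAction E X]

/-- The diagonal action of one element on `ℤX ⊗ Z`. -/
noncomputable def perAct (Z : Type) [AddCommGroup Z] [Module (MonoidAlgebra ℤ E) Z] (g : E) :
    (X →₀ Z) →ₗ[ℤ] (X →₀ Z) :=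
  (Finsupp.lmapDomain Z ℤ (fun x : X => g • x)) ∘ₗ (Finsupp.mapRange.linearMap
    (Algebra.lsmul ℤ ℤ Z (MonoidAlgebra.single g (1 : ℤ) : MonoidAlgebra ℤ E)))

theorem perAct_single (Z : Type) [AddCommGroup Z] [Module (MonoidAlgebra ℤ E) Z] (g : E) (x : X)
    (z : Z) : perAct E X Z g (Finsupp.single x z) =
      Finsupp.single (g • x) ((MonoidAlgebra.single g (1 : ℤ) : MonoidAlgebra ℤ E) • z) := by
  unfold perAct
  rw [LinearMap.comp_apply, Finsupp.mapRange.linearMap_apply, Finsupp.mapRange_single,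
    Finsupp.lmapDomain_apply, Finsupp.mapDomain_single]
  rfl

/-- The module `ℤX ⊗ Z` with the diagonal action. -/
noncomputable def perRep (Z : Type) [AddCommGroup Z] [Module (MonoidAlgebra ℤ E) Z] :
    Representation ℤ E (X →₀ Z) where
  toFun g := perAct E X Z g
  map_one' := by
    refine Finsupp.lhom_ext fun x z => ?_
    rw [perAct_single, one_smul, ← MonoidAlgebra.one_def, one_smul]
    rfl
  map_mul' g h := by
    refine Finsupp.lhom_ext fun x z => ?_
    rw [Module.End.mul_apply, perAct_single, perAct_single, perAct_single, ← mul_smul, ← mul_smul,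
      MonoidAlgebra.single_mul_single, one_mul]

theorem perRep_single (Z : Type) [AddCommGroup Z] [Module (MonoidAlgebra ℤ E) Z] (g : E) (x : X)
    (z : Z) : perRep E X Z g (Finsupp.single x z) =
      Finsupp.single (g • x) ((MonoidAlgebra.single g (1 : ℤ) : MonoidAlgebra ℤ E) • z) :=
  perAct_single E X Z g x z

/-- `ℤX ⊗ Z` as a module. -/
abbrev Per (Z : Type) [AddCommGroup Z] [Module (MonoidAlgebra ℤ E) Z] : Type :=
  (perRep E X Z).asModule

variable {X}

/-- The generators. -/
noncomputable def per (Z : Type) [AddCommGroup Z] [Module (MonoidAlgebra ℤ E) Z] :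
    (X →₀ Z) ≃+ Per E X Z := (perRep E X Z).asModuleEquiv.symm.toAddEquiv

theorem per_smul (Z : Type) [AddCommGroup Z] [Module (MonoidAlgebra ℤ E) Z] (g : E)
    (v : X →₀ Z) : (MonoidAlgebra.single g (1 : ℤ) : MonoidAlgebra ℤ E) • per E Z v =
      per E Z (perRep E X Z g v) := by
  have h := Representation.asModuleEquiv_symm_map_rho (perRep E X Z) g v
  rw [MonoidAlgebra.of_apply] at h
  exact h.symm

theorem per_smul_single (Z : Type) [AddCommGroup Z] [Module (MonoidAlgebra ℤ E) Z] (g : E)
    (x : X) (z : Z) : (MonoidAlgebra.single g (1 : ℤ) : MonoidAlgebra ℤ E) •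
      per E Z (Finsupp.single x z) =
      per E Z (Finsupp.single (g • x)
        ((MonoidAlgebra.single g (1 : ℤ) : MonoidAlgebra ℤ E) • z)) := by
  rw [per_smul, perRep_single]

variable {E}

/-- Construction of linear maps on `ℤX ⊗ Z`. -/
theorem per_lin (Z N : Type) [AddCommGroup Z] [Module (MonoidAlgebra ℤ E) Z] [AddCommGroup N]
    [Module (MonoidAlgebra ℤ E) N] (f : (X →₀ Z) →+ N)
    (hf : ∀ (g : E) (x : X) (z : Z), f (Finsupp.single (g • x)
      ((MonoidAlgebra.single g (1 : ℤ) : MonoidAlgebra ℤ E) • z)) =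
      (MonoidAlgebra.single g (1 : ℤ) : MonoidAlgebra ℤ E) • f (Finsupp.single x z)) :
    ∃ F : Per E X Z →ₗ[MonoidAlgebra ℤ E] N, ∀ v, F (per E Z v) = f v := by
  refine DiagMap.exists_lin (k := ℤ) (perRep E X Z) f.toIntLinearMap fun g v => ?_
  change f (perRep E X Z g v) = (MonoidAlgebra.single g (1 : ℤ) : MonoidAlgebra ℤ E) • f v
  induction v using Finsupp.induction_linear with
  | zero => rw [map_zero, map_zero, smul_zero]
  | add v w hv hw => rw [map_add, map_add, map_add, smul_add, hv, hw]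
  | single x z => rw [perRep_single, hf]

/-- Lemma A. -/
theorem per_proj (Z : Type) [AddCommGroup Z] [Module (MonoidAlgebra ℤ E) Z]
    (hZ : ∀ x : X, Module.Projective (MonoidAlgebra ℤ (MulAction.stabilizer E x))
      (Rst (inc (MulAction.stabilizer E x).subtype) Z)) :
    Module.Projective (MonoidAlgebra ℤ E) (Per E X Z) := by
  refine Module.Projective.of_lifting_property'' fun f hf => ?_
  set N : Type := (Per E X Z →₀ MonoidAlgebra ℤ E)
  -- equivariant lifts at the points
  have h1 : ∀ y : X, ∃ s : Z →+ N, (∀ z, f (s z) = per E Z (Finsupp.single y z)) ∧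
      ∀ (h : MulAction.stabilizer E y) (z : Z),
      s ((MonoidAlgebra.single (h : E) (1 : ℤ) : MonoidAlgebra ℤ E) • z) =
        (MonoidAlgebra.single (h : E) (1 : ℤ) : MonoidAlgebra ℤ E) • s z := by
    intro y
    refine per_lift (MulAction.stabilizer E y).subtype (hZ y) f hf
      ((per E Z).toAddMonoidHom.comp (Finsupp.singleAddHom y)) fun h z => ?_
    change per E Z (Finsupp.single y _) = _ • per E Z (Finsupp.single y z)
    rw [per_smul_single]
    have h2 : ((MulAction.stabilizer E y).subtype h) • y = y := h.2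
    rw [h2]
  choose σ hσ1 hσ2 using h1
  -- representatives
  let rep : X → X := fun x => Quotient.out (Quotient.mk (MulAction.orbitRel E X) x)
  have hrep : ∀ x, ∃ t : E, t • rep x = x := by
    intro x
    have h : (MulAction.orbitRel E X) (rep x) x := Quotient.mk_out x
    obtain ⟨g, hg⟩ := (MulAction.orbitRel_apply.1 h)
    refine ⟨g⁻¹, ?_⟩
    rw [← hg]
    exact inv_smul_smul g x
  choose t ht using hrep
  have hrep2 : ∀ (g : E) (x : X), rep (g • x) = rep x := by
    intro g x
    have h : Quotient.mk (MulAction.orbitRel E X) (g • x) = Quotient.mk _ x :=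
      Quotient.sound (MulAction.orbitRel_apply.2 ⟨g, rfl⟩)
    exact congrArg Quotient.out h
  let a : E → Z →+ Z := fun g => (DistribSMul.toAddMonoidHom Z
    (MonoidAlgebra.single g (1 : ℤ) : MonoidAlgebra ℤ E) : Z →+ Z)
  let b : E → N →+ N := fun g => (DistribSMul.toAddMonoidHom N
    (MonoidAlgebra.single g (1 : ℤ) : MonoidAlgebra ℤ E) : N →+ N)
  let s : (X →₀ Z) →+ N := Finsupp.liftAddHom fun x =>
    (b (t x)).comp ((σ (rep x)).comp (a (t x)⁻¹))
  have hs : ∀ x z, s (Finsupp.single x z) = (MonoidAlgebra.single (t x) (1 : ℤ) :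
      MonoidAlgebra ℤ E) • σ (rep x) ((MonoidAlgebra.single (t x)⁻¹ (1 : ℤ) :
        MonoidAlgebra ℤ E) • z) := by
    intro x z
    change Finsupp.liftAddHom _ (Finsupp.single x z) = _
    rw [Finsupp.liftAddHom_apply_single]
    rfl
  obtain ⟨F, hF⟩ := per_lin Z N s (by
    intro g x z
    rw [hs, hs, hrep2]
    -- the element of the stabilizer
    have hh : (t (g • x))⁻¹ * g * t x ∈ MulAction.stabilizer E (rep x) := by
      rw [MulAction.mem_stabilizer_iff, mul_smul, mul_smul, ht]
      have h3 := ht (g • x)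
      rw [hrep2] at h3
      rw [inv_smul_eq_iff, h3]
    have h4 : σ (rep x) ((MonoidAlgebra.single ((t (g • x))⁻¹ * g * t x) (1 : ℤ) :
        MonoidAlgebra ℤ E) • (MonoidAlgebra.single (t x)⁻¹ (1 : ℤ) : MonoidAlgebra ℤ E) • z) =
        (MonoidAlgebra.single ((t (g • x))⁻¹ * g * t x) (1 : ℤ) : MonoidAlgebra ℤ E) •
          σ (rep x) ((MonoidAlgebra.single (t x)⁻¹ (1 : ℤ) : MonoidAlgebra ℤ E) • z) :=
      hσ2 (rep x) ⟨_, hh⟩ _
    have e1 : (MonoidAlgebra.single ((t (g • x))⁻¹ * g * t x) (1 : ℤ) : MonoidAlgebra ℤ E) •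
        (MonoidAlgebra.single (t x)⁻¹ (1 : ℤ) : MonoidAlgebra ℤ E) • z =
        (MonoidAlgebra.single (t (g • x))⁻¹ (1 : ℤ) : MonoidAlgebra ℤ E) •
        (MonoidAlgebra.single g (1 : ℤ) : MonoidAlgebra ℤ E) • z := by
      rw [← mul_smul, ← mul_smul, MonoidAlgebra.single_mul_single,
        MonoidAlgebra.single_mul_single, mul_inv_cancel_right]
    rw [e1] at h4
    rw [h4, ← mul_smul, ← mul_smul, MonoidAlgebra.single_mul_single,
      MonoidAlgebra.single_mul_single, one_mul, mul_assoc, mul_inv_cancel_left])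
  refine ⟨F, LinearMap.ext fun v => ?_⟩
  obtain ⟨v, rfl⟩ := (per E Z).surjective v
  rw [LinearMap.comp_apply, hF, LinearMap.id_apply]
  induction v using Finsupp.induction_linear with
  | zero => rw [map_zero, map_zero, map_zero]
  | add v w hv hw => rw [map_add, map_add, map_add, hv, hw]
  | single x z =>
    rw [hs, map_smul, hσ1, per_smul_single, ht, ← mul_smul, MonoidAlgebra.single_mul_single,
      mul_inv_cancel, one_mul, ← MonoidAlgebra.one_def, one_smul]

/-- Functoriality. -/
theorem per_map {Z Z' : Type} [AddCommGroup Z] [Module (MonoidAlgebra ℤ E) Z] [AddCommGroup Z']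
    [Module (MonoidAlgebra ℤ E) Z'] (f : Z →ₗ[MonoidAlgebra ℤ E] Z') :
    ∃ F : Per E X Z →ₗ[MonoidAlgebra ℤ E] Per E X Z', ∀ v,
      F (per E Z v) = per E Z' (Finsupp.mapRange f (map_zero f) v) := by
  obtain ⟨F, hF⟩ := per_lin (E := E) (X := X) Z (Per E X Z')
    ((per E Z').toAddMonoidHom.comp (Finsupp.mapRange.addMonoidHom f.toAddMonoidHom)) (by
      intro g x z
      change per E Z' (Finsupp.mapRange f (map_zero f) (Finsupp.single _ _)) =
        _ • per E Z' (Finsupp.mapRange f (map_zero f) (Finsupp.single _ _))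
      rw [Finsupp.mapRange_single, Finsupp.mapRange_single, per_smul_single, map_smul])
  exact ⟨F, hF⟩

/-- Lemma B: the projective dimension of `ℤX ⊗ Z`. -/
theorem per_pdLT (n : ℕ) : ∀ (Z : Type) [AddCommGroup Z] [Module (MonoidAlgebra ℤ E) Z],
    (∀ x : X, PdLT (MonoidAlgebra ℤ (MulAction.stabilizer E x))
      (Rst (inc (MulAction.stabilizer E x).subtype) Z) (n + 1)) →
    PdLT (MonoidAlgebra ℤ E) (Per E X Z) (n + 1) := by
  induction n with
  | zero =>
    intro Z _ _ hZ
    exact pdLT_one.2 (per_proj Z fun x => pdLT_one.1 (hZ x))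
  | succ n ih =>
    intro Z _ _ hZ
    obtain ⟨F1, hF1⟩ := per_map (E := E) (X := X) (Z := LinearMap.ker (cover (MonoidAlgebra ℤ E) Z))
      (Z' := Z →₀ MonoidAlgebra ℤ E) (LinearMap.ker (cover (MonoidAlgebra ℤ E) Z)).subtype
    obtain ⟨F2, hF2⟩ := per_map (E := E) (X := X) (Z := Z →₀ MonoidAlgebra ℤ E) (Z' := Z)
      (cover (MonoidAlgebra ℤ E) Z)
    have hp : ∀ x : X, Module.Projective (MonoidAlgebra ℤ (MulAction.stabilizer E x))
        (Rst (inc (MulAction.stabilizer E x).subtype) (MonoidAlgebra ℤ E)) := fun x =>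
      rst_gr _ (MulAction.stabilizer E x).subtype_injective
    have h1 : PdLT (MonoidAlgebra ℤ E) (Per E X (LinearMap.ker (cover (MonoidAlgebra ℤ E) Z)))
        (n + 1) := ih _ fun x => by
      have := hp x
      exact Rst.ker_pdLT _ (hZ x)
    have h2 : PdLT (MonoidAlgebra ℤ E) (Per E X (Z →₀ MonoidAlgebra ℤ E)) 1 :=
      pdLT_one.2 (per_proj _ fun x => by
        have := hp x
        exact Rst.proj_free _ Z)
    refine pdLT_X3 F1 F2 ?_ ?_ ?_ (n + 1) h1 (h2.mono (by omega))
    · intro v w hvw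
      obtain ⟨v, rfl⟩ := (per E _).surjective v
      obtain ⟨w, rfl⟩ := (per E _).surjective w
      rw [hF1, hF1] at hvw
      rw [Finsupp.mapRange_injective _ (map_zero _) Subtype.val_injective
        ((per E _).injective hvw)]
    · intro v
      obtain ⟨v, rfl⟩ := (per E _).surjective v
      rw [hF2, map_eq_zero_iff _ (per E Z).injective]
      constructor
      · intro hv
        have h3 : ∀ x, cover (MonoidAlgebra ℤ E) Z (v x) = 0 := fun x => by
          have h4 := DFunLike.congr_fun hv x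
          rwa [Finsupp.mapRange_apply] at h4
        refine ⟨per E _ (Finsupp.onFinset v.support
          (fun x => (⟨v x, h3 x⟩ : LinearMap.ker (cover (MonoidAlgebra ℤ E) Z))) ?_), ?_⟩
        · intro x hx
          rw [Finsupp.mem_support_iff]
          intro h5
          exact hx (Subtype.ext h5)
        · rw [hF1]
          congr 1
          exact Finsupp.ext fun x => rfl
      · rintro ⟨w, hw⟩
        obtain ⟨w, rfl⟩ := (per E _).surjective w
        rw [hF1] at hw
        have h6 := (per E _).injective hw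
        rw [← h6]
        ext1 x
        rw [Finsupp.mapRange_apply, Finsupp.mapRange_apply]
        exact (w x).2
    · intro v
      obtain ⟨v, rfl⟩ := (per E Z).surjective v
      obtain ⟨w, hw⟩ := Finsupp.mapRange_surjective (cover (MonoidAlgebra ℤ E) Z) (map_zero _)
        (cover_surj (MonoidAlgebra ℤ E) Z) v
      exact ⟨per E _ w, by rw [hF2, hw]⟩

end Per

end Pool.Agent.WaldL
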