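import Pool.Agent.Lib.MP_8f66f0_al_Wald.DiagMap
import Pool.Agent.Lib.MP_8f66f0_al_Wald.GrFree

/-! Restriction of scalars does not increase the projective dimension, if the larger ring is
projective over the smaller one. -/

set_option autoImplicit false

namespace Pool.Agent.WaldL

open CategoryTheory Pool.Agent.Wald

/-- Projective dimension less than `n`. -/
abbrev PdLT (R M : Type) [Ring R] [AddCommGroup M] [Module R M] (n : ℕ) : Prop :=
  HasProjectiveDimensionLT (ModuleCat.of R M) n

theorem pdLT_one {R M : Type} [Ring R] [AddCommGroup M] [Module R M] :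
    PdLT R M 1 ↔ Module.Projective R M := by
  rw [PdLT, ← projective_iff_hasProjectiveDimensionLT_one, IsProjective.iff_projective]

theorem PdLT.mono {R M : Type} [Ring R] [AddCommGroup M] [Module R M] {m n : ℕ}
    (h : PdLT R M m) (hmn : m ≤ n) : PdLT R M n :=
  hasProjectiveDimensionLT_of_ge _ m _ hmn

theorem PdLT.equiv {R M N : Type} [Ring R] [AddCommGroup M] [Module R M] [AddCommGroup N]
    [Module R N] {n : ℕ} (h : PdLT R M n) (e : M ≃ₗ[R] N) : PdLT R N n :=
  hasProjectiveDimensionLT_of_iso e.toModuleIso n

section Ses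

variable {R A B C : Type} [Ring R] [AddCommGroup A] [Module R A] [AddCommGroup B] [Module R B]
  [AddCommGroup C] [Module R C] (f : A →ₗ[R] B) (g : B →ₗ[R] C)

theorem pdLT_X3 (hf : Function.Injective f) (hfg : Function.Exact f g)
    (hg : Function.Surjective g) (n : ℕ) (hA : PdLT R A n) (hB : PdLT R B (n + 1)) :
    PdLT R C (n + 1) := by
  have hse := ModuleCat.shortComplex_shortExact
    (ModuleCat.shortComplexOfCompEqZero f g (LinearMap.ext fun x => (hfg _).mpr ⟨x, rfl⟩))
    hfg hf hg
  exact hse.hasProjectiveDimensionLT_X₃ n hA hB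

theorem pdLT_X1 (hf : Function.Injective f) (hfg : Function.Exact f g)
    (hg : Function.Surjective g) (n : ℕ) (hB : PdLT R B n) (hC : PdLT R C (n + 1)) :
    PdLT R A n := by
  have hse := ModuleCat.shortComplex_shortExact
    (ModuleCat.shortComplexOfCompEqZero f g (LinearMap.ext fun x => (hfg _).mpr ⟨x, rfl⟩))
    hfg hf hg
  exact hse.hasProjectiveDimensionLT_X₁ n hB hC

end Ses

/-- A free cover. -/
noncomputable def cover (R M : Type) [Ring R] [AddCommGroup M] [Module R M] :
    (M →₀ R) →ₗ[R] M := Finsupp.linearCombination R (id : M → M)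

theorem cover_surj (R M : Type) [Ring R] [AddCommGroup M] [Module R M] :
    Function.Surjective (cover R M) := fun m => ⟨Finsupp.single m 1, by
      unfold cover
      rw [Finsupp.linearCombination_single, one_smul]
      rfl⟩

theorem cover_exact (R M : Type) [Ring R] [AddCommGroup M] [Module R M] :
    Function.Exact (LinearMap.ker (cover R M)).subtype (cover R M) := by
  intro x
  constructor
  · intro hx
    exact ⟨⟨x, hx⟩, rfl⟩
  · rintro ⟨y, rfl⟩
    exact y.2

theorem cover_ker {R M : Type} [Ring R] [AddCommGroup M] [Module R M] (n : ℕ)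
    (h : PdLT R M (n + 2)) : PdLT R (LinearMap.ker (cover R M)) (n + 1) :=
  pdLT_X1 (LinearMap.ker (cover R M)).subtype (cover R M) Subtype.val_injective
    (cover_exact R M) (cover_surj R M) (n + 1) ((pdLT_one.2 inferInstance).mono (by omega)) h

/-- A module over the ring `S`, as a module over `R`. -/
def Rst {R S : Type} [Ring R] [Ring S] (_ : R →+* S) (M : Type) : Type := M

section Rst

variable {R S : Type} [Ring R] [Ring S] (f : R →+* S)

instance Rst.grp (M : Type) [h : AddCommGroup M] : AddCommGroup (Rst f M) := h

instance Rst.mod (M : Type) [AddCommGroup M] [Module S M] : Module R (Rst f M) :=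
  (Module.compHom M f : Module R M)

/-- A linear map, restricted. -/
def Rst.map {A B : Type} [AddCommGroup A] [Module S A] [AddCommGroup B] [Module S B]
    (g : A →ₗ[S] B) : Rst f A →ₗ[R] Rst f B where
  toFun := g
  map_add' := g.map_add
  map_smul' r x := g.map_smul (f r) x

/-- Free modules, restricted. -/
def Rst.finsupp (J : Type) : Rst f (J →₀ S) ≃ₗ[R] (J →₀ Rst f S) where
  toFun x := x
  invFun x := x
  left_inv _ := rfl
  right_inv _ := rfl
  map_add' _ _ := rfl
  map_smul' _ _ := rfl

theorem Rst.proj_free [Module.Projective R (Rst f S)] (J : Type) :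
    Module.Projective R (Rst f (J →₀ S)) := by
  classical
  have h : Module.Projective R (J →₀ Rst f S) :=
    Module.Projective.of_equiv (finsuppLequivDFinsupp R).symm
  exact Module.Projective.of_equiv (Rst.finsupp f J).symm

theorem Rst.pdLT [Module.Projective R (Rst f S)] (n : ℕ) :
    ∀ (M : Type) [AddCommGroup M] [Module S M], PdLT S M (n + 1) → PdLT R (Rst f M) (n + 1) := by
  induction n with
  | zero =>
    intro M _ _ hM
    obtain ⟨s, hs⟩ := Module.projective_def'.1 (pdLT_one.1 hM)
    have h := Rst.proj_free f M
    refine pdLT_one.2 (Module.Projective.of_split (M := Rst f (M →₀ S)) (Rst.map f s)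
      (Rst.map f (Finsupp.linearCombination S (id : M → M))) ?_)
    exact LinearMap.ext fun x => LinearMap.congr_fun hs x
  | succ n ih =>
    intro M _ _ hM
    have h := Rst.proj_free f M
    let i : Rst f (LinearMap.ker (cover S M)) →ₗ[R] Rst f (M →₀ S) :=
      Rst.map f (LinearMap.ker (cover S M)).subtype
    have hi : Function.Injective i := (Subtype.val_injective : Function.Injective
      (LinearMap.ker (cover S M)).subtype)
    exact pdLT_X3 i (Rst.map f (cover S M)) hi (cover_exact S M) (cover_surj S M) (n + 1)
      (ih _ (cover_ker n hM)) ((pdLT_one.2 h).mono (by omega))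

/-- The first syzygy over the larger ring is one over the smaller ring. -/
theorem Rst.ker_pdLT [Module.Projective R (Rst f S)] {n : ℕ} {M : Type} [AddCommGroup M]
    [Module S M] (hM : PdLT R (Rst f M) (n + 2)) :
    PdLT R (Rst f (LinearMap.ker (cover S M))) (n + 1) := by
  have h := Rst.proj_free f M
  let i : Rst f (LinearMap.ker (cover S M)) →ₗ[R] Rst f (M →₀ S) :=
    Rst.map f (LinearMap.ker (cover S M)).subtype
  have hi : Function.Injective i := (Subtype.val_injective : Function.Injective
    (LinearMap.ker (cover S M)).subtype)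
  exact pdLT_X1 i (Rst.map f (cover S M)) hi (cover_exact S M) (cover_surj S M) (n + 1)
    ((pdLT_one.2 h).mono (by omega)) hM

end Rst

/-- The group ring of a group is projective over the group ring of a subgroup. -/
theorem rst_gr {H E : Type} [Group H] [Group E] (φ : H →* E) (hφ : Function.Injective φ) :
    Module.Projective (MonoidAlgebra ℤ H) (Rst (inc φ) (MonoidAlgebra ℤ E)) := by
  have h := free_gr φ hφ
  exact @Module.Projective.of_free (MonoidAlgebra ℤ H) _ (MonoidAlgebra ℤ E) _ (modH φ) h

/-- The trivial module, as a module over the group ring. -/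
abbrev Tv (E : Type) [Group E] : Type := (Representation.trivial ℤ E ℤ).asModule

theorem tv_smul {E : Type} [Group E] (g : E) (t : Tv E) :
    (MonoidAlgebra.single g (1 : ℤ) : MonoidAlgebra ℤ E) • t = t := by
  rw [Representation.single_smul, one_smul]
  rfl

/-- The restriction of the trivial module is trivial. -/
theorem rst_tv {H E : Type} [Group H] [Group E] (φ : H →* E) :
    Nonempty (Tv H ≃ₗ[MonoidAlgebra ℤ H] Rst (inc φ) (Tv E)) := by
  let e : ℤ →ₗ[ℤ] Rst (inc φ) (Tv E) :=
    ((Representation.trivial ℤ E ℤ).asModuleEquiv.symm.toAddMonoidHom.toIntLinearMap :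
      ℤ →ₗ[ℤ] Tv E)
  obtain ⟨F, hF⟩ := DiagMap.exists_lin (k := ℤ) (Representation.trivial ℤ H ℤ)
    (N := Rst (inc φ) (Tv E)) e (by
      intro g v
      change e v = inc φ (MonoidAlgebra.single g (1 : ℤ)) • (show Tv E from e v)
      have h1 : inc φ (MonoidAlgebra.single g (1 : ℤ)) = MonoidAlgebra.single (φ g) 1 := by
        rw [MonoidAlgebra.mapDomainRingHom_apply, MonoidAlgebra.mapDomain_single]
      rw [h1, tv_smul])
  have hb : Function.Bijective F := by
    have h1 : (F : Tv H → Rst (inc φ) (Tv E)) = fun x => e ((Representation.trivial ℤ H ℤ).asModuleEquiv x) := by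
      funext x
      have := hF ((Representation.trivial ℤ H ℤ).asModuleEquiv x)
      rw [LinearEquiv.symm_apply_apply] at this
      exact this
    rw [h1]
    exact (Representation.trivial ℤ E ℤ).asModuleEquiv.symm.bijective.comp
      (Representation.trivial ℤ H ℤ).asModuleEquiv.bijective
  exact ⟨LinearEquiv.ofBijective F hb⟩

end Pool.Agent.WaldL
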