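import Pool.Agent.Lib.MP_8f66f0_al_WaldL.CdPer
import Pool.Agent.Lib.MP_8f66f0_al_WaldT.Defs
import Pool.Agent.Lib.MP_8f66f0_al_Wald.PdN

/-! Groups acting on trees: the cohomological dimension is bounded by that of the vertex
stabilizers, and of the edge stabilizers plus one. -/

set_option autoImplicit false

namespace Pool.Agent.WaldL

open CategoryTheory Pool.Agent.Wald Pool.Agent.WaldT Finsupp

/-- A subgroup has at most the cohomological dimension of the group. -/
theorem cdLE_sub {H E : Type} [Group H] [Group E] (φ : H →* E) (hφ : Function.Injective φ)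
    {n : ℕ} (h : Wald.CdLE n E) : Wald.CdLE n H := by
  have h1 : PdLT (MonoidAlgebra ℤ E) (Tv E) (n + 1) := h
  have hp := rst_gr φ hφ
  have h2 := Rst.pdLT (inc φ) n (Tv E) h1
  obtain ⟨e⟩ := rst_tv φ
  exact h2.equiv e.symm

theorem cdLE_equiv {H E : Type} [Group H] [Group E] (e : H ≃* E) {n : ℕ} (h : Wald.CdLE n E) :
    Wald.CdLE n H := cdLE_sub e.toMonoidHom e.injective h

/-- The projective dimension of a permutation module. -/
theorem per_cd {E X : Type} [Group E] [MulAction E X] (n : ℕ)
    (h : ∀ x : X, Wald.CdLE n (MulAction.stabilizer E x)) :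
    PdLT (MonoidAlgebra ℤ E) (Per E X (Tv E)) (n + 1) := by
  refine per_pdLT n (Tv E) fun x => ?_
  obtain ⟨e⟩ := rst_tv (MulAction.stabilizer E x).subtype
  have h1 : PdLT (MonoidAlgebra ℤ (MulAction.stabilizer E x)) (Tv (MulAction.stabilizer E x))
      (n + 1) := h x
  exact h1.equiv e

/-- The map of permutation modules induced by an equivariant map. -/
theorem per_dom {E X Y : Type} [Group E] [MulAction E X] [MulAction E Y] (f : X → Y)
    (hf : ∀ (g : E) (x : X), f (g • x) = g • f x) :
    ∃ F : Per E X (Tv E) →ₗ[MonoidAlgebra ℤ E] Per E Y (Tv E), ∀ v,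
      F (per E (Tv E) v) = per E (Tv E) (v.mapDomain f) := by
  obtain ⟨F, hF⟩ := per_lin (E := E) (X := X) (Tv E) (Per E Y (Tv E))
    ((per E (Tv E)).toAddMonoidHom.comp (Finsupp.mapDomain.addMonoidHom f)) (by
      intro g x z
      change per E (Tv E) (Finsupp.mapDomain f (single _ _)) =
        _ • per E (Tv E) (Finsupp.mapDomain f (single _ _))
      rw [Finsupp.mapDomain_single, Finsupp.mapDomain_single, per_smul_single, hf])
  exact ⟨F, hF⟩

/-- Theorem T: groups acting on trees. -/
theorem cdLE_tree {E : Type} [Group E] (T : TreeAct E) (n : ℕ)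
    (hV : ∀ v : T.V, Wald.CdLE (n + 1) (MulAction.stabilizer E v))
    (hE : ∀ e : T.Ed, Wald.CdLE n (MulAction.stabilizer E e)) : Wald.CdLE (n + 1) E := by
  obtain ⟨Ft, hFt⟩ := per_dom (E := E) T.t T.t_smul
  obtain ⟨Fo, hFo⟩ := per_dom (E := E) T.o T.o_smul
  -- the augmentation
  obtain ⟨ε, hε⟩ := per_lin (E := E) (X := T.V) (Tv E) (Tv E)
    (Finsupp.liftAddHom fun _ => AddMonoidHom.id (Tv E)) (by
      intro g x z
      rw [Finsupp.liftAddHom_apply_single, Finsupp.liftAddHom_apply_single]
      rfl)
  have hε1 : ∀ (v : T.V) (z : Tv E), ε (per E (Tv E) (single v z)) = z := by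
    intro v z
    rw [hε, Finsupp.liftAddHom_apply_single]
    rfl
  let τ : Tv E ≃+ ℤ := (Representation.trivial ℤ E ℤ).asModuleEquiv.toAddEquiv
  let one : Tv E := τ.symm 1
  have hz : ∀ z : Tv E, z = (τ z) • one := by
    intro z
    apply τ.injective
    rw [map_zsmul]
    change τ z = τ z • τ (τ.symm 1)
    rw [AddEquiv.apply_symm_apply, smul_eq_mul, mul_one]
  let ι : (T.V →₀ ℤ) →+ (T.V →₀ Tv E) := Finsupp.mapRange.addMonoidHom τ.symm.toAddMonoidHom
  refine pdLT_X3 (Ft - Fo) ε ?_ ?_ ?_ (n + 1) (per_cd n hE) (per_cd (n + 1) hV)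
  · -- injectivity
    rw [injective_iff_map_eq_zero]
    intro v hv
    obtain ⟨v, rfl⟩ := (per E (Tv E)).surjective v
    rw [LinearMap.sub_apply, hFt, hFo, sub_eq_zero] at hv
    have h1 := (per E (Tv E)).injective hv
    have h2 := T.acyc (Finsupp.mapRange τ (map_zero τ) v) (by
      rw [Finsupp.mapDomain_mapRange _ _ _ _ (map_add _),
        Finsupp.mapDomain_mapRange _ _ _ _ (map_add _), h1])
    have h3 : v = 0 := by
      refine Finsupp.mapRange_injective τ (map_zero τ) τ.injective ?_
      rw [h2, Finsupp.mapRange_zero]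
    rw [h3, map_zero]
  · -- exactness in the middle
    intro y
    obtain ⟨y, rfl⟩ := (per E (Tv E)).surjective y
    constructor
    · intro hy
      choose c hc using T.conn
      let c' : T.V → (T.Ed →₀ Tv E) := fun v => Finsupp.mapRange τ.symm (map_zero τ.symm) (c v)
      have hc' : ∀ v, (c' v).mapDomain T.t - (c' v).mapDomain T.o = single v one -
          single T.root one := by
        intro v
        change (Finsupp.mapRange τ.symm (map_zero τ.symm) (c v)).mapDomain T.t -
          (Finsupp.mapRange τ.symm (map_zero τ.symm) (c v)).mapDomain T.o = _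
        rw [Finsupp.mapDomain_mapRange _ _ _ _ (map_add _),
          Finsupp.mapDomain_mapRange _ _ _ _ (map_add _), ← Finsupp.mapRange_sub,
          hc, Finsupp.mapRange_sub, Finsupp.mapRange_single, Finsupp.mapRange_single]
        · exact map_sub τ.symm
        · exact map_sub τ.symm
      let s : (T.V →₀ Tv E) →+ (T.Ed →₀ Tv E) := Finsupp.liftAddHom fun v =>
        (zmultiplesHom (T.Ed →₀ Tv E) (c' v)).comp τ.toAddMonoidHom
      have hs : ∀ v z, s (single v z) = τ z • c' v := by
        intro v z
        change Finsupp.liftAddHom _ (single v z) = _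
        rw [Finsupp.liftAddHom_apply_single]
        rfl
      have key : ∀ w : T.V →₀ Tv E, (Ft - Fo) (per E (Tv E) (s w)) =
          per E (Tv E) w - per E (Tv E) (single T.root (ε (per E (Tv E) w))) := by
        intro w
        induction w using Finsupp.induction_linear with
        | zero =>
          rw [map_zero s, map_zero (per E (Tv E)), map_zero, map_zero (per E (Tv E)), map_zero ε,
            single_zero, map_zero (per E (Tv E)), sub_zero]
        | add v w hv hw =>
          rw [map_add s, map_add (per E (Tv E)), map_add, hv, hw, map_add (per E (Tv E)), map_add ε,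
            single_add, map_add (per E (Tv E))]
          abel
        | single v z =>
          rw [hε1, hs, LinearMap.sub_apply, hFt, hFo, ← map_sub, ← map_sub]
          congr 1
          have h5 : ∀ f : T.Ed → T.V, Finsupp.mapDomain f (τ z • c' v) =
              τ z • Finsupp.mapDomain f (c' v) := fun f =>
            map_zsmul (Finsupp.mapDomain.addMonoidHom f) (τ z) (c' v)
          rw [h5, h5, ← smul_sub, hc', smul_sub, Finsupp.smul_single, Finsupp.smul_single, ← hz]
      refine ⟨per E (Tv E) (s y), ?_⟩
      rw [key, hy, single_zero, map_zero, sub_zero]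
    · have h6 : ∀ w : T.Ed →₀ Tv E, ε (per E (Tv E) (w.mapDomain T.t)) =
          ε (per E (Tv E) (w.mapDomain T.o)) := by
        intro w
        induction w using Finsupp.induction_linear with
        | zero => rw [Finsupp.mapDomain_zero, Finsupp.mapDomain_zero]
        | add v w hv hw =>
          rw [Finsupp.mapDomain_add, Finsupp.mapDomain_add, map_add (per E (Tv E)),
            map_add (per E (Tv E)), map_add ε, map_add ε, hv, hw]
        | single e z => rw [Finsupp.mapDomain_single, Finsupp.mapDomain_single, hε1, hε1]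
      rintro ⟨w, hw⟩
      obtain ⟨w, rfl⟩ := (per E (Tv E)).surjective w
      rw [← hw, LinearMap.sub_apply, hFt, hFo, map_sub, h6, sub_self]
  · intro z
    exact ⟨per E (Tv E) (single T.root z), hε1 _ z⟩

end Pool.Agent.WaldL
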