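import Pool.Agent.Lib.MP_8f66f0_al_WaldL.Spec
import Pool.Agent.Lib.MP_8f66f0_al_Wald.KerP

/-! Consequences of cohomological dimension at most two, coefficients in a principal ideal domain. -/

set_option autoImplicit false

namespace Pool.Agent.WaldL

open Matrix CategoryTheory TensorProduct Pool.Agent.Wald

theorem pd1_pl (h1 : S_SubPid) (LL : Type) [CommRing LL] [IsDomain LL] [IsPrincipalIdealRing LL]
    (E : Type) [Group E] (hE : CdLE2 E) : PD1 (MonoidAlgebra LL E) := by
  intro a b e J d hde
  have hproj : Module.Projective LL (LinearMap.range e) := by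
    let φ : (Fin b →₀ MonoidAlgebra LL E) →+ (Fin b × E →₀ LL) :=
      (Finsupp.curryAddEquiv (α := Fin b) (β := E) (M := LL)).symm.toAddMonoidHom.comp
        (Finsupp.mapRange.addMonoidHom
          (MonoidAlgebra.coeffAddEquiv (R := LL) (M := E)).toAddMonoidHom)
    have hφ : Function.Injective φ :=
      (Finsupp.curryAddEquiv (α := Fin b) (β := E) (M := LL)).symm.injective.comp
        (Finsupp.mapRange_injective _ (map_zero _)
          (MonoidAlgebra.coeffAddEquiv (R := LL) (M := E)).injective)
    have hφs : ∀ (n : LL) (x : Fin b →₀ MonoidAlgebra LL E), φ (n • x) = n • φ x := by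
      intro n x
      ext ⟨i, g⟩
      simp [φ, Finsupp.curryAddEquiv]
    let ψ : LinearMap.range e →ₗ[LL] (Fin b × E →₀ LL) :=
      { toFun := fun x => φ (x : Fin b →₀ MonoidAlgebra LL E)
        map_add' := fun x y => map_add φ _ _
        map_smul' := fun n x => hφs n (x : Fin b →₀ MonoidAlgebra LL E) }
    have hψ : Function.Injective ψ := hφ.comp Subtype.val_injective
    have h2 := h1 LL (Fin b × E) (LinearMap.range ψ)
    exact Module.Projective.of_equiv (LinearEquiv.ofInjective ψ hψ).symm
  exact ker_projective d e hde (reso hE (k := LL) (LinearMap.range e))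

theorem gprop_pl (LL : Type) [CommRing LL] [IsDomain LL] [IsPrincipalIdealRing LL]
    (E : Type) [Group E] (hE : CdLE2 E) (p : LL) (hp : Prime p) :
    GProp (MonoidAlgebra (LL ⧸ Ideal.span {p}) E) := by
  have hm : (Ideal.span {p}).IsMaximal := PrincipalIdealRing.isMaximal_of_irreducible hp.irreducible
  let _ : Field (LL ⧸ Ideal.span {p}) := Ideal.Quotient.field _
  exact gprop_of_kerProj (kerProj_of_cd hE (LL ⧸ Ideal.span {p}))

theorem ker_pl (h1 : S_SubPid) (h2 : S_C1PL) : S_KerPL := by
  intro LL _ _ _ E _ hE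
  exact ⟨h2 LL E (gprop_of_kerProj (kerProj_of_cd hE (FractionRing LL)))
    (fun p hp => gprop_pl LL E hE p hp), pd1_pl h1 LL E hE⟩

end Pool.Agent.WaldL
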