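import Pool.Agent.Lib.MP_8f66f0_al_Wald.C1Fmod
import Pool.Agent.Lib.MP_8f66f0_al_WaldL.GrFlat
import Pool.Agent.Lib.MP_8f66f0_al_WaldL.GrFree
import Pool.Agent.Lib.MP_8f66f0_al_Wald.NilVanPd
import Pool.Agent.Lib.MP_8f66f0_al_WaldL.NilV

/-! Theorem N for group rings, matrix form, for kernels of finite projective dimension. -/

set_option autoImplicit false

namespace Pool.Agent.WaldL

open Pool.Agent.Wald

variable {LL : Type} [CommRing LL]

open Finsupp Matrix

/-- the linear map given by the rows of a matrix -/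
private noncomputable def NilGrPd_lin {R Λ : Type} [Ring R] [Ring Λ] [Module R Λ] {n : ℕ} {q : Type}
    [Finite q] (M : Matrix (Fin n) q Λ) : (Fin n →₀ R) →ₗ[R] (q →₀ Λ) :=
  Finsupp.linearCombination R fun a => Finsupp.equivFunOnFinite.symm (M a)

private theorem NilGrPd_lin_apply {R Λ : Type} [Ring R] [Ring Λ] [Module R Λ] {n : ℕ} {q : Type}
    [Finite q] (M : Matrix (Fin n) q Λ) (x : Fin n →₀ R) (b : q) :
    NilGrPd_lin M x b = ∑ a, x a • M a b := by
  unfold NilGrPd_lin
  have h1 := Finsupp.sum_fintype x (fun i a => a • Finsupp.equivFunOnFinite.symm (M i))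
    (fun i => zero_smul R _)
  rw [Finsupp.linearCombination_apply, h1, Finsupp.finsetSum_apply]
  rfl

/-- Theorem N for group rings, matrix form. -/
theorem nilVanish_gr_pd {E G : Type} [Group E] [Group G] (φ : E →* G) (hφ : Function.Injective φ)
    (hC : C1 (MonoidAlgebra LL E)) {k : ℕ} (hP : PDk (MonoidAlgebra LL E) k) {n : ℕ}
    (ν : Matrix (Fin n) (Fin n) (MonoidAlgebra LL G)) (m : ℕ) (B : ℕ → ℕ)
    (h : ∀ i, Matrix (Fin n) (Fin (B i)) (MonoidAlgebra LL E))
    (h0 : ∀ x : Fin n → MonoidAlgebra LL E, vecMul x (h 0) = 0 → x = 0) (hm : h m = 0)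
    (hh : ∀ i (x : Fin n → MonoidAlgebra LL E), vecMul x (h (i + 1)) = 0 →
      vecMul (vecMul (fun a => inc φ (x a)) ν) ((h i).map (inc φ)) = 0)
    (hu : IsUnit (1 - ν)) {K : Type} [CommGroup K] (κ : K1Fun (MonoidAlgebra LL G) K) :
    κ.f (1 - ν) = 1 := by
  let := modH LL φ
  have := towerH LL φ
  have hF : RFlat (MonoidAlgebra LL E) (MonoidAlgebra LL G) := rflat_gr φ hφ
  have hfree : Module.Free (MonoidAlgebra LL E) (MonoidAlgebra LL G) := free_gr φ hφ
  have : Module.Projective (MonoidAlgebra LL E) (MonoidAlgebra LL G) := Module.Projective.of_free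
  have hC1 : C1F (MonoidAlgebra LL E) (MonoidAlgebra LL G) := c1F_of_c1 hC
  let ν' : (Fin n →₀ MonoidAlgebra LL E) →ₗ[MonoidAlgebra LL E] (Fin n →₀ MonoidAlgebra LL G) :=
    NilGrPd_lin ν
  let h' : ∀ i, (Fin n →₀ MonoidAlgebra LL E) →ₗ[MonoidAlgebra LL E]
    (Fin (B i) →₀ MonoidAlgebra LL E) := fun i => NilGrPd_lin (h i)
  have hh' : ∀ i x b, h' i x b = vecMul (fun a => x a) (h i) b := fun i x b =>
    NilGrPd_lin_apply (h i) x b
  have hν' : ∀ x b, ν' x b = vecMul (fun a => inc φ (x a)) ν b := fun x b =>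
    NilGrPd_lin_apply ν x b
  have hmat : matOf ν' = ν := by
    refine Matrix.ext fun a b => ?_
    show ν' (single a 1) b = ν a b
    rw [hν']
    have h1 : (fun c => inc φ ((single a (1 : MonoidAlgebra LL E) : Fin n →₀ MonoidAlgebra LL E) c))
        = Pi.single a 1 := by
      funext c
      by_cases hc : c = a
      · subst hc
        rw [Finsupp.single_eq_same, Pi.single_eq_same, map_one]
      · rw [Finsupp.single_eq_of_ne hc, Pi.single_eq_of_ne hc, map_zero]
    rw [h1, Matrix.single_one_vecMul]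
    rfl
  have hbc : ∀ i (y : Fin n →₀ MonoidAlgebra LL G) b, bc (MonoidAlgebra LL G) (h' i) y b =
      vecMul (fun a => y a) ((h i).map (inc φ)) b := by
    intro i y b
    unfold bc
    have h0 := Finsupp.sum_fintype y (fun j a => a • (emb (MonoidAlgebra LL E) (MonoidAlgebra LL G)
      (Fin (B i))) ((h' i) (single j 1))) (fun i => zero_smul (MonoidAlgebra LL G) _)
    rw [Finsupp.linearCombination_apply, h0, Finsupp.finsetSum_apply]
    refine Finset.sum_congr rfl fun a _ => ?_
    rw [Finsupp.smul_apply, smul_eq_mul]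
    congr 1
    unfold emb
    rw [Finsupp.mapRange.linearMap_apply, Finsupp.mapRange_apply,
      LinearMap.toSpanSingleton_apply, hh']
    have h1 : vecMul (fun c => (single a (1 : MonoidAlgebra LL E) :
        Fin n →₀ MonoidAlgebra LL E) c) (h i) b = h i a b := by
      have h2 : (fun c => (single a (1 : MonoidAlgebra LL E) : Fin n →₀ MonoidAlgebra LL E) c)
          = Pi.single a 1 := by
        funext c
        by_cases hc : c = a
        · subst hc
          rw [Finsupp.single_eq_same, Pi.single_eq_same]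
        · rw [Finsupp.single_eq_of_ne hc, Pi.single_eq_of_ne hc]
      rw [h2, Matrix.single_one_vecMul]
      rfl
    rw [h1]
    exact mul_one _
  have key := nilVanish_pd hF hC1 hP ν' m (fun i => Fin (B i)) h' ?_ ?_ ?_ ?_ κ
  · rw [hmat] at key
    exact key
  · intro x hx
    have h1 : (fun a => x a) = 0 := h0 _ (by
      funext b
      rw [← hh', hx]
      rfl)
    ext1 a
    exact congrFun h1 a
  · intro x
    ext1 b
    rw [hh', hm, Matrix.vecMul_zero]
    rfl
  · intro i x hx
    have h1 := hh i (fun a => x a) (by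
      funext b
      rw [← hh', hx]
      rfl)
    ext1 b
    rw [hbc]
    have h2 : (fun a => ν' x a) = vecMul (fun a => inc φ (x a)) ν := funext fun a => hν' x a
    rw [h2, h1]
    rfl
  · rw [hmat]
    exact hu

theorem nilV_of_c1_pd {E : Type} [Group E] (hC : C1 (MonoidAlgebra LL E)) {k : ℕ}
    (hP : PDk (MonoidAlgebra LL E) k) : NilV LL E := by
  intro G _ φ hφ n ν m B h h0 hm hh hu K _ κ
  exact nilVanish_gr_pd φ hφ hC hP ν m B h h0 hm hh hu κ

end Pool.Agent.WaldL
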