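import Pool.Agent.Lib.MP_8f66f0_al_Wald.PdN
import Pool.Agent.Lib.MP_8f66f0_al_WaldL.Spec

/-! Groups of finite cohomological dimension over a principal ideal domain: second kernels have
finite projective dimension. -/

set_option autoImplicit false

namespace Pool.Agent.WaldL

open Matrix CategoryTheory TensorProduct Pool.Agent.Wald

private theorem PdNL_sh {R : Type} [Ring R] {P M : Type} [AddCommGroup P] [Module R P]
    [AddCommGroup M] [Module R M] [Module.Projective R P] (f : P →ₗ[R] M)
    (hf : Function.Surjective f) (n : ℕ)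
    (hM : HasProjectiveDimensionLT (ModuleCat.of R M) (n + 2)) :
    HasProjectiveDimensionLT (ModuleCat.of R (LinearMap.ker f)) (n + 1) := by
  have h1 := LinearMap.shortExact_shortComplexKer hf
  have hP : Projective (ModuleCat.of R P) := (IsProjective.iff_projective P).mp inferInstance
  have h2 : HasProjectiveDimensionLT (ModuleCat.of R P) (n + 1) :=
    hasProjectiveDimensionLT_of_ge _ 1 _ (by omega)
  exact h1.hasProjectiveDimensionLT_X₁ (n + 1) h2 hM

/-- Dimension shifting for a homomorphism onto the kernel of the next one. -/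
private theorem PdNL_ker {S : Type} [Ring S] {W₁ W₀ M : Type} [AddCommGroup W₁] [Module S W₁]
    [AddCommGroup W₀] [Module S W₀] [AddCommGroup M] [Module S M] [Module.Projective S W₁]
    (d : W₁ →ₗ[S] W₀) (e : W₀ →ₗ[S] M) (hde : LinearMap.range d = LinearMap.ker e) (n : ℕ)
    (hM : HasProjectiveDimensionLT (ModuleCat.of S (LinearMap.ker e)) (n + 2)) :
    HasProjectiveDimensionLT (ModuleCat.of S (LinearMap.ker d)) (n + 1) := by
  have hmem : ∀ x, d x ∈ LinearMap.ker e := by
    intro x
    rw [← hde]
    exact ⟨x, rfl⟩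
  set d' : W₁ →ₗ[S] LinearMap.ker e := d.codRestrict _ hmem with hd'
  have hsurj : Function.Surjective d' := by
    rintro ⟨y, hy⟩
    have hy' : y ∈ LinearMap.range d := by
      rw [hde]
      exact hy
    obtain ⟨x, rfl⟩ := hy'
    exact ⟨x, rfl⟩
  have h2 : HasProjectiveDimensionLT (ModuleCat.of S (LinearMap.ker d')) (n + 1) :=
    PdNL_sh d' hsurj n hM
  have h4 : LinearMap.ker d' = LinearMap.ker d := LinearMap.ker_codRestrict _ _ _
  rw [h4] at h2
  exact h2

/-- A submodule of a free module of finite rank over a group ring is projective over the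
coefficients, if these form a principal ideal domain. -/
theorem sub_projective_L {LL : Type} [CommRing LL] [IsDomain LL] [IsPrincipalIdealRing LL]
    (h1 : S_SubPid) {E : Type} [Group E] {b : ℕ} {N : Type} [AddCommGroup N]
    [Module (MonoidAlgebra LL E) N] (e : N →ₗ[MonoidAlgebra LL E] (Fin b →₀ MonoidAlgebra LL E)) :
    Module.Projective LL (LinearMap.range e) := by
  let φ : (Fin b →₀ MonoidAlgebra LL E) →+ (Fin b × E →₀ LL) :=
    (Finsupp.curryAddEquiv (α := Fin b) (β := E) (M := LL)).symm.toAddMonoidHom.comp
      (Finsupp.mapRange.addMonoidHom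
        (MonoidAlgebra.coeffAddEquiv (R := LL) (M := E)).toAddMonoidHom)
  have hφ : Function.Injective φ :=
    (Finsupp.curryAddEquiv (α := Fin b) (β := E) (M := LL)).symm.injective.comp
      (Finsupp.mapRange_injective _ (map_zero _)
        (MonoidAlgebra.coeffAddEquiv (R := LL) (M := E)).injective)
  let ψ : LinearMap.range e →ₗ[LL] (Fin b × E →₀ LL) :=
    { toFun := fun x => φ (x : Fin b →₀ MonoidAlgebra LL E)
      map_add' := fun x y => map_add φ _ _
      map_smul' := fun r x => by
        ext ⟨i, g⟩
        rfl }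
  have hψ : Function.Injective ψ := hφ.comp Subtype.val_injective
  have h2 := h1 LL (Fin b × E) (LinearMap.range ψ)
  exact Module.Projective.of_equiv (LinearEquiv.ofInjective ψ hψ).symm

theorem pdk_of_cd_L {LL : Type} [CommRing LL] [IsDomain LL] [IsPrincipalIdealRing LL]
    (h1 : S_SubPid) {E : Type} [Group E] (n : ℕ) (hE : CdLE (n + 2) E) :
    PDk (MonoidAlgebra LL E) n := by
  intro a b e J d hde
  have hproj : Module.Projective LL (LinearMap.range e) := sub_projective_L h1 e
  have h0 : HasProjectiveDimensionLT (ModuleCat.of (MonoidAlgebra LL E) (LinearMap.range e))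
      (n + 3) := reso_n (n + 2) hE (k := LL) (LinearMap.range e)
  have h1 : HasProjectiveDimensionLT (ModuleCat.of (MonoidAlgebra LL E)
      (LinearMap.ker e.rangeRestrict)) (n + 2) :=
    PdNL_sh e.rangeRestrict e.surjective_rangeRestrict (n + 1) h0
  rw [LinearMap.ker_rangeRestrict e] at h1
  exact pdK_of_pd n d (PdNL_ker d e hde n h1)

end Pool.Agent.WaldL
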