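import Pool.Agent.Lib.MP_8f66f0_al_WaldL.Spec

/-! # SubPid: submodules of free modules over a principal ideal domain are projective -/

set_option autoImplicit false

namespace Pool.Agent.WaldL

namespace SubPidAux

/-- divisible modules over a principal ideal domain satisfy the criterion of Baer -/
theorem baer_of_div {L I : Type} [CommRing L] [IsPrincipalIdealRing L] [AddCommGroup I]
    [Module L I] (hI : ∀ n : L, n ≠ 0 → ∀ a : I, ∃ b : I, n • b = a) : Module.Baer L I := by
  intro J g
  obtain ⟨a, ha⟩ := IsPrincipalIdealRing.principal J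
  have haJ : a ∈ J := by rw [ha]; exact Submodule.mem_span_singleton_self a
  obtain ⟨b, hb⟩ : ∃ b : I, a • b = g ⟨a, haJ⟩ := by
    by_cases h0 : a = 0
    · subst h0
      refine ⟨0, ?_⟩
      have h1 : (⟨0, haJ⟩ : J) = 0 := rfl
      rw [h1, map_zero, smul_zero]
    · exact hI a h0 _
  refine ⟨LinearMap.toSpanSingleton L I b, fun x hx => ?_⟩
  have hx' : x ∈ Submodule.span L {a} := by rw [← ha]; exact hx
  obtain ⟨c, hc⟩ := Submodule.mem_span_singleton.1 hx'
  subst hc
  have h1 : (⟨c • a, hx⟩ : J) = c • ⟨a, haJ⟩ := rfl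
  rw [h1, g.map_smul c ⟨a, haJ⟩, ← hb, LinearMap.toSpanSingleton_apply, smul_smul, smul_eq_mul]

/-- quotients of divisible modules satisfy the criterion of Baer -/
theorem baer_quot {L I : Type} [CommRing L] [IsPrincipalIdealRing L] [AddCommGroup I]
    [Module L I] (hI : ∀ n : L, n ≠ 0 → ∀ a : I, ∃ b : I, n • b = a) (K : Submodule L I) :
    Module.Baer L (I ⧸ K) := by
  refine baer_of_div fun n hn x => ?_
  obtain ⟨a, rfl⟩ := K.mkQ_surjective x
  obtain ⟨b, hb⟩ := hI n hn a
  exact ⟨K.mkQ b, by rw [← map_smul, hb]⟩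

/-- a surjection onto a submodule of a projective module splits -/
theorem split_aux {L P I N M : Type} [CommRing L] [IsPrincipalIdealRing L]
    [AddCommGroup P] [Module L P] [AddCommGroup I] [Module L I] [AddCommGroup N] [Module L N]
    [AddCommGroup M] [Module L M] [Module.Projective L M]
    (hI : ∀ n : L, n ≠ 0 → ∀ a : I, ∃ b : I, n • b = a)
    (ι : P →ₗ[L] I) (hι : Function.Injective ι) (π : P →ₗ[L] N) (hπ : Function.Surjective π)
    (i : N →ₗ[L] M) (hi : Function.Injective i) : ∃ h : N →ₗ[L] P, π ∘ₗ h = LinearMap.id := by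
  obtain ⟨K, hK⟩ : ∃ K : Submodule L I, K = (LinearMap.ker π).map ι := ⟨_, rfl⟩
  have hB : Module.Baer L (I ⧸ K) := baer_quot hI K
  have hle : LinearMap.ker π ≤ LinearMap.ker (K.mkQ.comp ι) := by
    intro b hb
    rw [LinearMap.mem_ker, LinearMap.comp_apply, Submodule.mkQ_apply,
      Submodule.Quotient.mk_eq_zero, hK]
    exact Submodule.mem_map_of_mem hb
  obtain ⟨j, hj⟩ : ∃ j : N →ₗ[L] (I ⧸ K), ∀ b, j (π b) = K.mkQ (ι b) := by
    refine ⟨((LinearMap.ker π).liftQ (K.mkQ.comp ι) hle).comp
      (π.quotKerEquivOfSurjective hπ).symm.toLinearMap, fun a => ?_⟩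
    have h1 : (π.quotKerEquivOfSurjective hπ).symm (π a) = (LinearMap.ker π).mkQ a := by
      rw [LinearEquiv.symm_apply_eq]
      rfl
    rw [LinearMap.comp_apply, LinearEquiv.coe_coe, h1]
    rfl
  obtain ⟨g, hg⟩ := hB.extension_property i hi j
  obtain ⟨h, hh⟩ := Module.projective_lifting_property K.mkQ g K.mkQ_surjective
  -- the restriction of `h` takes values in the image of `ι`
  have key : ∀ x : N, ∃ b, π b = x ∧ ι b = h (i x) := by
    intro x
    obtain ⟨b, hb⟩ := hπ x
    have h1 : K.mkQ (h (i x)) = K.mkQ (ι b) := by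
      have h2 : K.mkQ (h (i x)) = g (i x) := LinearMap.congr_fun hh (i x)
      have h3 : g (i x) = j x := LinearMap.congr_fun hg x
      rw [h2, h3, ← hb, hj]
    rw [← sub_eq_zero, ← map_sub, Submodule.mkQ_apply, Submodule.Quotient.mk_eq_zero, hK] at h1
    obtain ⟨k, hk, hk'⟩ := h1
    refine ⟨b + k, ?_, ?_⟩
    · rw [map_add, hb, LinearMap.mem_ker.1 hk, add_zero]
    · rw [map_add, hk']
      abel
  choose s hs1 hs2 using key
  refine ⟨{ toFun := s, map_add' := ?_, map_smul' := ?_ }, ?_⟩
  · intro x y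
    apply hι
    rw [map_add, hs2, hs2, hs2, map_add, map_add]
  · intro n x
    apply hι
    rw [RingHom.id_apply, map_smul, hs2, hs2, map_smul, map_smul]
  · exact LinearMap.ext fun x => hs1 x

theorem proj_aux (L F : Type) [CommRing L] [IsDomain L] [IsPrincipalIdealRing L] [Field F]
    [Algebra L F] [IsFractionRing L F] (J : Type)
    (N : Submodule L (J →₀ L)) : Module.Projective L N := by
  refine Module.Projective.of_lifting_property'' fun π hπ => ?_
  have hi : Function.Injective N.subtype := N.injective_subtype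
  refine @split_aux L (N →₀ L) (N →₀ F) N (J →₀ L) _ _ _ _ _ _ _ _ _ _ _ ?_
    (Finsupp.mapRange.linearMap (Algebra.linearMap L F)) ?_ π hπ N.subtype hi
  · intro n hn a
    refine ⟨(algebraMap L F n)⁻¹ • a, ?_⟩
    ext x
    change n • ((algebraMap L F n)⁻¹ • a x) = a x
    have h0 : algebraMap L F n ≠ 0 := by
      intro h
      exact hn (IsFractionRing.injective L F (h.trans (map_zero _).symm))
    rw [Algebra.smul_def, smul_eq_mul, mul_inv_cancel_left₀ h0]
  · intro a b h
    ext x
    have h1 := DFunLike.congr_fun h x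
    change algebraMap L F (a x) = algebraMap L F (b x) at h1
    exact IsFractionRing.injective L F h1

end SubPidAux

theorem sub_pid : S_SubPid := fun LL _ _ _ J N =>
  SubPidAux.proj_aux LL (FractionRing LL) J N

end Pool.Agent.WaldL
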