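import Pool.Agent.Lib.MP_8f66f0_al_WaldL.KK
import Pool.Agent.Lib.MP_8f66f0_al_WaldL.NilGrPd
import Pool.Agent.Lib.MP_8f66f0_al_WaldL.PdNL
import Pool.Agent.Lib.MP_8f66f0_al_WaldL.C1PL
import Pool.Agent.Lib.MP_8f66f0_al_WaldL.KerPL
import Pool.Agent.Lib.MP_8f66f0_al_WaldL.SubPid
import Pool.Agent.Lib.MP_8f66f0_al_WaldL.WhKL
import Pool.Agent.Lib.MP_8f66f0_al_WaldTL.Tree
import Pool.Agent.Lib.MP_8f66f0_al_WaldX.All
import Pool.Agent.Lib.MP_8f66f0_al_WaldX.CdExt
import Pool.Agent.Lib.MP_8f66f0_al_Wald.PdN
import Pool.Agent.Lib.MP_8f66f0_al_Wald.ClassW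
import Pool.Agent.Lib.MP_8f66f0_al_Ind.One

/-! The class of groups obtained from the trivial group by amalgams and HNN extensions along
groups of the class which are locally of cohomological dimension at most two, or satisfy (C1) over
all Euclidean domains and have finite cohomological dimension: no hypothesis on projective
modules. -/

set_option autoImplicit false

namespace Pool.Agent.WaldL

open Pool.Agent.Wald Pool.Agent.Ind Pool.Agent.WaldT

/-- Edge groups: groups of cohomological dimension at most two; groups `E` of finite cohomological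
dimension such that `LE` satisfies condition (C1) for all Euclidean domains `L`, in particular
(`tree`) if `E` acts without inversions on a tree with coherent `LS` for all stabilizers `S` of
vertices and edges; (`cx`) if the trivial module has a resolution of length two by permutation
modules with coherent `LS` for the stabilizers in degrees 0 and 1 and noetherian `LS` in degree 2;
(`ext`) if `E` is an extension of a polycyclic-by-finite group of finite cohomological dimension by
a group of cohomological dimension at most two; and groups all of whose finitely generated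
subgroups are edge groups. -/
inductive EdgeU : (E : Type) → [Group E] → Prop
  | cd {E : Type} [Group E] : Wald.CdLE 2 E → EdgeU E
  | c1 {E : Type} [Group E] (n : ℕ) : (∀ (L : Type) [CommRing L] [IsDomain L], IsEuc L →
      C1 (MonoidAlgebra L E)) → Wald.CdLE n E → EdgeU E
  | tree {E : Type} [Group E] (n : ℕ) (T : TreeAct E) : (∀ (L : Type) [CommRing L] [IsDomain L],
      IsEuc L → (∀ v : T.V, KerFG (MonoidAlgebra L (MulAction.stabilizer E v))) ∧
        ∀ e : T.Ed, KerFG (MonoidAlgebra L (MulAction.stabilizer E e))) → Wald.CdLE n E → EdgeU E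
  | cx {E : Type} [Group E] (n : ℕ) (T : WaldX.Cx E) : (∀ (L : Type) [CommRing L] [IsDomain L],
      IsEuc L → (∀ x : T.X₀, KerFG (MonoidAlgebra L (MulAction.stabilizer E x))) ∧
        (∀ x : T.X₁, KerFG (MonoidAlgebra L (MulAction.stabilizer E x))) ∧
        ∀ x : T.X₂, IsNoetherianRing (MonoidAlgebra L (MulAction.stabilizer E x))) →
      Wald.CdLE n E → EdgeU E
  | ext {E Q : Type} [Group E] [Group Q] (n : ℕ) (π : E →* Q) : Wald.CdLE 2 Q →
      WaldX.PolyC π.ker → Wald.CdLE n π.ker → EdgeU E
  | loc {E : Type} [Group E] : (∀ E' : Subgroup E, E'.FG → EdgeU E') → EdgeU E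

theorem EdgeU.nilV {E : Type} [Group E] (h : EdgeU E) (L : Type)
    [CommRing L] [IsDomain L] (hL : IsEuc L) : NilV L E := by
  have := isPrincipal_of_isEuc hL
  induction h with
  | cd h =>
    obtain ⟨hC, hP⟩ := ker_pl sub_pid c1_pl L _ h
    exact nilV_of_c1 hC hP
  | c1 n hC h => exact nilV_of_c1_pd (hC L hL) (pdk_of_cd_L sub_pid n (h.mono (Nat.le_add_right n 2)))
  | tree n T hT h =>
    exact nilV_of_c1_pd (WaldTL.c1_of_tree L T (hT L hL).1 (hT L hL).2)
      (pdk_of_cd_L sub_pid n (h.mono (Nat.le_add_right n 2)))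
  | cx n T hT h =>
    exact nilV_of_c1_pd (WaldX.c1_cx L _ T (hT L hL).1 (hT L hL).2.1 (hT L hL).2.2)
      (pdk_of_cd_L sub_pid n (h.mono (Nat.le_add_right n 2)))
  | ext n π hQ hN h =>
    exact nilV_of_c1_pd (WaldX.c1_ext L π hQ hN)
      (pdk_of_cd_L sub_pid (n + 2) ((WaldX.cdLE_ext π h hQ).mono (Nat.le_add_right _ 2)))
  | loc _ ih => exact nilV_local ih

/-- The least class of groups which contains all groups `Γ` such that `K_1(LΓ)` is generated by
the units of `L` and the elements of `Γ` for all Euclidean domains `L` (in particular the trivial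
group) and is closed under isomorphism, directed unions, amalgams `G₀ *_E G₁` and HNN extensions with stable letter conjugating the
subgroup `A` to `B`, where the group `E` (or `A`) belongs to the class and is an edge group in the
sense of `EdgeU`. -/
inductive UCl : (Γ : Type) → [Group Γ] → Prop
  | base {Γ : Type} [Group Γ] : (∀ (L : Type) [CommRing L] [IsDomain L], IsEuc L →
      K1Units L Γ) → UCl Γ
  | iso {Γ Γ' : Type} [Group Γ] [Group Γ'] (e : Γ ≃* Γ') : UCl Γ → UCl Γ'
  | directed {Γ : Type} [Group Γ] (S : Set (Subgroup Γ)) : S.Nonempty →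
      DirectedOn (· ≤ ·) S → (∀ g : Γ, ∃ K ∈ S, g ∈ K) → (∀ K ∈ S, UCl K) → UCl Γ
  | amalgam (G : Bool → Type) [∀ i, Group (G i)] (E : Type) [Group E] (φ : ∀ i, E →* G i) :
      (∀ i, Function.Injective (φ i)) → (∀ i, UCl (G i)) → UCl E → EdgeU E →
      UCl (Monoid.PushoutI φ)
  | hnn (G : Type) [Group G] (A B : Subgroup G) (φ : A ≃* B) : UCl G → UCl A → EdgeU A →
      UCl (HNNExtension G A B φ)

theorem ucl_kk (h3 : S_PSF) {Γ : Type} [Group Γ]
    (h : UCl Γ) : KK Γ := by
  have h4 : S_One := fun L _ _ hL G _ _ => whTL_one hL G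
  induction h with
  | base h => exact fun L _ _ hL => (k1Units_iff L _).1 (h L hL)
  | iso e _ ih => exact kk_iso h4 e ih
  | directed S hne hd hS _ ih => exact kk_directed h4 S hne hd hS ih
  | amalgam G E φ hφ _ _ hE ih ihE =>
    exact kk_pushout h3 h4 G E φ hφ ih ihE fun L _ _ hL => hE.nilV L hL
  | hnn G A B φ _ _ hA ih ihA =>
    exact kk_hnn h3 h4 G A B φ ih ihA fun L _ _ hL => hA.nilV L hL

/-- The trivial group is in the class. -/
theorem ucl_triv (Γ : Type) [Group Γ] [Subsingleton Γ] : UCl Γ :=
  UCl.base fun L _ _ hL => (k1Units_iff L Γ).2 (whTL_one hL Γ)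

/-- The theorem: for all groups of the class and all Euclidean domains `L`, `K_1(LΓ)` is generated
by the units of `L` and the elements of `Γ`, and all finitely generated projective `LΓ`-modules are
stably free. -/
theorem ucl_main (h3 : S_PSF) {Γ : Type} [Group Γ] (h : UCl Γ) (L : Type) [CommRing L]
    [IsDomain L] (hL : IsEuc L) : K1Units L Γ ∧ ProjSF (MonoidAlgebra L Γ) :=
  ⟨(k1Units_iff L Γ).2 (ucl_kk h3 h L hL), kk_projSF h3 (ucl_kk h3 h) L hL⟩

/-- The Whitehead group vanishes. -/
theorem ucl_whTrivial (h3 : S_PSF) {Γ : Type} [Group Γ] (h : UCl Γ) : WhTrivial Γ :=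
  (ucl_main h3 h ℤ isEuc_int).1

end Pool.Agent.WaldL
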