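import Pool.Agent.Lib.MP_8f66f0_al_WaldL.KK

/-! Products of a free group with a group `G`: iterated HNN extensions over `G`. -/

set_option autoImplicit false

namespace Pool.Agent.WaldL

open Pool.Agent.Wald Pool.Agent.Ind

/-! ### The edge condition along isomorphisms -/

theorem nilV_iso {LL : Type} [CommRing LL] {E E' : Type} [Group E] [Group E'] (e : E ≃* E')
    (hE : NilV LL E) : NilV LL E' := by
  intro G _ φ hφ n ν m B h h0 hm hh hu K _ κ
  let f : MonoidAlgebra LL E' →+* MonoidAlgebra LL E := inc e.symm.toMonoidHom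
  let f' : MonoidAlgebra LL E →+* MonoidAlgebra LL E' := inc e.toMonoidHom
  have hff : ∀ x, f (f' x) = x := by
    intro x
    induction x using MonoidAlgebra.induction_linear with
    | zero => rw [map_zero, map_zero]
    | add x y hx hy => rw [map_add, map_add, hx, hy]
    | single g a =>
      change inc e.symm.toMonoidHom (inc e.toMonoidHom (MonoidAlgebra.single g a)) = _
      rw [inc_single, inc_single]
      change MonoidAlgebra.single (e.symm (e g)) a = _
      rw [e.symm_apply_apply]
  have hff' : ∀ x, f' (f x) = x := by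
    intro x
    induction x using MonoidAlgebra.induction_linear with
    | zero => rw [map_zero, map_zero]
    | add x y hx hy => rw [map_add, map_add, hx, hy]
    | single g a =>
      change inc e.toMonoidHom (inc e.symm.toMonoidHom (MonoidAlgebra.single g a)) = _
      rw [inc_single, inc_single]
      change MonoidAlgebra.single (e (e.symm g)) a = _
      rw [e.apply_symm_apply]
  have hφf : ∀ x, inc (φ.comp e.toMonoidHom) x = inc φ (f' x) := by
    intro x
    induction x using MonoidAlgebra.induction_linear with
    | zero => rw [map_zero, map_zero, map_zero]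
    | add x y hx hy => rw [map_add, map_add, map_add, hx, hy]
    | single g a =>
      change _ = inc φ (inc e.toMonoidHom (MonoidAlgebra.single g a))
      rw [inc_single, inc_single, inc_single]
      rfl
  have hker : ∀ i (x : Fin n → MonoidAlgebra LL E), Matrix.vecMul x ((h i).map f) = 0 →
      Matrix.vecMul (fun a => f' (x a)) (h i) = 0 := by
    intro i x hx
    funext b
    have h1 := congrArg f' (congrFun hx b)
    simp only [Matrix.vecMul, dotProduct, Pi.zero_apply, map_sum, map_mul, map_zero,
      Matrix.map_apply, hff'] at h1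
    exact h1
  refine hE G (φ.comp e.toMonoidHom) (hφ.comp e.injective) n ν m B (fun i => (h i).map f)
    ?_ ?_ ?_ hu K κ
  · intro x hx
    have h1 := h0 _ (hker 0 x hx)
    funext a
    have h2 := congrArg f (congrFun h1 a)
    change f (f' (x a)) = f 0 at h2
    rw [hff, map_zero] at h2
    exact h2
  · rw [hm]
    exact Matrix.map_zero f (map_zero f)
  · intro i x hx
    have h1 := hh i _ (hker (i + 1) x hx)
    have h2 : ((h i).map f).map (inc (φ.comp e.toMonoidHom)) = (h i).map (inc φ) := by
      ext1 a b
      rw [Matrix.map_apply, Matrix.map_apply, Matrix.map_apply, hφf, hff']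
    change Matrix.vecMul _ (((h i).map f).map (inc (φ.comp e.toMonoidHom))) = 0
    rw [h2]
    simp only [hφf]
    exact h1

/-! ### One stable letter -/

section Letter

variable (X G : Type) [Group G]

/-- The subgroup `1 × G`. -/
def exA : Subgroup (FreeGroup X × G) := (MonoidHom.inr (FreeGroup X) G).range

theorem exInr_inj : Function.Injective (MonoidHom.inr (FreeGroup X) G) :=
  fun _ _ h => (Prod.ext_iff.1 h).2

/-- `1 × G` is isomorphic to `G`. -/
noncomputable def exAIso : G ≃* exA X G := MonoidHom.ofInjective (exInr_inj X G)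

/-- The HNN extension of `F × G` over `1 × G`. -/
abbrev ExH : Type := HNNExtension (FreeGroup X × G) (exA X G) (exA X G) (MulEquiv.refl _)

/-- The map from the HNN extension. -/
def exF : ExH X G →* FreeGroup (Option X) × G :=
  HNNExtension.lift ((FreeGroup.map some).prodMap (MonoidHom.id G)) (FreeGroup.of none, 1) (by
    rintro ⟨a, g, rfl⟩
    change ((FreeGroup.of none : FreeGroup (Option X)), (1 : G)) * (FreeGroup.map some 1, g) =
      (FreeGroup.map some 1, g) * ((FreeGroup.of none : FreeGroup (Option X)), (1 : G))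
    rw [map_one, Prod.mk_mul_mk, Prod.mk_mul_mk, mul_one, one_mul, mul_one, one_mul])

/-- The map on the free group. -/
def exB₀ : FreeGroup (Option X) →* ExH X G :=
  FreeGroup.lift fun o => o.elim HNNExtension.t fun x => HNNExtension.of (FreeGroup.of x, 1)

theorem exB₀_comm (w : FreeGroup (Option X)) (g : G) :
    Commute (exB₀ X G w) (HNNExtension.of ((1 : FreeGroup X), g) : ExH X G) := by
  induction w using FreeGroup.induction_on with
  | C1 => rw [map_one]; exact Commute.one_left _
  | of o =>
    unfold exB₀
    rw [FreeGroup.lift_apply_of]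
    cases o with
    | none =>
      exact HNNExtension.t_mul_of (φ := MulEquiv.refl (exA X G)) ⟨((1 : FreeGroup X), g), g, rfl⟩
    | some x =>
      change HNNExtension.of _ * HNNExtension.of _ = HNNExtension.of _ * HNNExtension.of _
      rw [← map_mul, ← map_mul, Prod.mk_mul_mk, Prod.mk_mul_mk, mul_one, one_mul, mul_one, one_mul]
  | inv_of o h => rw [map_inv]; exact h.inv_left
  | mul x y hx hy => rw [map_mul]; exact hx.mul_left hy

/-- The map to the HNN extension. -/
def exB : FreeGroup (Option X) × G →* ExH X G :=
  MonoidHom.noncommCoprod (exB₀ X G) (HNNExtension.of.comp (MonoidHom.inr (FreeGroup X) G))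
    (exB₀_comm X G)

theorem exB_some (w : FreeGroup X) :
    exB₀ X G (FreeGroup.map some w) = (HNNExtension.of (w, 1) : ExH X G) := by
  have h : (exB₀ X G).comp (FreeGroup.map some) =
      (HNNExtension.of.comp (MonoidHom.inl (FreeGroup X) G) : FreeGroup X →* ExH X G) := by
    refine FreeGroup.ext_hom _ _ fun x => ?_
    rw [MonoidHom.comp_apply, FreeGroup.map.of]
    unfold exB₀
    rw [FreeGroup.lift_apply_of]
    rfl
  exact DFunLike.congr_fun h w

theorem exBF : (exB X G).comp (exF X G) = MonoidHom.id _ := by
  refine HNNExtension.hom_ext ?_ ?_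
  · refine MonoidHom.ext fun p => ?_
    rw [MonoidHom.comp_apply, MonoidHom.comp_apply]
    unfold exF
    rw [HNNExtension.lift_of]
    obtain ⟨w, g⟩ := p
    change exB₀ X G (FreeGroup.map some w) * HNNExtension.of (1, g) = HNNExtension.of (w, g)
    rw [exB_some, ← map_mul, Prod.mk_mul_mk, mul_one, one_mul]
  · rw [MonoidHom.comp_apply]
    unfold exF
    rw [HNNExtension.lift_t]
    change exB₀ X G (FreeGroup.of none) * HNNExtension.of (1, 1) = HNNExtension.t
    unfold exB₀
    rw [FreeGroup.lift_apply_of]
    change HNNExtension.t * HNNExtension.of 1 = HNNExtension.t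
    rw [map_one, mul_one]

theorem exFB_free (w : FreeGroup (Option X)) : exF X G (exB₀ X G w) = (w, 1) := by
  have h : (exF X G).comp (exB₀ X G) = MonoidHom.inl (FreeGroup (Option X)) G := by
    refine FreeGroup.ext_hom _ _ fun o => ?_
    rw [MonoidHom.comp_apply]
    unfold exB₀ exF
    rw [FreeGroup.lift_apply_of]
    cases o with
    | none =>
      change HNNExtension.lift _ _ _ HNNExtension.t = _
      rw [HNNExtension.lift_t]
      rfl
    | some x =>
      change HNNExtension.lift _ _ _ (HNNExtension.of _) = _
      rw [HNNExtension.lift_of]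
      rfl
  exact DFunLike.congr_fun h w

theorem exFB (p : FreeGroup (Option X) × G) : exF X G (exB X G p) = p := by
  obtain ⟨w, g⟩ := p
  change exF X G (exB₀ X G w * HNNExtension.of (1, g)) = (w, g)
  rw [map_mul, exFB_free]
  unfold exF
  rw [HNNExtension.lift_of]
  change (w, (1 : G)) * (FreeGroup.map some 1, g) = (w, g)
  rw [map_one, Prod.mk_mul_mk, mul_one, one_mul]

/-- The HNN extension is the product with a free group of rank one more. -/
def exIso : ExH X G ≃* FreeGroup (Option X) × G where
  toFun := exF X G
  invFun := exB X G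
  left_inv x := DFunLike.congr_fun (exBF X G) x
  right_inv := exFB X G
  map_mul' := map_mul _

end Letter

/-! ### Products with free groups -/

theorem kk_prod_free (h1 : S_PSF) (h2 : S_One) {G : Type} [Group G] (hG : KK G)
    (hN : ∀ (L : Type) [CommRing L] [IsDomain L], IsEuc L → NilV L G) (X : Type) :
    KK (FreeGroup X × G) := by
  classical
  have hfin : ∀ (Y : Type) [Finite Y], KK (FreeGroup Y × G) := by
    intro Y _
    induction Y using Finite.induction_empty_option with
    | of_equiv e ih =>
      exact kk_iso h2 ((FreeGroup.freeGroupCongr e).prodCongr (MulEquiv.refl G)) ih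
    | h_empty =>
      refine kk_iso h2 (G := G) ?_ hG
      exact
        { toFun := fun g => (1, g)
          invFun := Prod.snd
          left_inv := fun g => rfl
          right_inv := fun p => Prod.ext (Subsingleton.elim _ _) rfl
          map_mul' := fun g g' => by rw [Prod.mk_mul_mk, one_mul] }
    | h_option ih =>
      rename_i Y _
      refine kk_iso h2 (exIso Y G) ?_
      exact kk_hnn h1 h2 _ _ _ _ ih (kk_iso h2 (exAIso Y G) hG)
        (fun L _ _ hL => nilV_iso (exAIso Y G) (hN L hL))
  let f : ∀ S : Finset X, FreeGroup S × G →* FreeGroup X × G := fun S =>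
    (FreeGroup.map Subtype.val).prodMap (MonoidHom.id G)
  have hf : ∀ S, Function.Injective (f S) := by
    intro S p q h
    obtain ⟨a, b⟩ := Prod.ext_iff.1 h
    exact Prod.ext (FreeGroup.map_injective Subtype.val_injective a) b
  have hmono : ∀ S T : Finset X, S ⊆ T → (f S).range ≤ (f T).range := by
    rintro S T hST _ ⟨⟨w, g⟩, rfl⟩
    refine ⟨(FreeGroup.map (fun x : S => (⟨x.1, hST x.2⟩ : T)) w, g), ?_⟩
    refine Prod.ext ?_ rfl
    exact FreeGroup.map.comp (fun x : S => (⟨x.1, hST x.2⟩ : T)) Subtype.val w
  have hcov : ∀ w : FreeGroup X, ∃ S : Finset X, w ∈ (FreeGroup.map (Subtype.val : S → X)).range := by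
    have hm : ∀ S T : Finset X, S ⊆ T → (FreeGroup.map (Subtype.val : S → X)).range ≤
        (FreeGroup.map (Subtype.val : T → X)).range := by
      rintro S T hST _ ⟨w, rfl⟩
      refine ⟨FreeGroup.map (fun x : S => (⟨x.1, hST x.2⟩ : T)) w, ?_⟩
      rw [FreeGroup.map.comp]
      rfl
    intro w
    induction w using FreeGroup.induction_on with
    | C1 => exact ⟨∅, 1, map_one _⟩
    | of x => exact ⟨{x}, FreeGroup.of ⟨x, Finset.mem_singleton_self x⟩, FreeGroup.map.of⟩
    | inv_of x h =>
      obtain ⟨S, hS⟩ := h
      exact ⟨S, inv_mem hS⟩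
    | mul x y hx hy =>
      obtain ⟨S, hS⟩ := hx
      obtain ⟨T, hT⟩ := hy
      exact ⟨S ∪ T, mul_mem (hm S _ Finset.subset_union_left hS)
        (hm T _ Finset.subset_union_right hT)⟩
  refine kk_directed h2 (Set.range fun S : Finset X => (f S).range) ⟨_, ⟨∅, rfl⟩⟩ ?_ ?_ ?_
  · rintro _ ⟨S, rfl⟩ _ ⟨T, rfl⟩
    exact ⟨_, ⟨S ∪ T, rfl⟩, hmono _ _ Finset.subset_union_left,
      hmono _ _ Finset.subset_union_right⟩
  · rintro ⟨w, g⟩
    obtain ⟨S, v, hv⟩ := hcov w
    exact ⟨_, ⟨S, rfl⟩, (v, g), Prod.ext hv rfl⟩
  · rintro _ ⟨S, rfl⟩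
    exact kk_iso h2 (MonoidHom.ofInjective (hf S)) (hfin S)

end Pool.Agent.WaldL
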