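import Pool.Agent.Lib.MP_8f66f0_al_WaldL.ClassU
import Pool.Agent.Lib.MP_8f66f0_al_WaldL.ExFree
import Pool.Agent.Lib.MP_8f66f0_al_WaldL.CdFree
import Pool.Agent.Lib.MP_8f66f0_al_WaldL.CdAm

/-! Explicit edge groups: groups obtained from free groups by amalgams and HNN extensions over
free groups. -/

set_option autoImplicit false

namespace Pool.Agent.WaldL

open Pool.Agent.Wald Pool.Agent.Ind Pool.Agent.WaldT

/-- The product of a free group with a group `G` which is in the class and of cohomological
dimension at most two. -/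
theorem ucl_prod_free {G : Type} [Group G] (hG : UCl G) (hc : Wald.CdLE 2 G) (X : Type) :
    UCl (FreeGroup X × G) := by
  classical
  have hfin : ∀ (Y : Type) [Finite Y], UCl (FreeGroup Y × G) := by
    intro Y _
    induction Y using Finite.induction_empty_option with
    | of_equiv e ih =>
      exact UCl.iso ((FreeGroup.freeGroupCongr e).prodCongr (MulEquiv.refl G)) ih
    | h_empty =>
      refine UCl.iso (Γ := G) ?_ hG
      exact
        { toFun := fun g => (1, g)
          invFun := Prod.snd
          left_inv := fun g => rfl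
          right_inv := fun p => Prod.ext (Subsingleton.elim _ _) rfl
          map_mul' := fun g g' => by rw [Prod.mk_mul_mk, one_mul] }
    | h_option ih =>
      rename_i Y _
      exact UCl.iso (exIso Y G) (UCl.hnn _ _ _ _ ih (UCl.iso (exAIso Y G) hG)
        (EdgeU.cd (cdLE_equiv (exAIso Y G).symm hc)))
  let f : ∀ S : Finset X, FreeGroup S × G →* FreeGroup X × G := fun S =>
    (FreeGroup.map Subtype.val).prodMap (MonoidHom.id G)
  have hf : ∀ S, Function.Injective (f S) := by
    intro S p q h
    obtain ⟨a, b⟩ := Prod.ext_iff.1 h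
    exact Prod.ext (FreeGroup.map_injective Subtype.val_injective a) b
  have hmono : ∀ S T : Finset X, S ⊆ T → (f S).range ≤ (f T).range := by
    rintro S T hST _ ⟨⟨w, g⟩, rfl⟩
    refine ⟨(FreeGroup.map (fun x : S => (⟨x.1, hST x.2⟩ : T)) w, g), ?_⟩
    refine Prod.ext ?_ rfl
    exact FreeGroup.map.comp (fun x : S => (⟨x.1, hST x.2⟩ : T)) Subtype.val w
  have hcov : ∀ w : FreeGroup X, ∃ S : Finset X, w ∈ (FreeGroup.map (Subtype.val : S → X)).range := by
    have hm : ∀ S T : Finset X, S ⊆ T → (FreeGroup.map (Subtype.val : S → X)).range ≤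
        (FreeGroup.map (Subtype.val : T → X)).range := by
      rintro S T hST _ ⟨w, rfl⟩
      refine ⟨FreeGroup.map (fun x : S => (⟨x.1, hST x.2⟩ : T)) w, ?_⟩
      rw [FreeGroup.map.comp]
      rfl
    intro w
    induction w using FreeGroup.induction_on with
    | C1 => exact ⟨∅, 1, map_one _⟩
    | of x => exact ⟨{x}, FreeGroup.of ⟨x, Finset.mem_singleton_self x⟩, FreeGroup.map.of⟩
    | inv_of x h =>
      obtain ⟨S, hS⟩ := h
      exact ⟨S, inv_mem hS⟩
    | mul x y hx hy =>
      obtain ⟨S, hS⟩ := hx
      obtain ⟨T, hT⟩ := hy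
      exact ⟨S ∪ T, mul_mem (hm S _ Finset.subset_union_left hS)
        (hm T _ Finset.subset_union_right hT)⟩
  refine UCl.directed (Set.range fun S : Finset X => (f S).range) ⟨_, ⟨∅, rfl⟩⟩ ?_ ?_ ?_
  · rintro _ ⟨S, rfl⟩ _ ⟨T, rfl⟩
    exact ⟨_, ⟨S ∪ T, rfl⟩, hmono _ _ Finset.subset_union_left,
      hmono _ _ Finset.subset_union_right⟩
  · rintro ⟨w, g⟩
    obtain ⟨S, v, hv⟩ := hcov w
    exact ⟨_, ⟨S, rfl⟩, (v, g), Prod.ext hv rfl⟩
  · rintro _ ⟨S, rfl⟩
    exact UCl.iso (MonoidHom.ofInjective (hf S)) (hfin S)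

/-- Free groups are in the class. -/
theorem ucl_free (X : Type) : UCl (FreeGroup X) := by
  have h := ucl_prod_free (ucl_triv (FreeGroup Empty)) (cdLE_trivial.mono (Nat.zero_le 2)) X
  refine UCl.iso (Γ := FreeGroup X × FreeGroup Empty) ?_ h
  exact
    { toFun := Prod.fst
      invFun := fun g => (g, 1)
      left_inv := fun p => Prod.ext rfl (Subsingleton.elim _ _)
      right_inv := fun g => rfl
      map_mul' := fun p q => rfl }

/-- Products of two free groups are in the class. -/
theorem ucl_free_free (X Y : Type) : UCl (FreeGroup X × FreeGroup Y) :=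
  ucl_prod_free (ucl_free Y) ((cdLE_free Y).mono (by omega)) X

/-- The least class of groups which contains the free groups, is closed under isomorphism and under
amalgams and HNN extensions over free groups. -/
inductive CE : (E : Type) → [Group E] → Prop
  | free (X : Type) : CE (FreeGroup X)
  | iso {E E' : Type} [Group E] [Group E'] (e : E ≃* E') : CE E → CE E'
  | amalgam (G : Bool → Type) [∀ i, Group (G i)] (F : Type) [Group F] (φ : ∀ i, F →* G i) :
      IsFreeGroup F → (∀ i, Function.Injective (φ i)) → (∀ i, CE (G i)) →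
      CE (Monoid.PushoutI φ)
  | hnn (G : Type) [Group G] (A B : Subgroup G) (φ : A ≃* B) : IsFreeGroup A → CE G →
      CE (HNNExtension G A B φ)

theorem free_cd {F : Type} [Group F] (h : IsFreeGroup F) : Wald.CdLE 1 F :=
  cdLE_equiv (IsFreeGroup.toFreeGroup F) (cdLE_free _)

theorem free_ucl {F : Type} [Group F] (h : IsFreeGroup F) : UCl F :=
  UCl.iso (IsFreeGroup.toFreeGroup F).symm (ucl_free _)

/-- These groups have cohomological dimension at most two. -/
theorem ce_cd {E : Type} [Group E] (h : CE E) : Wald.CdLE 2 E := by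
  induction h with
  | free X => exact (cdLE_free X).mono (by omega)
  | iso e _ ih => exact cdLE_equiv e.symm ih
  | amalgam G F φ hF hφ _ ih => exact cdLE_pushout G F φ hφ 1 ih (free_cd hF)
  | hnn G A B φ hA _ ih => exact cdLE_hnn G A B φ 1 ih (free_cd hA)

/-- They are in the class. -/
theorem ce_ucl {E : Type} [Group E] (h : CE E) : UCl E := by
  induction h with
  | free X => exact ucl_free X
  | iso e _ ih => exact UCl.iso e ih
  | amalgam G F φ hF hφ _ ih =>
    exact UCl.amalgam G F φ hφ ih (free_ucl hF) (EdgeU.cd ((free_cd hF).mono (by omega)))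
  | hnn G A B φ hA _ ih =>
    exact UCl.hnn G A B φ ih (free_ucl hA) (EdgeU.cd ((free_cd hA).mono (by omega)))

/-- They are edge groups. -/
theorem ce_edge {E : Type} [Group E] (h : CE E) : EdgeU E := EdgeU.cd (ce_cd h)

/-- The product of a finitely generated free group and a free group. -/
theorem ce_free_free (X : Type) [Finite X] (Y : Type) : CE (FreeGroup X × FreeGroup Y) := by
  induction X using Finite.induction_empty_option with
  | of_equiv e ih =>
    exact CE.iso ((FreeGroup.freeGroupCongr e).prodCongr (MulEquiv.refl _)) ih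
  | h_empty =>
    refine CE.iso (E := FreeGroup Y) ?_ (CE.free Y)
    exact
      { toFun := fun g => (1, g)
        invFun := Prod.snd
        left_inv := fun g => rfl
        right_inv := fun p => Prod.ext (Subsingleton.elim _ _) rfl
        map_mul' := fun g g' => by rw [Prod.mk_mul_mk, one_mul] }
  | h_option ih =>
    rename_i X _
    exact CE.iso (exIso X (FreeGroup Y)) (CE.hnn _ _ _ _
      (IsFreeGroup.ofMulEquiv (exAIso X (FreeGroup Y))) ih)

/-- The least class of groups which contains the free groups and is closed under isomorphism,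
directed unions, and amalgams and HNN extensions over groups in `CE`. -/
inductive CG : (Γ : Type) → [Group Γ] → Prop
  | free (X : Type) : CG (FreeGroup X)
  | iso {Γ Γ' : Type} [Group Γ] [Group Γ'] (e : Γ ≃* Γ') : CG Γ → CG Γ'
  | directed {Γ : Type} [Group Γ] (S : Set (Subgroup Γ)) : S.Nonempty →
      DirectedOn (· ≤ ·) S → (∀ g : Γ, ∃ K ∈ S, g ∈ K) → (∀ K ∈ S, CG K) → CG Γ
  | amalgam (G : Bool → Type) [∀ i, Group (G i)] (E : Type) [Group E] (φ : ∀ i, E →* G i) :
      (∀ i, Function.Injective (φ i)) → (∀ i, CG (G i)) → CE E → CG (Monoid.PushoutI φ)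
  | hnn (G : Type) [Group G] (A B : Subgroup G) (φ : A ≃* B) : CG G → CE A →
      CG (HNNExtension G A B φ)

theorem cg_ucl {Γ : Type} [Group Γ] (h : CG Γ) : UCl Γ := by
  induction h with
  | free X => exact ucl_free X
  | iso e _ ih => exact UCl.iso e ih
  | directed S hne hd hS _ ih => exact UCl.directed S hne hd hS ih
  | amalgam G E φ hφ _ hE ih => exact UCl.amalgam G E φ hφ ih (ce_ucl hE) (ce_edge hE)
  | hnn G A B φ _ hA ih => exact UCl.hnn G A B φ ih (ce_ucl hA) (ce_edge hA)

end Pool.Agent.WaldL
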