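import Pool.Agent.Lib.MP_8f66f0_al_WaldL.ExClass

/-! Edge groups and the class `UCl` under isomorphisms and extensions by infinite cyclic groups. -/

set_option autoImplicit false

namespace Pool.Agent.WaldL

open Pool.Agent.Wald Pool.Agent.Ind Pool.Agent.WaldT

/-! ### Invariance under isomorphisms -/

theorem c1_ringEquiv {R S : Type} [Ring R] [Ring S] (e : R ≃+* S) (hR : C1 R) : C1 S := by
  intro a b s h k hk
  have hk' : k.map e.symm * h.map e.symm = 0 := by
    have h1 : (k * h).map e.symm.toRingHom = k.map e.symm.toRingHom * h.map e.symm.toRingHom :=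
      Matrix.map_mul
    rw [hk, Matrix.map_zero _ (map_zero _)] at h1
    exact h1.symm
  obtain ⟨s', k', T, ρ, ρ', h1, h2, h3⟩ := hR a b s (h.map e.symm) (k.map e.symm) hk'
  have hee : ∀ {m n : Type} (M : Matrix m n S), (M.map e.symm).map e.toRingHom = M := by
    intro m n M
    ext i j
    exact e.apply_symm_apply _
  refine ⟨s', k'.map e.toRingHom, T, ρ.map e.toRingHom, ρ'.map e.toRingHom, ?_, ?_, ?_⟩
  · have h4 : (k' * h.map e.symm).map e.toRingHom = k'.map e.toRingHom *
        (h.map e.symm).map e.toRingHom := Matrix.map_mul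
    rw [h1, Matrix.map_zero _ (map_zero _), hee] at h4
    exact h4.symm
  · have h4 : (ρ * k.map e.symm + ρ' * k').map e.toRingHom = ρ.map e.toRingHom *
        (k.map e.symm).map e.toRingHom + ρ'.map e.toRingHom * k'.map e.toRingHom := by
      rw [Matrix.map_add _ (map_add _), Matrix.map_mul, Matrix.map_mul]
    rw [h2, Matrix.map_zero _ (map_zero _), hee] at h4
    exact h4.symm
  · intro c hc
    have h5 : Matrix.vecMul (fun l => e.symm (c l)) (k.map e.symm) = 0 := by
      funext j
      have h6 := congrArg e.symm (congrFun hc j)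
      simpa only [Matrix.vecMul, dotProduct, Pi.zero_apply, map_sum, map_mul, map_zero,
        Matrix.map_apply] using h6
    obtain ⟨z, hz1, hz2⟩ := h3 _ h5
    refine ⟨fun t => e (z t), ?_, ?_⟩
    · funext l
      have h7 := congrArg e (congrFun hz1 l)
      rw [e.apply_symm_apply] at h7
      simp only [Matrix.vecMul, dotProduct, map_sum, map_mul] at h7
      exact h7
    · funext l
      have h7 := congrArg e (congrFun hz2 l)
      simp only [Matrix.vecMul, dotProduct, map_sum, map_mul, Pi.zero_apply, map_zero] at h7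
      exact h7

theorem c1_equiv {L E E' : Type} [CommRing L] [Group E] [Group E'] (e : E ≃* E')
    (h : C1 (MonoidAlgebra L E)) : C1 (MonoidAlgebra L E') :=
  c1_ringEquiv (MonoidAlgebra.mapDomainRingEquiv L e) h

theorem EdgeU.equiv {E : Type} [Group E] (h : EdgeU E) :
    ∀ (E' : Type) [Group E'], (E ≃* E') → EdgeU E' := by
  induction h with
  | cd h => exact fun E' _ e => EdgeU.cd (cdLE_equiv e.symm h)
  | c1 n hC h =>
    exact fun E' _ e => EdgeU.c1 n (fun L _ _ hL => c1_equiv e (hC L hL)) (cdLE_equiv e.symm h)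
  | tree n T hT h =>
    exact fun E' _ e => EdgeU.c1 n (fun L _ _ hL => c1_equiv e
      (WaldTL.c1_of_tree L T (hT L hL).1 (hT L hL).2)) (cdLE_equiv e.symm h)
  | cx n T hT h =>
    exact fun E' _ e => EdgeU.c1 n (fun L _ _ hL => c1_equiv e
      (WaldX.c1_cx L _ T (hT L hL).1 (hT L hL).2.1 (hT L hL).2.2)) (cdLE_equiv e.symm h)
  | ext n π hQ hN h =>
    exact fun E' _ e => EdgeU.c1 (n + 2) (fun L _ _ hL => have := isPrincipal_of_isEuc hL
      c1_equiv e (WaldX.c1_ext L π hQ hN)) (cdLE_equiv e.symm (WaldX.cdLE_ext π h hQ))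
  | loc _ ih =>
    intro E' _ e
    refine EdgeU.loc fun K hK => ?_
    have hfg : (K.map e.symm.toMonoidHom).FG := by
      obtain ⟨S, hS⟩ := hK
      classical
      refine ⟨S.image e.symm, ?_⟩
      rw [← hS, MonoidHom.map_closure, Finset.coe_image]
      rfl
    exact ih (K.map e.symm.toMonoidHom) hfg K (K.equivMapOfInjective _ e.symm.injective).symm

/-! ### Extensions by infinite cyclic groups -/

section Cyc

variable {E : Type} [Group E] (f : E →* Multiplicative ℤ) (t : E)

/-- Conjugation by `t` on the kernel. -/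
def cycConj : (⊤ : Subgroup f.ker) ≃* (⊤ : Subgroup f.ker) where
  toFun k := ⟨⟨t * (k : f.ker) * t⁻¹, (MonoidHom.normal_ker f).conj_mem _ k.1.2 t⟩, trivial⟩
  invFun k := ⟨⟨t⁻¹ * (k : f.ker) * t, by
    have h := (MonoidHom.normal_ker f).conj_mem _ k.1.2 t⁻¹
    rwa [inv_inv] at h⟩, trivial⟩
  left_inv k := Subtype.ext (Subtype.ext (by
    change t⁻¹ * (t * (k : f.ker) * t⁻¹) * t = (k : f.ker)
    group))
  right_inv k := Subtype.ext (Subtype.ext (by
    change t * (t⁻¹ * (k : f.ker) * t) * t⁻¹ = (k : f.ker)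
    group))
  map_mul' k k' := Subtype.ext (Subtype.ext (by
    change t * ((k : f.ker) * (k' : f.ker)) * t⁻¹ =
      t * (k : f.ker) * t⁻¹ * (t * (k' : f.ker) * t⁻¹)
    group))

/-- The HNN extension of the kernel. -/
abbrev CycH : Type := HNNExtension f.ker ⊤ ⊤ (cycConj f t)

/-- The map to the group. -/
def cycF : CycH f t →* E := HNNExtension.lift f.ker.subtype t (by
  intro a
  change t * (a : f.ker) = t * (a : f.ker) * t⁻¹ * t
  group)

theorem cyc_comm (n : ℤ) (k : f.ker) : ∃ k' : f.ker,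
    (HNNExtension.t : CycH f t) ^ n * HNNExtension.of k = HNNExtension.of k' *
      HNNExtension.t ^ n := by
  have h1 : ∀ k : f.ker, ∃ k' : f.ker, (HNNExtension.t : CycH f t) * HNNExtension.of k =
      HNNExtension.of k' * HNNExtension.t := fun k =>
    ⟨_, HNNExtension.t_mul_of (φ := cycConj f t) ⟨k, trivial⟩⟩
  have h2 : ∀ k : f.ker, ∃ k' : f.ker, (HNNExtension.t : CycH f t)⁻¹ * HNNExtension.of k =
      HNNExtension.of k' * HNNExtension.t⁻¹ := fun k =>
    ⟨_, HNNExtension.inv_t_mul_of (φ := cycConj f t) ⟨k, trivial⟩⟩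
  induction n using Int.induction_on generalizing k with
  | zero => exact ⟨k, by rw [zpow_zero, one_mul, mul_one]⟩
  | succ i ih =>
    obtain ⟨k', hk'⟩ := h1 k
    obtain ⟨k'', hk''⟩ := ih k'
    exact ⟨k'', by rw [zpow_add_one, mul_assoc, hk', ← mul_assoc, hk'', mul_assoc]⟩
  | pred i ih =>
    obtain ⟨k', hk'⟩ := h2 k
    obtain ⟨k'', hk''⟩ := ih k'
    exact ⟨k'', by rw [zpow_sub_one, mul_assoc, hk', ← mul_assoc, hk'', mul_assoc]⟩

theorem cyc_normal (x : CycH f t) : ∃ (k : f.ker) (n : ℤ),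
    x = HNNExtension.of k * HNNExtension.t ^ n := by
  induction x using HNNExtension.induction_on with
  | of k => exact ⟨k, 0, by rw [zpow_zero, mul_one]⟩
  | t => exact ⟨1, 1, by rw [map_one, one_mul, zpow_one]⟩
  | mul x y hx hy =>
    obtain ⟨k, n, rfl⟩ := hx
    obtain ⟨k', n', rfl⟩ := hy
    obtain ⟨k'', hk⟩ := cyc_comm f t n k'
    refine ⟨k * k'', n + n', ?_⟩
    rw [map_mul, zpow_add, mul_assoc, ← mul_assoc (HNNExtension.t ^ n), hk]
    simp only [mul_assoc]
  | inv x hx =>
    obtain ⟨k, n, rfl⟩ := hx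
    obtain ⟨k'', hk⟩ := cyc_comm f t (-n) k⁻¹
    refine ⟨k'', -n, ?_⟩
    rw [mul_inv_rev, ← zpow_neg, ← map_inv, hk]

theorem cycF_apply (k : f.ker) (n : ℤ) :
    cycF f t (HNNExtension.of k * HNNExtension.t ^ n) = k * t ^ n := by
  unfold cycF
  rw [map_mul, map_zpow, HNNExtension.lift_of, HNNExtension.lift_t]
  rfl

theorem cycF_bij (ht : f t = Multiplicative.ofAdd 1) : Function.Bijective (cycF f t) := by
  have hn : ∀ n : ℤ, f (t ^ n) = Multiplicative.ofAdd n := by
    intro n
    rw [map_zpow, ht, ← ofAdd_zsmul, smul_eq_mul, mul_one]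
  constructor
  · rw [injective_iff_map_eq_one]
    intro x hx
    obtain ⟨k, n, rfl⟩ := cyc_normal f t x
    rw [cycF_apply] at hx
    have h1 : n = 0 := by
      have h2 := congrArg f hx
      rw [map_mul, hn, map_one, (MonoidHom.mem_ker).1 k.2, one_mul] at h2
      exact Multiplicative.ofAdd.injective h2
    subst h1
    rw [zpow_zero, mul_one] at hx ⊢
    have h3 : k = 1 := Subtype.ext hx
    rw [h3, map_one]
  · intro g
    have hk : g * (t ^ (Multiplicative.toAdd (f g)))⁻¹ ∈ f.ker := by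
      rw [MonoidHom.mem_ker, map_mul, map_inv, hn, ofAdd_toAdd, mul_inv_cancel]
    exact ⟨HNNExtension.of ⟨_, hk⟩ * HNNExtension.t ^ (Multiplicative.toAdd (f g)), by
      rw [cycF_apply, inv_mul_cancel_right]⟩

/-- The class is closed under extensions of edge groups in the class by infinite cyclic groups. -/
theorem ucl_cyc (hf : Function.Surjective f) (hK : UCl f.ker) (hE : EdgeU f.ker) : UCl E := by
  obtain ⟨t, ht⟩ := hf (Multiplicative.ofAdd 1)
  exact UCl.iso (MulEquiv.ofBijective _ (cycF_bij f t ht))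
    (UCl.hnn f.ker ⊤ ⊤ (cycConj f t) hK (UCl.iso Subgroup.topEquiv.symm hK)
      (hE.equiv _ Subgroup.topEquiv.symm))

end Cyc

/-- The product of a free group with an edge group in the class. -/
theorem ucl_prod_free_edge {G : Type} [Group G] (hG : UCl G) (hc : EdgeU G) (X : Type) :
    UCl (FreeGroup X × G) := by
  classical
  have hfin : ∀ (Y : Type) [Finite Y], UCl (FreeGroup Y × G) := by
    intro Y _
    induction Y using Finite.induction_empty_option with
    | of_equiv e ih =>
      exact UCl.iso ((FreeGroup.freeGroupCongr e).prodCongr (MulEquiv.refl G)) ih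
    | h_empty =>
      refine UCl.iso (Γ := G) ?_ hG
      exact
        { toFun := fun g => (1, g)
          invFun := Prod.snd
          left_inv := fun g => rfl
          right_inv := fun p => Prod.ext (Subsingleton.elim _ _) rfl
          map_mul' := fun g g' => by rw [Prod.mk_mul_mk, one_mul] }
    | h_option ih =>
      rename_i Y _
      exact UCl.iso (exIso Y G) (UCl.hnn _ _ _ _ ih (UCl.iso (exAIso Y G) hG)
        (hc.equiv _ (exAIso Y G)))
  let f : ∀ S : Finset X, FreeGroup S × G →* FreeGroup X × G := fun S =>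
    (FreeGroup.map Subtype.val).prodMap (MonoidHom.id G)
  have hf : ∀ S, Function.Injective (f S) := by
    intro S p q h
    obtain ⟨a, b⟩ := Prod.ext_iff.1 h
    exact Prod.ext (FreeGroup.map_injective Subtype.val_injective a) b
  have hmono : ∀ S T : Finset X, S ⊆ T → (f S).range ≤ (f T).range := by
    rintro S T hST _ ⟨⟨w, g⟩, rfl⟩
    refine ⟨(FreeGroup.map (fun x : S => (⟨x.1, hST x.2⟩ : T)) w, g), ?_⟩
    refine Prod.ext ?_ rfl
    exact FreeGroup.map.comp (fun x : S => (⟨x.1, hST x.2⟩ : T)) Subtype.val w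
  have hcov : ∀ w : FreeGroup X, ∃ S : Finset X, w ∈ (FreeGroup.map (Subtype.val : S → X)).range := by
    have hm : ∀ S T : Finset X, S ⊆ T → (FreeGroup.map (Subtype.val : S → X)).range ≤
        (FreeGroup.map (Subtype.val : T → X)).range := by
      rintro S T hST _ ⟨w, rfl⟩
      refine ⟨FreeGroup.map (fun x : S => (⟨x.1, hST x.2⟩ : T)) w, ?_⟩
      rw [FreeGroup.map.comp]
      rfl
    intro w
    induction w using FreeGroup.induction_on with
    | C1 => exact ⟨∅, 1, map_one _⟩
    | of x => exact ⟨{x}, FreeGroup.of ⟨x, Finset.mem_singleton_self x⟩, FreeGroup.map.of⟩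
    | inv_of x h =>
      obtain ⟨S, hS⟩ := h
      exact ⟨S, inv_mem hS⟩
    | mul x y hx hy =>
      obtain ⟨S, hS⟩ := hx
      obtain ⟨T, hT⟩ := hy
      exact ⟨S ∪ T, mul_mem (hm S _ Finset.subset_union_left hS)
        (hm T _ Finset.subset_union_right hT)⟩
  refine UCl.directed (Set.range fun S : Finset X => (f S).range) ⟨_, ⟨∅, rfl⟩⟩ ?_ ?_ ?_
  · rintro _ ⟨S, rfl⟩ _ ⟨T, rfl⟩
    exact ⟨_, ⟨S ∪ T, rfl⟩, hmono _ _ Finset.subset_union_left,
      hmono _ _ Finset.subset_union_right⟩
  · rintro ⟨w, g⟩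
    obtain ⟨S, v, hv⟩ := hcov w
    exact ⟨_, ⟨S, rfl⟩, (v, g), Prod.ext hv rfl⟩
  · rintro _ ⟨S, rfl⟩
    exact UCl.iso (MonoidHom.ofInjective (hf S)) (hfin S)

end Pool.Agent.WaldL
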